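import Pool.Agent.Helper18.DY.NGiD
import Pool.Agent.Helper62.DY.NG0
import Pool.Agent.Helper54.DY.Det3
import Pool.Agent.Helper40.DY.VAB
import Pool.Agent.Helper23.DY.F1
import Pool.Agent.Helper9.DY.NG
import Pool.Agent.Helper9.DY.Pencil

/-!
# NG, index `k ≥ 2` at `h`, `b1, b2 ≥ 1 / 2` (MP_d13a5e_al)
-/

set_option autoImplicit false

namespace Pool.Agent.Helper18.DY

open _root_.DY (Z1 C01 Tri Str Loc Xs ORt OFA Good Canon sq sq_zero sq_one sq_two sq_succ sq_incr sq_mono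
  sq_cassini sq_le_succ exists_form3 vol vol_comb det_ge)
open Pool.Agent.Helper62.DY (RT rt_of_tri refl_O)
open Pool.Agent.Helper57.DY (sq_ge_l)

theorem hs_real {T d0 d s a : ℝ} (h0 : 0 ≤ d0) (hd : d0 + 1 ≤ d) (hs : d + 1 ≤ s) (ha : s + 1 ≤ a)
    (r0 : s = T * d - d0) (r1 : a = T * s - d) (ca : s ^ 2 - d * a = 1)
    (alt : (d = 1 ∧ s = T) ∨ T ≤ d) (hw : ∀ w : ℝ, 1 ≤ w → w ^ 2 + 1 ≤ T * w → w * s ≤ a) :
    HS T ((s - 1) / a) (d / s) := by
  have hs2 : 2 ≤ s := by linarith only [h0, hd, hs]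
  have ha3 : 3 ≤ a := by linarith only [h0, hd, hs, ha]
  refine ⟨?_, ?_, ?_, ?_, ?_, ?_⟩
  · exact div_pos (by linarith only [hs2]) (by linarith only [ha3])
  · rw [div_le_div_iff₀ (by linarith only [ha3]) (by linarith only [hs2])]
    nlinarith only [ca, hs2]
  · rw [div_mul_eq_mul_div, le_div_iff₀ (by linarith only [hs2])]
    linarith only [h0, r0]
  · rw [div_mul_eq_mul_div, div_le_one (by linarith only [hs2])]
    linarith only [hd, r0]
  · rcases alt with ⟨k1, k2⟩ | hdT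
    · left
      constructor
      · rw [div_mul_eq_mul_div, div_eq_one_iff_eq (by linarith only [hs2]), k1, k2]
        ring
      · rw [div_mul_eq_mul_div, div_eq_one_iff_eq (by linarith only [ha3]), r1, k1, k2]
        ring
    · right
      have k2 : T - (s - 1) / a = (T * a - (s - 1)) / a := by
        have : a ≠ 0 := by linarith only [ha3]
        field_simp
      rw [k2, div_mul_div_comm, le_div_iff₀ (mul_pos (by linarith only [hs2]) (by linarith only [ha3]))]
      have e1 : d * (T * a - (s - 1)) - s * a = d - T := by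
        linear_combination (-T) * ca - s * r1
      linarith only [hdT, e1]
  · intro w hw1 hw2
    have k1 := hw w hw1 hw2
    rw [div_mul_eq_mul_div, div_le_one (by linarith only [ha3])]
    linarith only [hw1, k1]

/-- the data at `h` -/
theorem hs_of {c : ℝ} (hc : 1 ≤ c) (n : ℕ) :
    HS (2 * c) ((sq c (n + 2) - 1) / sq c (n + 3)) (sq c (n + 1) / sq c (n + 2)) := by
  have i0 := sq_incr hc n
  refine hs_real i0.1 i0.2 (sq_incr hc (n + 1)).2 (sq_incr hc (n + 2)).2 (sq_succ c n) (sq_succ c (n + 1))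
    (sq_cassini c (n + 1)) ?_ ?_
  · rcases Nat.eq_zero_or_pos n with h | h
    · left
      subst h
      exact ⟨sq_one, sq_two⟩
    · right
      have k1 := sq_mono hc (show 2 ≤ n + 1 by omega)
      rw [sq_two] at k1
      exact k1
  · intro w hw1 hw2
    have key : ∀ m : ℕ, w * sq c m ≤ sq c (m + 1) := by
      intro m
      induction m with
      | zero => simp
      | succ m ih =>
        rw [sq_succ]
        have p0 := (sq_incr hc (m + 1)).1
        have k3 : w * (w * sq c (m + 1)) ≤ w * (2 * c * sq c (m + 1) - sq c m) := by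
          have k4 : (w ^ 2 + 1) * sq c (m + 1) ≤ 2 * c * w * sq c (m + 1) :=
            mul_le_mul_of_nonneg_right hw2 p0
          linarith only [ih, k4]
        exact le_of_mul_le_mul_left k3 (by linarith only [hw1])
    exact key (n + 2)

theorem vs_real {μ d s a a2 : ℝ} (h1 : 1 ≤ μ) (hd : μ ≤ d) (hs : μ ≤ s) (ha : 1 ≤ a)
    (r3 : a = μ * s - d) (r4 : a2 = μ * a - s) (ca : s ^ 2 - d * a = 1)
    (l1 : s ≤ a + 1) (l2 : a ≤ a2 + 1) (q4 : 1 ≤ μ * (μ ^ 2 - 2)) : VS μ ((s - 1) / a) (d / s) := by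
  have hμ2 : μ + 1 ≤ μ ^ 2 := by
    have k1 : 0 ≤ (μ + 1) * (μ ^ 2 - μ - 1) := by linarith only [q4]
    have k2 := (mul_nonneg_iff_of_pos_left (by linarith only [h1] : 0 < μ + 1)).1 k1
    linarith only [k2]
  have hμ8 : 8 / 5 ≤ μ := by nlinarith only [h1, hμ2]
  refine ⟨hμ2, hμ8, ?_, ?_, ?_, ?_, ?_, ?_⟩
  · rw [mul_div_assoc', le_div_iff₀ (by linarith only [ha])]
    linarith only [hd, r3]
  · rw [div_le_div_iff₀ (by linarith only [ha]) (by linarith only [h1, hs])]
    nlinarith only [h1, hs, ca]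
  · rw [div_le_one (by linarith only [ha])]
    linarith only [l1]
  · have k1 : 1 + (s - 1) / a = (a + s - 1) / a := by
      have : a ≠ 0 := by linarith only [ha]
      field_simp
      ring
    rw [k1, div_le_iff₀ (by linarith only [ha])]
    linarith only [r4, l2]
  · rw [mul_div_assoc', mul_div_assoc', div_le_div_iff₀ (by linarith only [h1, hs]) (by linarith only [ha])]
    have k1 : μ * d * a = μ * ((s - 1) * (s + 1)) := by
      linear_combination (-μ) * ca
    rw [k1]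
    have k2 : 0 ≤ (s - 1) * (s - μ) := mul_nonneg (by linarith only [h1, hs]) (by linarith only [hs])
    nlinarith only [k2]
  · have k1 : μ - (s - 1) / a = (μ * a - (s - 1)) / a := by
      have : a ≠ 0 := by linarith only [ha]
      field_simp
    rw [k1, div_mul_div_comm, le_div_iff₀ (mul_pos (by linarith only [h1, hs]) (by linarith only [ha]))]
    have e1 : d * (μ * a - (s - 1)) - s * a = d - μ := by
      linear_combination (-μ) * ca - s * r3
    linarith only [hd, e1]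

/-- the data at `V_2`, index at least `4` -/
theorem vs_of {b1 b2 bO : ℝ} {R : ℝ → ℝ → ℝ → Prop} (hR : RT b1 b2 bO R) (h1 : 1 ≤ 2 * b2) (n : ℕ)
    (hs : ∀ i ≤ n + 3, 0 < sq b2 (i + 1)) :
    VS (2 * b2) ((sq b2 (n + 3) - 1) / sq b2 (n + 4)) (sq b2 (n + 2) / sq b2 (n + 3)) := by
  have p : ∀ i ≤ n + 3, 1 ≤ sq b2 (i + 1) := fun i hi => hR.pge i (hs i hi)
  have p1 : 1 ≤ sq b2 (n + 1) := p n (by omega)
  have p2 : 1 ≤ sq b2 (n + 2) := p (n + 1) (by omega)
  have p3 : 1 ≤ sq b2 (n + 3) := p (n + 2) (by omega)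
  have p4 : 1 ≤ sq b2 (n + 4) := p (n + 3) (by omega)
  have p5 : 0 ≤ sq b2 (n + 5) := hR.pnn (n + 3) (hs (n + 3) le_rfl)
  have p0 : 0 ≤ sq b2 n := by
    rcases Nat.eq_zero_or_pos n with h | h
    · rw [h, sq_zero]
    · obtain ⟨l, rfl⟩ : ∃ l, n = l + 1 := ⟨n - 1, by omega⟩
      linarith only [p l (by omega)]
  have hb0 : 0 ≤ b2 := by linarith only [h1]
  have q4 : 1 ≤ sq b2 4 := p 3 (by omega)
  have e4 : sq b2 4 = 2 * b2 * ((2 * b2) ^ 2 - 2) := by
    have a1 : sq b2 4 = 2 * b2 * sq b2 3 - sq b2 2 := sq_succ b2 2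
    have a2 : sq b2 3 = 2 * b2 * sq b2 2 - sq b2 1 := sq_succ b2 1
    rw [a1, a2, sq_two, sq_one]
    ring
  rw [e4] at q4
  exact vs_real h1 (sq_ge_l hb0 p0 (by linarith only [p2]) (by linarith only [p4]))
    (sq_ge_l hb0 (n := n + 1) (by linarith only [p1]) (by linarith only [p3] : 0 ≤ sq b2 (n + 3)) p5) p4
    (sq_succ b2 (n + 2)) (sq_succ b2 (n + 3)) (sq_cassini b2 (n + 2))
    (sq_le_succ (by linarith only [p3]) (by linarith only [p4] : 0 ≤ sq b2 (n + 4)))
    (sq_le_succ (by linarith only [p4]) (by linarith only [p5] : 0 ≤ sq b2 (n + 5))) q4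

section

variable {E : Type*} [AddCommGroup E] [Module ℝ E] {Ψ : Set E} {B : E →ₗ[ℝ] E →ₗ[ℝ] ℝ}
  {ρ φ : E →ₗ[ℝ] ℝ} {t d1 d2 x x' : E} {g x1 x2 g' x1' x2' : ℝ}

/-- determinants of three roots are `0` or at least `1` -/
theorem det_tri (hT : Tri Ψ B t d1 d2) {x0 x1 x2 y0 y1 y2 z0 z1 z2 : ℝ}
    (hx : x0 • t + x1 • d1 + x2 • d2 ∈ Ψ) (hy : y0 • t + y1 • d1 + y2 • d2 ∈ Ψ)
    (hz : z0 • t + z1 • d1 + z2 • d2 ∈ Ψ) {D : ℝ}
    (hD : D = x0 * (y1 * z2 - y2 * z1) - x1 * (y0 * z2 - y2 * z0) + x2 * (y0 * z1 - y1 * z0)) :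
    D = 0 ∨ 1 ≤ |D| := by
  obtain ⟨f, f0, f1, f2⟩ := exists_form3 hT.indep 1 0 0
  obtain ⟨k, k0, k1, k2⟩ := exists_form3 hT.indep 0 1 0
  obtain ⟨h, h0, h1, h2⟩ := exists_form3 hT.indep 0 0 1
  have hv : vol f k h t d1 d2 = 1 := by
    unfold vol
    rw [f0, f1, f2, k0, k1, k2, h0, h1, h2]
    norm_num
  have key := det_ge (f := f) (g := k) (h := h) hT hx hy hz
  rw [vol_comb, hv, mul_one, abs_one, ← hD] at key
  exact key

/-- an `O`-root does not pass through `F` -/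
theorem Xs.phi_ne (X : Xs Ψ B ρ φ t d1 d2 x x' g x1 x2 g' x1' x2') (hg : 1 ≤ g) (hg' : 1 ≤ g')
    {y1 y2 : ℝ} (hy : y1 • d1 + y2 • d2 ∈ Ψ) : y1 * φ d1 + y2 * φ d2 ≠ 0 := by
  intro h0
  have hφ : φ (y1 • d1 + y2 • d2) = 0 := by
    simp only [map_add, map_smul, smul_eq_mul]
    exact h0
  obtain ⟨α, β, e⟩ := X.L.sp _ hy
  rw [hφ, zero_smul, add_zero] at e
  have h1 : α * g + β * g' = 0 := by
    have e2 : (α * g + β * g') • t + (α * x1 + β * x1' - y1) • d1 + (α * x2 + β * x2' - y2) • d2 = 0 := by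
      have : (α * g + β * g') • t + (α * x1 + β * x1' - y1) • d1 + (α * x2 + β * x2' - y2) • d2 =
          (α • x + β • x') - (y1 • d1 + y2 • d2) := by
        rw [X.e, X.e']
        module
      rw [this, e, sub_self]
    exact (X.L.tri.indep _ _ _ e2).1
  rcases X.L.cxx _ hy _ _ e with (⟨k1, k2⟩ | ⟨k1, k2⟩ | ⟨k1, k2⟩) | (⟨k1, k2⟩ | ⟨k1, k2⟩ | ⟨k1, k2⟩)
  · rw [k1, k2] at h1
    linarith only [hg', h1]
  · rw [k1, k2] at h1
    linarith only [hg, h1]
  · have := mul_pos (by linarith only [k1] : 0 < α) (by linarith only [hg] : 0 < g)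
    have := mul_pos (by linarith only [k2] : 0 < β) (by linarith only [hg'] : 0 < g')
    linarith
  · have a1 : α = 0 := by linarith only [k1]
    have a2 : β = -1 := by linarith only [k2]
    rw [a1, a2] at h1
    linarith only [hg', h1]
  · have a1 : α = -1 := by linarith only [k1]
    have a2 : β = 0 := by linarith only [k2]
    rw [a1, a2] at h1
    linarith only [hg, h1]
  · have := mul_pos (by linarith only [k1] : 0 < -α) (by linarith only [hg] : 0 < g)
    have := mul_pos (by linarith only [k2] : 0 < -β) (by linarith only [hg'] : 0 < g')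
    linarith

/-- **NGi** for `b1, b2 ≥ 1 / 2`, the alternative `OFA` -/
theorem ngi_half {al1 al2 be1 be2 : ℝ} (X : Xs Ψ B ρ φ t d1 d2 x x' g x1 x2 g' x1' x2')
    (O : OFA Ψ B φ d1 d2 al1 al2 be1 be2) (hbe : 1 ≤ be1) (hu : x1 * be2 ≤ x2 * be1) (hg' : 1 ≤ g')
    (hb1 : 1 / 2 ≤ -B t d1) (hb2 : 1 / 2 ≤ -B t d2) {k2 : ℕ} (hk2 : Good (-B t d2) (φ d2) k2) {k : ℕ}
    (hk : 2 ≤ k) (hkh : Good (be1 * -B t d1 + be2 * -B t d2) (be1 * φ d1 + be2 * φ d2) k) : False := by
  have rh := O.rh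
  have fh := O.fh
  have L := X.L
  have hT := L.tri
  have h := rt_of_tri hT
  have hal : be2 = al1 := by
    linear_combination (al1 + B d1 d2 * al2) * O.det + al2 * O.adj - be2 * O.ra.nrm
  have hbe2 : 1 ≤ be2 := by
    rcases rh.z2 with h1 | h1
    · exfalso
      rw [h1] at fh
      have := mul_nonneg (by linarith only [hbe] : 0 ≤ be1) X.h1
      linarith only [fh, this]
    · exact h1
  have hR : (0 : ℝ) • t + be1 • d1 + be2 • d2 ∈ Ψ := by
    have e : (0 : ℝ) • t + be1 • d1 + be2 • d2 = be1 • d1 + be2 • d2 := by module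
    rw [e]
    exact rh.mem
  have hRa : (0 : ℝ) • t + al1 • d1 + al2 • d2 ∈ Ψ := by
    have e : (0 : ℝ) • t + al1 • d1 + al2 • d2 = al1 • d1 + al2 • d2 := by module
    rw [e]
    exact O.ra.mem
  have hx : g • t + x1 • d1 + x2 • d2 ∈ Ψ := by
    rw [← X.e]
    exact L.xm
  have hSh := L.str_h rh
  have hS2 := L.str_2
  have hκ := X.h2
  have hfz := X.c.fz
  obtain ⟨η, hη⟩ : ∃ η, η = x1 / be1 := ⟨_, rfl⟩
  obtain ⟨ζ, hζd⟩ : ∃ ζ, ζ = x2 - be2 * η := ⟨_, rfl⟩
  have p1 := X.p1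
  have hx1 : x1 = be1 * η := by
    rw [hη]
    field_simp
  have hx2 : x2 = ζ + be2 * η := by linarith only [hζd]
  have hη0 : 0 < η := by
    rw [hη]
    positivity
  have hgφ : g = η * -(be1 * φ d1 + be2 * φ d2) + -φ d2 * ζ := by
    rw [hfz, hx1, hx2]
    ring
  have hζ0 : 0 ≤ ζ := by
    have e1 : be1 * ζ = x2 * be1 - x1 * be2 := by
      rw [hζd]
      rw [hη]
      field_simp
    have e2 : 0 ≤ be1 * ζ := by linarith only [hu, e1]
    by_contra hcon
    have := mul_neg_of_pos_of_neg (by linarith only [hbe] : 0 < be1) (not_le.1 hcon)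
    linarith only [e2, this]
  have hηq := mul_pos hη0 (by linarith only [fh] : 0 < -(be1 * φ d1 + be2 * φ d2))
  have hκζ := mul_nonneg (by linarith only [hκ] : 0 ≤ -φ d2) hζ0
  have hg0 : 0 < g := by linarith only [hgφ, hηq, hκζ]
  have hg1 := (h.z0 hx hg0).1
  have hζ : 0 < ζ := by
    rcases hζ0.lt_or_eq with h1 | h1
    · exact h1
    · exfalso
      have e1 : be1 • d1 + be2 • d2 = (1 / η) • x + (-(g / η)) • t := by
        rw [X.e, hx1, hx2, ← h1]
        match_scalars <;> field_simp <;> ring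
      exact Pool.Agent.Helper62.DY.canon_neg L.cxt rh.mem e1 (by positivity) (by
        have : 0 < g / η := by positivity
        linarith only [this])
  -- `φ a > 0`
  have hfa : 0 < al1 * φ d1 + al2 * φ d2 := by
    rcases O.fa.lt_or_eq with h1 | h1
    · exact h1
    · exact absurd h1.symm (Xs.phi_ne X hg1 hg' O.ra.mem)
  have hκe : be2 * -(be1 * φ d1 + be2 * φ d2) < -φ d2 := by
    have e1 : -φ d2 = be2 * -(be1 * φ d1 + be2 * φ d2) + be1 * (al1 * φ d1 + al2 * φ d2) := by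
      have h1 := O.det
      rw [← hal] at h1 ⊢
      linear_combination (φ d2) * h1
    have h2 := mul_pos (by linarith only [hbe] : 0 < be1) hfa
    linarith only [e1, h2]
  obtain ⟨bO, hbO⟩ : ∃ bO, bO = -B d1 d2 := ⟨_, rfl⟩
  obtain ⟨b1, hb1d⟩ : ∃ b1, b1 = -B t d1 := ⟨_, rfl⟩
  obtain ⟨b2, hb2d⟩ : ∃ b2, b2 = -B t d2 := ⟨_, rfl⟩
  obtain ⟨fH, hfH⟩ : ∃ fH, fH = be1 * φ d1 + be2 * φ d2 := ⟨_, rfl⟩
  obtain ⟨T, hTd⟩ : ∃ T, T = 2 * b1 * be1 + 2 * b2 * be2 := ⟨_, rfl⟩
  obtain ⟨m, hm⟩ : ∃ m, m = 2 * bO * be1 - be2 := ⟨_, rfl⟩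
  have hnO := h.n _ _ _ hR
  rw [← hb1d, ← hb2d, ← hbO] at hnO
  -- reflection in `h`
  have hrx := refl_O hT rh.mem hx
  have hrt := refl_O (g := 1) (x1 := 0) (x2 := 0) hT rh.mem h.e0
  rw [← hb1d, ← hb2d, ← hbO] at hrx hrt
  have g1 : x1 + (2 * (b1 * be1 + b2 * be2) * g - 2 * (be1 - bO * be2) * x1 - 2 * (be2 - bO * be1) * x2) * be1 =
      be1 * (T * g - η - (be2 - m) * ζ) := by
    rw [hx1, hx2, hTd, hm]
    linear_combination (-2 * be1 * η) * hnO
  have g2 : x2 + (2 * (b1 * be1 + b2 * be2) * g - 2 * (be1 - bO * be2) * x1 - 2 * (be2 - bO * be1) * x2) * be2 =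
      be2 * (T * g - η - (be2 - m) * ζ) + ζ := by
    rw [hx1, hx2, hTd, hm]
    linear_combination (-2 * be2 * η) * hnO
  rw [g1, g2] at hrx
  have g3 : 0 + (2 * (b1 * be1 + b2 * be2) * 1 - 2 * (be1 - bO * be2) * 0 - 2 * (be2 - bO * be1) * 0) * be1 =
      T * be1 := by
    rw [hTd]
    ring
  have g4 : 0 + (2 * (b1 * be1 + b2 * be2) * 1 - 2 * (be1 - bO * be2) * 0 - 2 * (be2 - bO * be1) * 0) * be2 =
      T * be2 := by
    rw [hTd]
    ring
  rw [g3, g4] at hrt
  -- `u_2`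
  have hu2 := h.r2 _ _ _ h.e0
  rw [← hb2d, ← hbO] at hu2
  have g5 : 2 * b2 * 1 + 2 * bO * 0 - 0 = 2 * b2 := by ring
  rw [g5] at hu2
  -- determinants
  have dζ := det_tri (D := be1 * ζ) hT hx h.e0 hR (by rw [hx1, hx2]; ring)
  have dβ := det_tri (D := -(be1 * (2 * b2 * g - ζ))) hT hx hu2 hR (by rw [hx1, hx2]; ring)
  have dK := det_tri (D := -(T * g - η - be2 * ζ)) hT hx hrt hRa (by
    rw [hx1, hx2, ← hal]
    have h1 := O.det
    rw [← hal] at h1
    linear_combination (T * g - η) * h1)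
  rw [← hb1d] at hb1
  rw [← hb2d] at hb2 hk2 hS2
  rw [← hb1d, ← hb2d, ← hfH] at hkh hSh
  rw [← hfH] at hgφ hκe fh
  have hc1 : 1 ≤ be1 * b1 + be2 * b2 := by
    have h1 : 1 * (1 / 2) ≤ be1 * b1 := mul_le_mul hbe hb1 (by norm_num) (by linarith only [hbe])
    have h2 : 1 * (1 / 2) ≤ be2 * b2 := mul_le_mul hbe2 hb2 (by norm_num) (by linarith only [hbe2])
    linarith only [h1, h2]
  obtain ⟨n, rfl⟩ : ∃ n, k = n + 2 := ⟨k - 2, by omega⟩
  have HSd := hs_of hc1 n
  have hTc : 2 * (be1 * b1 + be2 * b2) = T := by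
    rw [hTd]
    ring
  rw [hTc] at HSd
  obtain ⟨c, hc⟩ : ∃ c, c = be1 * b1 + be2 * b2 := ⟨_, rfl⟩
  rw [← hc] at hkh hSh HSd hc1
  obtain ⟨t1, ht1⟩ : ∃ t1, t1 = (sq c (n + 2) - 1) / sq c (n + 3) := ⟨_, rfl⟩
  obtain ⟨κ, hκd⟩ : ∃ κ, κ = sq c (n + 1) / sq c (n + 2) := ⟨_, rfl⟩
  rw [← ht1, ← hκd] at HSd
  have s2 : 0 < sq c (n + 2) := by linarith only [(sq_incr hc1 (n + 1)).2, (sq_incr hc1 (n + 1)).1]
  have s3 : 0 < sq c (n + 3) := by linarith only [(sq_incr hc1 (n + 2)).2, (sq_incr hc1 (n + 2)).1]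
  -- `κ ≤ - φ h`
  have hκf : κ ≤ -fH := by
    have h1 := hkh.hm (n + 1) (by omega)
    have i1 : n + 1 + 1 = n + 2 := rfl
    rw [i1] at h1
    rw [hκd, div_le_iff₀ s2]
    linarith
  -- `ρ h > - t1`
  obtain ⟨rH, hrH⟩ : ∃ rH, rH = be1 * ρ d1 + be2 * ρ d2 := ⟨_, rfl⟩
  rw [← hrH] at hSh
  have hρh : -t1 < rH := by
    have h1 := hkh.nk hSh fh
    have i1 : n + 2 + 1 = n + 3 := rfl
    rw [i1] at h1
    rw [ht1, neg_lt, lt_div_iff₀ s3]
    linarith only [h1]
  have hF2 : κ * (η + be2 * ζ) < g := by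
    rw [hgφ]
    have h1 := mul_le_mul_of_nonneg_right hκf hη0.le
    have h2 : be2 * κ * ζ ≤ be2 * -fH * ζ :=
      mul_le_mul_of_nonneg_right (mul_le_mul_of_nonneg_left hκf (by linarith only [hbe2])) hζ.le
    have h3 := mul_lt_mul_of_pos_right hκe hζ
    linarith only [h1, h2, h3]
  have D : GD (fun g x1 x2 => g • t + x1 • d1 + x2 • d2 ∈ Ψ) b1 b2 bO be1 be2 g x1 x2 η ζ T m t1 κ :=
    { hR := by
        rw [hb1d, hb2d, hbO]
        exact h
      hb1 := by linarith only [hb1]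
      hb2 := by linarith only [hb2]
      hT := hTd
      hm := hm
      hh := hR
      hH1 := hbe
      hH2 := hbe2
      hx := hx
      hg := hg1
      hx1 := p1
      e1 := hx1
      e2 := hx2
      hζ := hζ
      hη := hη0
      S := HSd
      hF2 := hF2
      hvζ := by
        have h1 : 0 < be1 * ζ := mul_pos (by linarith only [hbe]) hζ
        rcases dζ with h2 | h2
        · linarith only [h1, h2]
        · rw [abs_of_pos h1] at h2
          exact h2
      hvβ := by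
        intro h0
        have h1 : 0 < be1 * (2 * b2 * g - ζ) := mul_pos (by linarith only [hbe]) h0
        rcases dβ with h2 | h2
        · linarith only [h1, h2]
        · rw [abs_neg, abs_of_pos h1] at h2
          exact h2
      hvK := by
        intro h0
        rcases dK with h2 | h2
        · linarith only [h0, h2]
        · rw [abs_neg, abs_of_pos h0] at h2
          exact h2
      hr := hrx }
  have hρ := X.le_one.1
  have hρx : g + x1 * ρ d1 + x2 * ρ d2 = g + η * rH + ζ * ρ d2 := by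
    rw [hx1, hx2, hrH]
    ring
  rw [hρx] at hρ
  have hηρ := mul_lt_mul_of_pos_left hρh hη0
  have hk1 := hk2.pos hκ
  have hkf : κ * η ≤ η * -fH := by
    have := mul_le_mul_of_nonneg_left hκf hη0.le
    linarith only [this]
  rcases hk1.eq_or_lt with h3 | h3
  · -- `j = 2`
    subst h3
    have hr2 := hk2.nk_one hS2 hκ
    have hζρ := mul_pos hζ hr2
    rcases D.two with h4 | ⟨a1, a2, a3, a4, a5, a6⟩
    · linarith only [hρ, hηρ, hζρ, h4]
    · -- `v_A`
      rw [a2, a3] at hnO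
      have n2 : bO = 1 / 2 := by linarith only [hnO]
      have hs2 : 2 ≤ g ^ 2 := by
        have : 1 ≤ (2 * b1) ^ 2 - 1 := by rw [← a5]; exact p1
        rw [a4]
        linarith only [this]
      refine _root_.DY.vA X hg0 hs2 (by linarith only [hb1d, a4]) (by linarith only [hb2d, a1]) (by linarith only [hbO, hnO]) rfl (by rw [a5, a4]) ?_ ?_ hg'
      · have : x2 = 2 * b2 * g + 2 * bO * x1 := by linarith only [a6]
        rw [this, a1, n2, a5, a4]
        ring
      · rw [hfH, a2, a3] at fh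
        linarith only [fh]
  · rcases (Nat.succ_le_of_lt h3).eq_or_lt with h4 | h4
    · -- `j = 3`
      have h4' : 2 = k2 := h4
      subst h4'
      have i1 : sq b2 (1 + 1) = 2 * b2 := sq_two
      have i3 : sq b2 (2 + 1) = (2 * b2) ^ 2 - 1 := by
        have : sq b2 3 = 2 * b2 * sq b2 2 - sq b2 1 := sq_succ b2 1
        have i4 : sq b2 (2 + 1) = sq b2 3 := rfl
        rw [i4, this, sq_two, sq_one]
        ring
      have s3' : 1 ≤ sq b2 (2 + 1) := by
        have := D.hR.pge 2 (hk2.hs 2 le_rfl)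
        exact this
      rw [i3] at s3'
      have h5 := hk2.hm 1 (by norm_num)
      have i2 : sq b2 1 = 1 := sq_one
      rw [i1, i2] at h5
      have hnk := hk2.nk hS2 hκ
      have i5 : sq b2 2 = 2 * b2 := sq_two
      rw [i3, i5] at hnk
      obtain ⟨t2, ht2⟩ : ∃ t2, t2 = 1 / (2 * b2 + 1) := ⟨_, rfl⟩
      have ht2' : t2 * (2 * b2 + 1) = 1 := by
        rw [ht2]
        field_simp
      have hr2 : -t2 < ρ d2 := by
        have h6 : 0 < 2 * b2 - 1 := by
          by_contra hcon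
          nlinarith only [hb2, s3', hcon]
        have h7 : (2 * b2 - 1) * ((2 * b2 + 1) * -t2) < (2 * b2 - 1) * ((2 * b2 + 1) * ρ d2) := by
          have e1 : (2 * b2 + 1) * -t2 = -1 := by linear_combination (-1) * ht2'
          rw [e1]
          linarith only [hnk]
        have h8 := lt_of_mul_lt_mul_left h7 h6.le
        exact lt_of_mul_lt_mul_left h8 (by linarith only [h6])
      have hζρ := mul_lt_mul_of_pos_left hr2 hζ
      have hF1 : 2 * b2 * κ * η ≤ 2 * b2 * g - ζ := by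
        have h6 : 1 * ζ ≤ 2 * b2 * -φ d2 * ζ := mul_le_mul_of_nonneg_right (by linarith only [h5]) hζ.le
        have h7 : 2 * b2 * (κ * η) ≤ 2 * b2 * (η * -fH) := mul_le_mul_of_nonneg_left hkf (by linarith only [hb2])
        rw [hgφ]
        linarith only [h6, h7]
      have hBu : 2 * b2 * (2 * b2 * g - ζ + m * η) + 2 * b1 * x1 - g < g := by
        have c0 := X.C0
        have c1 := X.cR_nonneg
        have h6 : 1 * -B x t ≤ 2 * b2 * -φ d2 * -B x t := mul_le_mul_of_nonneg_right (by linarith only [h5]) c1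
        have h7 : 2 * b2 * (-φ d2 * -B x t) < 2 * b2 * B x d2 := mul_lt_mul_of_pos_left c0 (by linarith only [hb2])
        have h8 : 0 < B x t + 2 * b2 * B x d2 := by linarith only [h6, h7]
        rw [X.Bxt, X.Bxd2, ← hb1d, ← hb2d, ← hbO] at h8
        have e1 : 2 * b2 * g - ζ + m * η = 2 * b2 * g + 2 * bO * x1 - x2 := by
          rw [hx1, hx2, hm]
          ring
        rw [e1]
        linarith only [h8]
      rcases D.three (by linarith only [s3']) ht2' hF1 hBu with h6 | ⟨a1, a2, a3, a4, a5, a6⟩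
      · linarith only [hρ, hηρ, hζρ, h6]
      · -- `v_B`
        rw [a2, a3] at hnO
        have n2 : bO = 1 / 2 := by linarith only [hnO]
        refine _root_.DY.vB X (s := 2 * b2) (by linarith only [hb2]) (by linarith only [s3']) (by linarith only [hb1d, a1]) (by rw [← hb2d]; ring)
          (by linarith only [hbO, hnO]) (by rw [a5, a4, a1]; ring) a4 ?_ ?_ hg'
        · have : x2 = 2 * b2 * g + 2 * bO * x1 - 1 := by linarith only [a6]
          rw [this, n2, a5, a4, a1]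
          ring
        · rw [hfH, a2, a3] at fh
          linarith only [fh]
    · -- `j ≥ 4`
      obtain ⟨l, rfl⟩ : ∃ l, k2 = l + 3 := ⟨k2 - 3, by omega⟩
      have V := vs_of D.hR D.hb2 l hk2.hs
      have p3 : 0 < sq b2 (l + 3) := hk2.hs (l + 2) (by omega)
      have p4 : 0 < sq b2 (l + 4) := hk2.hs (l + 3) (by omega)
      obtain ⟨t2, ht2⟩ : ∃ t2, t2 = (sq b2 (l + 3) - 1) / sq b2 (l + 4) := ⟨_, rfl⟩
      obtain ⟨κ', hκ'⟩ : ∃ κ', κ' = sq b2 (l + 2) / sq b2 (l + 3) := ⟨_, rfl⟩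
      rw [← ht2, ← hκ'] at V
      have hnk := hk2.nk hS2 hκ
      have i1 : l + 3 + 1 = l + 4 := rfl
      rw [i1] at hnk
      have hr2 : -t2 < ρ d2 := by
        rw [ht2, neg_lt, lt_div_iff₀ p4]
        linarith only [hnk]
      have hκ2 : κ' ≤ -φ d2 := by
        have h5 := hk2.hm (l + 2) (by omega)
        have i2 : l + 2 + 1 = l + 3 := rfl
        rw [i2] at h5
        rw [hκ', div_le_iff₀ p3]
        linarith only [h5]
      have hζρ := mul_lt_mul_of_pos_left hr2 hζ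
      have hF1 : κ * η + κ' * ζ ≤ g := by
        have h6 := mul_le_mul_of_nonneg_right hκ2 hζ.le
        rw [hgφ]
        linarith only [hkf, h6]
      have h6 := D.four V hF1
      linarith only [hρ, hηρ, hζρ, h6]

end

end Pool.Agent.Helper18.DY
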