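import Mathlib

/-!
# NG, index `k ≥ 2` at `h`: real inequalities (MP_d13a5e_al)

`x = g t + η h + ζ d2`, `h = H1 d1 + H2 d2`, `T = 2 c_h = b H1 + μ H2`, `b = 2 b1`, `μ = 2 b2`,
`y = T g - η - (H2 - m) ζ`, `β = μ g - ζ`, `K = T g - η - H2 ζ`; the claim is `1 ≤ g - t1 η - t2 ζ`.
-/

set_option autoImplicit false

namespace Pool.Agent.Helper18.DY

theorem claim_of {g η ζ y β t1 t2 : ℝ} (hg : 0 < g) (hN : g ^ 2 - 1 = η * y + ζ * β)
    (hX : g - 1 ≤ η * (y - t1 * g) + ζ * (β - t2 * g)) : 1 ≤ g - t1 * η - t2 * ζ := by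
  have e : g * (g - t1 * η - t2 * ζ) = 1 + (η * (y - t1 * g) + ζ * (β - t2 * g)) := by
    linear_combination hN
  have h : g * 1 ≤ g * (g - t1 * η - t2 * ζ) := by
    rw [e]
    linarith
  exact le_of_mul_le_mul_left h hg

/-- **(P1)** -/
theorem P1 {g η ζ y β t1 t2 b H1 H2 m : ℝ} (hg : 1 ≤ g) (hN : g ^ 2 - 1 = η * y + ζ * β)
    (hS : η + y = H1 * b * g + H2 * β + m * ζ) (hη : 1 ≤ H1 * η) (hy : 1 ≤ H1 * (y - t1 * g))
    (hβ : t2 * g ≤ β) (hζ : 0 ≤ ζ) (hH : 1 ≤ H1)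
    (hx : H1 * g + t1 * g ≤ H1 * b * g + H2 * β + m * ζ) : 1 ≤ g - t1 * η - t2 * ζ := by
  refine claim_of (by linarith) hN ?_
  have h1 := mul_nonneg (sub_nonneg.2 hη) (sub_nonneg.2 hy)
  have h2 := mul_nonneg hζ (sub_nonneg.2 hβ)
  have h3 : H1 * (H1 * g) ≤ H1 * (η + y - t1 * g) := mul_le_mul_of_nonneg_left (by linarith) (by linarith)
  have h4 : H1 ^ 2 * (g - 1) ≤ H1 ^ 2 * (η * (y - t1 * g)) := by
    have h5 : 1 ≤ H1 ^ 2 := one_le_pow₀ hH
    nlinarith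
  have h5 := le_of_mul_le_mul_left h4 (by positivity)
  linarith

/-- **(P2)** -/
theorem P2 {g η ζ y β t1 t2 μ : ℝ} (hg : 1 ≤ g) (hN : g ^ 2 - 1 = η * y + ζ * β)
    (hβ : β = μ * g - ζ) (hη : 0 ≤ η) (hy : t1 * g ≤ y) (hζ : 1 ≤ ζ) (hb : 1 ≤ β - t2 * g)
    (hμ : 1 + t2 ≤ μ) : 1 ≤ g - t1 * η - t2 * ζ := by
  refine claim_of (by linarith) hN ?_
  have h1 := mul_nonneg (sub_nonneg.2 hζ) (sub_nonneg.2 hb)
  have h2 := mul_nonneg hη (sub_nonneg.2 hy)
  have h3 : (1 + t2) * g ≤ μ * g := mul_le_mul_of_nonneg_right hμ (by linarith)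
  nlinarith

/-- `j = 2`, `i = 3` -/
theorem j2i3 {g η ζ K e2 T t1 H2 : ℝ} (hg : 1 ≤ g) (ht : t1 * (T + 1) = 1) (hT : 0 < T)
    (hK : K = T * g - η - H2 * ζ) (hN : η * K = g ^ 2 - 1 - ζ * e2) (he2 : 0 ≤ e2) (hK1 : 1 ≤ K)
    (hζ : 0 ≤ ζ) (hH2 : 0 ≤ H2) : 1 ≤ g - t1 * η := by
  by_contra hcon
  rw [not_le] at hcon
  have h1 : (T + 1) * (g - 1) < η := by
    have h2 : (T + 1) * (g - t1 * η) < (T + 1) * 1 := mul_lt_mul_of_pos_left hcon (by linarith)
    have h3 : (T + 1) * (g - t1 * η) = (T + 1) * g - η := by linear_combination (-η) * ht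
    linarith
  have hHζ := mul_nonneg hH2 hζ
  have h2 : K + H2 * ζ + g < T + 1 := by linarith
  have h3 : (K + H2 * ζ + g) * (g - 1) < η := by
    have := mul_le_mul_of_nonneg_right h2.le (by linarith : 0 ≤ g - 1)
    linarith
  have h4 := mul_lt_mul_of_pos_right h3 (by linarith : 0 < K)
  have h5 := mul_nonneg hζ he2
  have h6 : (g + 1) * (g - 1) ≤ (K + H2 * ζ + g) * (g - 1) * K := by
    have h7 : g + 1 ≤ (K + H2 * ζ + g) * K := by
      have := mul_nonneg hHζ (by linarith : 0 ≤ K)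
      nlinarith
    have := mul_le_mul_of_nonneg_right h7 (by linarith : 0 ≤ g - 1)
    linarith
  nlinarith

/-- `j = 2`, `i ≥ 4`, `ζ ≥ 1` -/
theorem j2a {g η ζ K e2 β t1 μ : ℝ} (hg : 1 ≤ g) (hN : η * K = g ^ 2 - 1 - ζ * e2) (hζ : 1 ≤ ζ)
    (he2 : 1 ≤ e2) (hβ : β ≤ e2) (hβ' : β = μ * g - ζ) (hμ : 1 ≤ μ) (ht : 0 < t1)
    (hK : t1 * g ≤ K) : 1 ≤ g - t1 * η := by
  have hK0 : 0 < K := lt_of_lt_of_le (mul_pos ht (by linarith)) hK
  have h1 := mul_nonneg (sub_nonneg.2 hζ) (sub_nonneg.2 he2)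
  have h2 : g ≤ μ * g := by nlinarith
  have h3 : g - 1 ≤ ζ * e2 := by nlinarith
  have h4 : t1 * (η * K) ≤ t1 * (g * (g - 1)) := mul_le_mul_of_nonneg_left (by rw [hN]; nlinarith) ht.le
  have h5 := mul_le_mul_of_nonneg_right hK (by linarith : 0 ≤ g - 1)
  have h6 : K * 1 ≤ K * (g - t1 * η) := by nlinarith
  exact le_of_mul_le_mul_left h6 hK0

/-- `j = 2`, `i ≥ 4`, `e_2 = 0` -/
theorem j2c {g η K x1 x1' b μ H1 H2 T t1 : ℝ} (hg : 1 ≤ g) (hx1 : 1 ≤ x1) (hx1' : 1 ≤ x1')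
    (hN : x1 * x1' = g ^ 2 - 1) (hK : K = H1 * x1') (hη : x1 = H1 * η) (hs : x1 + x1' = b * g)
    (hz : b * x1' - g = 0 ∨ 1 ≤ b * x1' - g) (hT : T = b * H1 + μ * H2) (hb : b = 1 ∨ (1 ≤ b ∧ 2 ≤ b ^ 2))
    (hμ : μ = 1 ∨ (1 ≤ μ ∧ 2 ≤ μ ^ 2)) (h1s : H1 = 1 ∨ (1 ≤ H1 ∧ 2 ≤ H1 ^ 2))
    (h2s : H2 = 1 ∨ (1 ≤ H2 ∧ 2 ≤ H2 ^ 2)) (ht : 0 < t1) (ht1 : t1 * (T - 1) ≤ 1)
    (hw : ∀ w : ℝ, 1 ≤ w → w ^ 2 + 1 ≤ T * w → t1 * w ≤ 1) :
    1 ≤ g - t1 * η ∨ (μ = 1 ∧ H1 = 1 ∧ H2 = 1 ∧ g = b ∧ x1 = b ^ 2 - 1) := by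
  have b1 : 1 ≤ b := by rcases hb with h | h <;> linarith
  have m1 : 1 ≤ μ := by rcases hμ with h | h <;> linarith
  have H11 : 1 ≤ H1 := by rcases h1s with h | h <;> linarith
  have H21 : 1 ≤ H2 := by rcases h2s with h | h <;> linarith
  have hK0 : 0 < K := by rw [hK]; positivity
  have hμH : 1 ≤ μ * H2 := one_le_mul_of_one_le_of_one_le m1 H21
  have fin : t1 * (g + 1) ≤ K → 1 ≤ g - t1 * η := by
    intro h
    have h1 := mul_le_mul_of_nonneg_right h (by linarith : 0 ≤ g - 1)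
    have h2 : η * K = g ^ 2 - 1 := by
      rw [hK, ← hN, hη]
      ring
    have h3 : t1 * (η * K) = t1 * (g ^ 2 - 1) := by rw [h2]
    have h6 : K * 1 ≤ K * (g - t1 * η) := by nlinarith
    exact le_of_mul_le_mul_left h6 hK0
  have hbH : b ≤ b * H1 := by nlinarith
  rcases hz with hz | hz
  · -- `g = b x1'`
    have h1 : x1' ^ 2 = 1 := by
      have e1 : g = b * x1' := by linarith
      have e2 : x1 = b * g - x1' := by linarith
      rw [e2] at hN
      rw [e1] at hN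
      linarith
    have h2 : x1' = 1 := by nlinarith
    rw [h2, mul_one] at hz hK
    have hgb : g = b := by linarith
    have hx : x1 = b ^ 2 - 1 := by
      rw [h2, hgb] at hs
      linarith
    rcases hb with hb | hb
    · exfalso
      rw [hx, hb] at hx1
      norm_num at hx1
    rcases h1s with h1s | h1s
    · by_cases hX : 2 ≤ (μ * H2) ^ 2
      · left
        apply fin
        rw [hK, h1s, hgb]
        refine hw (b + 1) (by linarith) ?_
        rw [hT, h1s]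
        obtain ⟨r, hr⟩ : ∃ r, r = Real.sqrt 2 := ⟨_, rfl⟩
        have hr2 : r ^ 2 = 2 := by rw [hr]; exact Real.sq_sqrt (by norm_num)
        have hr0 : 0 ≤ r := by rw [hr]; exact Real.sqrt_nonneg _
        have g1 : r ≤ b := by
          by_contra h
          nlinarith [hb.2]
        have g2 : r ≤ μ * H2 := by
          by_contra h
          nlinarith
        have g3 : 1 ≤ r := by
          by_contra h
          nlinarith
        have g4 : (r - 1) * (r + 1) ≤ (μ * H2 - 1) * (b + 1) :=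
          mul_le_mul (by linarith) (by linarith) (by linarith) (by linarith)
        nlinarith
      · right
        have h3 : μ = 1 := by
          rcases hμ with h | h
          · exact h
          · exfalso
            have : 2 * 1 ≤ μ ^ 2 * H2 ^ 2 := mul_le_mul h.2 (one_le_pow₀ H21) (by norm_num) (by positivity)
            apply hX
            rw [mul_pow]
            linarith
        have h4 : H2 = 1 := by
          rcases h2s with h | h
          · exact h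
          · exfalso
            have : 1 * 2 ≤ μ ^ 2 * H2 ^ 2 := mul_le_mul (one_le_pow₀ m1) h.2 (by norm_num) (by positivity)
            apply hX
            rw [mul_pow]
            linarith
        exact ⟨h3, h1s, h4, hgb, hx⟩
    · left
      apply fin
      rw [hK, hgb]
      have h3 : t1 * (b * H1) ≤ 1 := by
        have : t1 * (b * H1) ≤ t1 * (T - 1) := mul_le_mul_of_nonneg_left (by rw [hT]; linarith) ht.le
        linarith
      have h4 : t1 * (b + 1) * H1 ≤ 2 := by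
        have h5 : t1 * H1 * 1 ≤ t1 * H1 * b := mul_le_mul_of_nonneg_left b1 (by positivity)
        linarith
      have h5 : t1 * (b + 1) * H1 ≤ H1 * H1 := by linarith [h1s.2]
      exact le_of_mul_le_mul_right h5 (by linarith)
  · left
    apply fin
    have h1 : t1 * b ≤ 1 := by
      have : t1 * b ≤ t1 * (T - 1) := mul_le_mul_of_nonneg_left (by rw [hT]; linarith) ht.le
      linarith
    have h2 : t1 * (g + 1) ≤ t1 * (b * x1') := mul_le_mul_of_nonneg_left (by linarith) ht.le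
    have h3 : t1 * b * x1' ≤ 1 * x1' := mul_le_mul_of_nonneg_right h1 (by linarith)
    have h4 : 1 * x1' ≤ H1 * x1' := mul_le_mul_of_nonneg_right H11 (by linarith)
    rw [hK]
    linarith

end Pool.Agent.Helper18.DY
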