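import Mathlib

/-!
# NG, index `k ≥ 2` at `h`: real inequalities, `j = 3` and `j ≥ 4` (MP_d13a5e_al)
-/

set_option autoImplicit false

namespace Pool.Agent.Helper18.DY

theorem strip_aux {T U μ r : ℝ} (hμ1 : 1 ≤ μ) (hμ : 2 ≤ μ ^ 2) (hU : 1 ≤ U) (hr0 : 0 < r)
    (hμr : μ * r ≤ 1) (hTμ : 1 + μ ≤ T) (hTr : 1 ≤ T * r) :
    0 ≤ (U + μ ^ 2 * r) * (U + (μ ^ 2 - μ - 3) * r) + (μ + 2) * (T * r - 1) := by
  have hμμ : μ ≤ μ ^ 2 := by nlinarith only [hμ]
  have hμ2 : μ ^ 2 * r ≤ μ := by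
    have h := mul_le_mul_of_nonneg_left hμr (by linarith only [hμ1] : 0 ≤ μ)
    have e : μ * (μ * r) = μ ^ 2 * r := by ring
    linarith only [h]
  rcases le_total 0 (U + (μ ^ 2 - μ - 3) * r) with h | h
  · have h0 : 0 ≤ μ ^ 2 * r := by positivity
    have h5 := mul_nonneg (by linarith only [hU, h0] : 0 ≤ U + μ ^ 2 * r) h
    have h6 := mul_nonneg (by linarith only [hμ2, h0] : 0 ≤ μ + 2) (by linarith only [hTr] : 0 ≤ T * r - 1)
    linarith only [h5, h6]
  · obtain ⟨ν, hν⟩ : ∃ ν, ν = 3 + μ - μ ^ 2 := ⟨_, rfl⟩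
    have e2 : U + (μ ^ 2 - μ - 3) * r = U - ν * r := by
      rw [hν]
      ring
    rw [e2] at h ⊢
    have hνr : 1 ≤ ν * r := by linarith only [hU, h]
    have h5 : (1 + μ) * r ≤ T * r := mul_le_mul_of_nonneg_right hTμ hr0.le
    have h6 : ν * r ≤ (1 + μ) * r := mul_le_mul_of_nonneg_right (by rw [hν]; linarith only [hμ]) hr0.le
    have h9 : (μ + 2) * (ν * r - 1) ≤ (μ + 2) * (T * r - 1) :=
      mul_le_mul_of_nonneg_left (by linarith only [h5, h6]) (by linarith only [hμ1])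
    have h10 : 0 ≤ (ν * r - 1) * (μ + 2 - (1 + μ ^ 2 * r)) := mul_nonneg (by linarith only [hνr]) (by linarith only [hμ2])
    have h11 : 0 ≤ (U - 1) * (U + 1 + (μ ^ 2 - ν) * r) := by
      refine mul_nonneg (by linarith only [hU]) ?_
      have h12 : -(1 : ℝ) ≤ μ ^ 2 - ν := by
        rw [hν]
        linarith only [hμ, hμμ]
      have h13 := mul_le_mul_of_nonneg_right h12 hr0.le
      have h14 := mul_le_mul_of_nonneg_right hμ1 hr0.le
      linarith only [hU, hμr, h13, h14]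
    nlinarith only [h9, h10, h11]

/-- `j = 3`, the strip `e μ η > β`; the claim is multiplied by `μ + 1` -/
theorem j3strip {g η β e T U t1 κ μ c2 H2 e3 : ℝ} (hμ0 : 0 < μ) (hμ : 2 ≤ μ ^ 2) (hU : 1 ≤ U)
    (hTU : T = U + c2 * μ) (hT : 1 + μ * H2 ≤ T) (hH2 : 1 ≤ H2) (hη : 0 < η)
    (hκβ : μ * κ * η ≤ β) (hβe : β < e * (μ * η)) (he0 : 0 < e) (he1 : e ≤ 1) (hee : e ^ 2 + 1 = T * e)
    (ht1 : t1 ≤ κ) (hκT : 1 ≤ κ * T) (he3 : e3 = μ * β + U * η - g)
    (hN : g * e3 = β ^ 2 + η ^ 2 - c2 * β * η - 1) (he31 : 1 ≤ e3) (he3g : e3 ≤ g) :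
    (μ + 1) * (1 + t1 * η) ≤ g + β := by
  have hμ1 : 7 / 5 ≤ μ := by nlinarith only [hμ0, hμ]
  have hμη : 0 < μ * η := mul_pos hμ0 hη
  obtain ⟨r, hr⟩ : ∃ r, r = β / (μ * η) := ⟨_, rfl⟩
  have hβ : β = r * (μ * η) := by
    rw [hr]
    field_simp
  have hκr : κ ≤ r := by
    have : κ * (μ * η) ≤ r * (μ * η) := by
      rw [← hβ]
      linarith only [hκβ]
    exact le_of_mul_le_mul_right this hμη
  have hre : r < e := by
    rw [hβ] at hβe
    exact lt_of_mul_lt_mul_right hβe hμη.le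
  have hTμ : 1 + μ ≤ T := by nlinarith only [hμ0, hT, hH2]
  have hT0 : 0 < T := by linarith only [hμ1, hTμ]
  have hTr : 1 ≤ T * r := by
    have := mul_le_mul_of_nonneg_right hκr hT0.le
    linarith only [hκT, this]
  have hr0 : 0 < r := by
    by_contra h
    have := mul_nonpos_of_nonneg_of_nonpos hT0.le (not_lt.1 h)
    linarith
  -- `μ e ≤ 1`
  have hμe : μ * e ≤ 1 := by
    have h1 : (1 + μ) * e ≤ T * e := mul_le_mul_of_nonneg_right hTμ he0.le
    have h2 : 0 ≤ e * (1 - e) := mul_nonneg he0.le (by linarith only [he1])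
    nlinarith only [hT, hH2, he0, he1, hee]
  have hμr : μ * r ≤ 1 := by
    have := mul_le_mul_of_nonneg_left hre.le hμ0.le
    linarith only [hμe, this]
  have hr1 : r ≤ 1 := by linarith
  -- `1 - T r + r ^ 2 ≥ 0`
  have hrq : 0 ≤ 1 - T * r + r ^ 2 := by
    have h1 : e * (1 - T * r + r ^ 2) = (e - r) * (1 - e * r) := by
      linear_combination r * hee
    have h2 : 0 ≤ (e - r) * (1 - e * r) := by
      have : e * r ≤ 1 * 1 := mul_le_mul he1 hr1 hr0.le (by norm_num)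
      exact mul_nonneg (by linarith only [hre]) (by linarith only [this])
    by_contra h
    have := mul_neg_of_pos_of_neg he0 (not_le.1 h)
    linarith only [h1, h2, this]
  obtain ⟨U0, hU0⟩ : ∃ U0, U0 = U + μ ^ 2 * r := ⟨_, rfl⟩
  obtain ⟨R0, hR0⟩ : ∃ R0, R0 = 1 - c2 * μ * r + μ ^ 2 * r ^ 2 := ⟨_, rfl⟩
  have hU0r : 1 + 2 * r ≤ U0 := by
    rw [hU0]
    have := mul_le_mul_of_nonneg_right hμ hr0.le
    linarith only [hU, this]
  have hRU : R0 = r * U0 - (T * r - 1) := by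
    rw [hR0, hU0, hTU]
    ring
  have hsum : e3 + g = U0 * η := by
    rw [he3, hβ, hU0]
    ring
  have hprod : g * e3 = R0 * η ^ 2 - 1 := by
    rw [hN, hβ, hR0]
    ring
  have h1 : U0 * η ≤ R0 * η ^ 2 := by
    have h2 := mul_nonneg (by linarith only [he31, he3g] : 0 ≤ g - 1) (by linarith only [he31] : 0 ≤ e3 - 1)
    nlinarith only [hsum, hprod, h2]
  have h2 : U0 ≤ R0 * η := by
    have : U0 * η ≤ R0 * η * η := by
      have e1 : R0 * η * η = R0 * η ^ 2 := by ring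
      rw [e1]
      exact h1
    exact le_of_mul_le_mul_right this hη
  have hR00 : 0 < R0 := by
    by_contra h
    have := mul_nonpos_of_nonpos_of_nonneg (not_lt.1 h) hη.le
    linarith
  -- `U0 ^ 2 ≥ 4 R0`
  have hdisc : 4 * R0 ≤ U0 ^ 2 := by
    have hr57 : r ≤ 5 / 7 := by
      have := mul_le_mul_of_nonneg_right hμ1 hr0.le
      linarith only [hμr, this]
    have h3 : 3 / 4 ≤ T * r - r ^ 2 := by
      rcases le_total r (1 / 2) with h | h
      · have h4 : 0 ≤ (1 / 2 - r) * (1 / 2 + r) := mul_nonneg (by linarith only [h]) (by linarith only [hr0])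
        linarith only [hTr, h4]
      · have h4 : 0 ≤ (r - 1 / 2) * (T - r) := mul_nonneg (by linarith only [h]) (by linarith only [hμ1, hTμ, hr1])
        linarith only [hμ1, hTμ, hr57, h4]
    have h4 : 1 ≤ (U0 - 2 * r) ^ 2 := one_le_pow₀ (by linarith only [hU0r])
    rw [hRU]
    linarith only [h3, h4]
  obtain ⟨η0, hη0⟩ : ∃ η0, η0 = U0 / R0 := ⟨_, rfl⟩
  have hRη : R0 * η0 = U0 := by
    rw [hη0]
    field_simp
  have hη00 : 0 < η0 := by
    rw [hη0]
    exact div_pos (by linarith only [hr0, hU0r]) hR00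
  have hη1 : η0 ≤ η := by
    have : R0 * η0 ≤ R0 * η := by
      rw [hRη]
      exact h2
    exact le_of_mul_le_mul_left this hR00
  -- `D = g - e3 ≥ U0 η0 - 2`
  have hD : U0 * η0 - 2 ≤ g - e3 := by
    have h3 : (U0 * η0 - 2) ^ 2 ≤ (g - e3) ^ 2 := by
      have e1 : (g - e3) ^ 2 = (U0 ^ 2 - 4 * R0) * η ^ 2 + 4 := by
        have : (g - e3) ^ 2 = (e3 + g) ^ 2 - 4 * (g * e3) := by ring
        rw [this, hsum, hprod]
        ring
      have e2 : (U0 * η0 - 2) ^ 2 = (U0 ^ 2 - 4 * R0) * η0 ^ 2 + 4 := by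
        linear_combination (4 * η0) * hRη
      rw [e1, e2]
      have h4 : η0 ^ 2 ≤ η ^ 2 := pow_le_pow_left₀ hη00.le hη1 2
      have := mul_le_mul_of_nonneg_left h4 (by linarith only [hdisc] : 0 ≤ U0 ^ 2 - 4 * R0)
      linarith only [this]
    exact abs_le_of_sq_le_sq' h3 (by linarith only [he3g]) |>.2
  obtain ⟨δ, hδ⟩ : ∃ δ, δ = (μ + 1) * t1 - μ * r := ⟨_, rfl⟩
  have hδr : δ ≤ r := by
    rw [hδ]
    have := mul_le_mul_of_nonneg_left (le_trans ht1 hκr) (by linarith only [hμ1] : 0 ≤ μ + 1)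
    linarith
  -- the inequality at `η0`
  have hiii : (μ + 2) * R0 ≤ U0 * (U0 - δ) := by
    have e1 : U0 * (U0 - δ) - (μ + 2) * R0 =
        U0 * (U0 - δ - (μ + 2) * r) + (μ + 2) * (T * r - 1) := by
      rw [hRU]
      ring
    have h3 : U + (μ ^ 2 - μ - 3) * r ≤ U0 - δ - (μ + 2) * r := by
      rw [hU0]
      linarith only [hδr]
    have h4 : 0 ≤ U0 * (U + (μ ^ 2 - μ - 3) * r) + (μ + 2) * (T * r - 1) := by
      rw [hU0]
      exact strip_aux (by linarith only [hμ1]) hμ hU hr0 hμr hTμ hTr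
    have h5 := mul_le_mul_of_nonneg_left h3 (by linarith only [hr0, hU0r] : 0 ≤ U0)
    linarith only [e1, h4, h5]
  have h3 : μ + 2 ≤ (U0 - δ) * η0 := by
    have h4 : R0 * (μ + 2) ≤ R0 * ((U0 - δ) * η0) := by
      have e1 : R0 * ((U0 - δ) * η0) = U0 * (U0 - δ) := by
        linear_combination (U0 - δ) * hRη
      rw [e1]
      linarith only [hiii]
    exact le_of_mul_le_mul_left h4 hR00
  have h4 : 0 ≤ (U0 / 2 - δ) * (η - η0) := mul_nonneg (by linarith only [hU0r, hδr]) (by linarith only [hη1])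
  have e1 : (μ + 1) * (1 + t1 * η) = μ + 1 + δ * η + β := by
    rw [hδ, hβ]
    ring
  rw [e1]
  have e2 : 2 * g = U0 * η + (g - e3) := by linarith only [hsum]
  nlinarith only [hD, h3, h4, e2]

end Pool.Agent.Helper18.DY
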