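import Pool.Agent.Helper18.DY.NGiA

/-!
# NG, index `k ≥ 2` at `h`: real inequalities, `j ≥ 4` (MP_d13a5e_al)

`κ` bounds `-φ h`, `κ'` bounds `-φ d2` from below: `κ η + κ' ζ ≤ g`.
-/

set_option autoImplicit false

namespace Pool.Agent.Helper18.DY

/-- `m ≥ 1`, `i = 3`, `K_3 < 0` -/
theorem g4m {g η ζ K T t1 t2 μ κ' b H1 H2 m y β : ℝ} (hg : 1 ≤ g) (hT : T = b * H1 + μ * H2) (hb : 1 ≤ b)
    (hH1 : 1 ≤ H1) (hH2 : 1 ≤ H2) (hm : 1 ≤ m) (nh : H1 ^ 2 = 1 + H2 * m) (hμ : μ + 1 ≤ μ ^ 2)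
    (hμ1 : 1 ≤ μ) (ht2 : t2 ≤ 1) (hκμ : 1 ≤ μ * κ') (hK : K = T * g - η - H2 * ζ)
    (hF1 : η ≤ T * (g - κ' * ζ)) (hζ : 0 < ζ) (hK1 : 1 ≤ K) (h3 : T * K ≤ g)
    (hN : g ^ 2 - 1 = η * y + ζ * β) (hy : y = K + m * ζ) (hβ : β = μ * g - ζ)
    (ht : t1 * (T + 1) = 1) : 1 ≤ g - t1 * η - t2 * ζ := by
  have hH12 : 1 ≤ H1 ^ 2 := one_le_pow₀ hH1
  have hTl : H1 + μ * H2 ≤ T := by
    rw [hT]
    nlinarith only [hb, hH1]
  have hμH : 1 ≤ μ * H2 := one_le_mul_of_one_le_of_one_le hμ1 hH2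
  have hT2 : 2 ≤ T := by linarith only [hH1, hTl, hμH]
  obtain ⟨G, hG⟩ : ∃ G, G = T * K + (T * m + μ) * ζ - g := ⟨_, rfl⟩
  obtain ⟨C, hC⟩ : ∃ C, C = μ + m * T + H2 - (T + 1) * t2 := ⟨_, rfl⟩
  have hη : η = T * g - K - H2 * ζ := by linarith only [hK]
  have hgG : g * G = K ^ 2 + (H2 + m) * K * ζ + H1 ^ 2 * ζ ^ 2 - 1 := by
    rw [hG, nh]
    rw [hη, hy, hβ] at hN
    linear_combination (-1) * hN
  -- `W ζ ≤ K`
  have hκ0 : 0 < κ' := by
    by_contra h
    have := mul_nonpos_of_nonneg_of_nonpos (by linarith only [hμ1] : 0 ≤ μ) (not_lt.1 h)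
    linarith only [hκμ, this]
  have hWK : (T * κ' - H2) * ζ ≤ K := by
    rw [hK]
    linarith only [hF1]
  have hW : H1 ≤ μ * (T * κ' - H2) := by
    have e1 : μ * (T * κ' - H2) = b * H1 * (μ * κ') + μ * H2 * (μ * κ' - 1) := by
      rw [hT]
      ring
    rw [e1]
    have k1 : H1 * 1 ≤ b * H1 * (μ * κ') := mul_le_mul (by nlinarith only [hb, hH1]) hκμ (by norm_num) (by positivity)
    have k2 : 0 ≤ μ * H2 * (μ * κ' - 1) := mul_nonneg (by positivity) (by linarith only [hκμ])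
    linarith only [k1, k2]
  have hHζ : H1 * ζ ≤ μ * K := by
    have k1 := mul_le_mul_of_nonneg_right hW hζ.le
    have k2 := mul_le_mul_of_nonneg_left hWK (by linarith only [hμ1] : 0 ≤ μ)
    linarith only [k1, k2]
  have hH1ζ : H1 ^ 2 * ζ ^ 2 ≤ H1 * μ * K * ζ := by
    have := mul_le_mul_of_nonneg_left hHζ (by positivity : 0 ≤ H1 * ζ)
    nlinarith only [this]
  have hCl : μ - 1 + H2 + (m - 1) * T ≤ C := by
    rw [hC]
    have := mul_le_mul_of_nonneg_left ht2 (by linarith only [hT2] : 0 ≤ T + 1)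
    linarith only [this]
  have hTC : H2 + m + H1 * μ ≤ T * C := by
    have k0 : 0 ≤ (m - 1) * T := mul_nonneg (by linarith only [hm]) (by linarith only [hT2])
    have k1 : T * (μ - 1 + H2 + (m - 1) * T) ≤ T * C := mul_le_mul_of_nonneg_left hCl (by linarith only [hT2])
    have k2 : (m - 1) * 1 ≤ (m - 1) * (T * T) :=
      mul_le_mul_of_nonneg_left (by nlinarith only [hT2]) (by linarith only [hm])
    have k3 : (H1 + μ * H2) * (μ - 1 + H2) ≤ T * (μ - 1 + H2) :=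
      mul_le_mul_of_nonneg_right hTl (by linarith only [hH2, hμ1])
    have k4 : H1 * μ ≤ H1 * (μ - 1 + H2) := mul_le_mul_of_nonneg_left (by linarith only [hH2]) (by linarith only [hH1])
    have k5 : μ * H2 * μ ≤ μ * H2 * (μ - 1 + H2) := mul_le_mul_of_nonneg_left (by linarith only [hH2]) (by linarith only [hμH])
    have k6 : (μ + 1) * H2 ≤ μ ^ 2 * H2 := mul_le_mul_of_nonneg_right hμ (by linarith only [hH2])
    nlinarith only [hμH, k1, k2, k3, k4, k5, k6]
  have hC0 : 0 ≤ C := by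
    have k0 : 0 ≤ (m - 1) * T := mul_nonneg (by linarith only [hm]) (by linarith only [hT2])
    linarith only [hH2, hμ1, hCl, k0]
  have hbr : 0 ≤ (T + 1) * (K - 1) + C * ζ := by
    have k1 : 0 ≤ (T + 1) * (K - 1) := mul_nonneg (by linarith only [hT2]) (by linarith only [hK1])
    have k2 : 0 ≤ C * ζ := mul_nonneg hC0 hζ.le
    linarith only [k1, k2]
  have hmain : g * G ≤ g * ((T + 1) * (K - 1) + C * ζ) := by
    have k1 : T * K * ((T + 1) * (K - 1) + C * ζ) ≤ g * ((T + 1) * (K - 1) + C * ζ) :=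
      mul_le_mul_of_nonneg_right h3 hbr
    have k2 : (K + 1) * (K - 1) ≤ T * (T + 1) * K * (K - 1) := by
      refine mul_le_mul_of_nonneg_right ?_ (by linarith only [hK1])
      have : 2 * K ≤ T * (T + 1) * K := mul_le_mul_of_nonneg_right (by nlinarith only [hT2]) (by linarith only [hK1])
      linarith only [hK1, this]
    have k3 : (H2 + m + H1 * μ) * (K * ζ) ≤ T * C * (K * ζ) :=
      mul_le_mul_of_nonneg_right hTC (by positivity)
    rw [hgG]
    linarith only [hH1ζ, k1, k2, k3]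
  have hG1 := le_of_mul_le_mul_left hmain (by linarith only [hg])
  have hfin : (T + 1) * 1 ≤ (T + 1) * (g - t1 * η - t2 * ζ) := by
    have e1 : (T + 1) * (g - t1 * η - t2 * ζ) = (T + 1) * g - η - (T + 1) * t2 * ζ := by
      linear_combination (-η) * ht
    rw [e1, hη]
    rw [hG, hC] at hG1
    linarith only [hG1]
  exact le_of_mul_le_mul_left hfin (by linarith only [hT2])

/-- `m = 0`, `i = 3`, `y < t1 g` -/
theorem g4s {g η ζ y T t1 t2 μ κ' b H2 β G : ℝ} (hg : 1 ≤ g) (hT : T = b + μ * H2) (hb : 1 ≤ b)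
    (hH2 : 1 ≤ H2) (hμ1 : 1 ≤ μ) (ht2 : 0 ≤ t2) (ht2κ : t2 ≤ κ') (ht2μ : 1 ≤ μ * t2)
    (hκt : 1 ≤ κ' * (μ - t2)) (hK : y = T * g - η - H2 * ζ) (hF1 : η ≤ T * (g - κ' * ζ)) (hζ : 1 ≤ ζ)
    (hy1 : 1 ≤ y) (h3 : (T + 1) * y < g) (hG : G = T * y + μ * ζ - g) (hGz : G = 0 ∨ 1 ≤ G)
    (hN : g ^ 2 - 1 = η * y + ζ * β) (hβ : β = μ * g - ζ)
    (ht : t1 * (T + 1) = 1) : 1 ≤ g - t1 * η - t2 * ζ := by
  have hμH : 1 ≤ μ * H2 := one_le_mul_of_one_le_of_one_le hμ1 hH2
  have hT1 : 1 + μ ≤ T := by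
    rw [hT]
    nlinarith only [hb, hH2, hμ1]
  have hκ0 : 0 < κ' := by
    by_contra h
    have : μ * t2 ≤ 0 := mul_nonpos_of_nonneg_of_nonpos (by linarith only [hμ1]) (by linarith only [ht2κ, h])
    linarith only [ht2μ, this]
  have hgG : g * G = y ^ 2 + H2 * y * ζ + ζ ^ 2 - 1 := by
    rw [hG]
    have hη : η = T * g - y - H2 * ζ := by linarith only [hK]
    rw [hη, hβ] at hN
    linear_combination (-1) * hN
  have hHyζ : 1 ≤ H2 * y * ζ := one_le_mul_of_one_le_of_one_le (one_le_mul_of_one_le_of_one_le hH2 hy1) hζ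
  have hG1 : 1 ≤ G := by
    rcases hGz with h | h
    · exfalso
      rw [h, mul_zero] at hgG
      nlinarith only [hy1, hgG, hHyζ]
    · exact h
  have hWy : (T * κ' - H2) * ζ ≤ y := by
    rw [hK]
    linarith
  -- (I'')
  have hI : (T + 1) * (H2 + t2) ≤ κ' * (T ^ 2 + T - 1) := by
    have k1 : κ' * t2 ≤ μ * κ' - 1 := by linarith only [hκt]
    have k2 : κ' + κ' * t2 ≤ T * κ' - H2 := by
      have e1 : T * κ' - H2 = b * κ' + H2 * (μ * κ' - 1) := by
        rw [hT]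
        ring
      have k3 : 0 ≤ μ * κ' - 1 := by
        have := mul_nonneg hκ0.le ht2
        linarith only [k1, this]
      have k4 : μ * κ' - 1 ≤ H2 * (μ * κ' - 1) := by nlinarith only [hH2, k3]
      have k5 : κ' ≤ b * κ' := by nlinarith only [hb, ht2, ht2κ]
      rw [e1]
      linarith only [k1, k4, k5]
    have k3 : 1 ≤ (T + 1) * t2 := by
      have : μ * t2 ≤ (T + 1) * t2 := mul_le_mul_of_nonneg_right (by linarith only [hT1]) ht2
      linarith only [ht2μ, this]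
    have k4 : (T + 1) * (κ' + κ' * t2) ≤ (T + 1) * (T * κ' - H2) :=
      mul_le_mul_of_nonneg_left k2 (by linarith only [hμ1, hT1])
    have k5 : (T + 1) * t2 ≤ (T + 1) * κ' := mul_le_mul_of_nonneg_left ht2κ (by linarith only [hμ1, hT1])
    have k6 : κ' * 1 ≤ κ' * ((T + 1) * t2) := mul_le_mul_of_nonneg_left k3 hκ0.le
    linarith only [k4, k5, k6]
  have hκμ : 1 ≤ μ * κ' := by
    have := mul_le_mul_of_nonneg_left ht2κ (by linarith only [hμ1] : 0 ≤ μ)
    linarith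
  -- `(T + 2) y + H2 ζ ≥ (T + 1) (1 + t2 ζ)`
  have hmain : (T + 1) * (1 + t2 * ζ) ≤ (T + 2) * y + H2 * ζ := by
    rcases le_total 1 (κ' * ζ) with h | h
    · have k1 : (T + 2) * ((T * κ' - H2) * ζ) ≤ (T + 2) * y := mul_le_mul_of_nonneg_left hWy (by linarith only [hμ1, hT1])
      have k2 := mul_le_mul_of_nonneg_right hI (by linarith only [hζ] : 0 ≤ ζ)
      have k3 := mul_le_mul_of_nonneg_left h (by linarith only [hμ1, hT1] : 0 ≤ T + 1)
      linarith only [k1, k2, k3]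
    · have hζμ : ζ ≤ μ := by
        have k1 := mul_le_mul_of_nonneg_right hκμ (by linarith only [hζ] : 0 ≤ ζ)
        have k2 := mul_le_mul_of_nonneg_left h (by linarith only [hμ1] : 0 ≤ μ)
        linarith only [k1, k2]
      have hyT : T - H2 * ζ ≤ y := by
        have k1 : 0 ≤ (g - 1) * (G - 1) := mul_nonneg (by linarith only [hg]) (by linarith only [hG1])
        have k2 : g + G = T * y + μ * ζ := by
          rw [hG]
          ring
        have k3 : 0 ≤ ζ * (μ - ζ) := mul_nonneg (by linarith only [hζ]) (by linarith only [hζμ])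
        by_contra h5
        have k4 : y * (y + H2 * ζ - T) < 0 := mul_neg_of_pos_of_neg (by linarith only [hy1]) (by linarith only [h5])
        nlinarith only [hgG, k1, k2, k3, k4]
      have k1 : (T + 2) * (T - H2 * ζ) ≤ (T + 2) * y := mul_le_mul_of_nonneg_left hyT (by linarith only [hζ, hT1, hζμ])
      -- linear in `ζ`: `((T + 1) (H2 + t2)) ζ ≤ κ' (T ^ 2 + T - 1) ζ ≤ T ^ 2 + T - 1`
      have k2 := mul_le_mul_of_nonneg_right hI (by linarith only [hζ] : 0 ≤ ζ)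
      have k3 : (κ' * ζ) * (T ^ 2 + T - 1) ≤ 1 * (T ^ 2 + T - 1) :=
        mul_le_mul_of_nonneg_right h (by nlinarith only [hT1, hκ0, hκμ])
      linarith only [k1, k2, k3]
  have hη : η = T * g - y - H2 * ζ := by linarith only [hK]
  have hfin : (T + 1) * 1 ≤ (T + 1) * (g - t1 * η - t2 * ζ) := by
    have e1 : (T + 1) * (g - t1 * η - t2 * ζ) = (T + 1) * g - η - (T + 1) * t2 * ζ := by
      linear_combination (-η) * ht
    rw [e1, hη]
    linarith only [h3, hmain]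
  exact le_of_mul_le_mul_left hfin (by linarith only [hμ1, hT1])

/-- the inequality (I') -/
theorem ineqI {b H μ t1 t2 κ' : ℝ} (hb : 1 ≤ b) (hH : 1 ≤ H) (hμ : μ + 1 ≤ μ ^ 2) (hμ1 : 8 / 5 ≤ μ)
    (ht1 : t1 * (μ * H) ≤ 1) (ht2 : 1 ≤ μ * t2) (ht21 : t2 ≤ 1) (hκ : μ * κ' ≤ (μ + 1) * t2) :
    1 + b * κ' + H * (μ * κ' - 1) ≤ (b - t1 + H * t2) * (b + μ - 1 / 2 + H * t2) := by
  have hμ0 : 0 < μ := by linarith only [hμ1]
  obtain ⟨p, hp⟩ : ∃ p, p = 1 / μ := ⟨_, rfl⟩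
  have hpμ : p * μ = 1 := by
    rw [hp]
    field_simp
  have hp0 : 0 < p := by
    rw [hp]
    positivity
  have ht20 : 0 < t2 := by
    by_contra h
    have := mul_nonpos_of_nonneg_of_nonpos hμ0.le (not_lt.1 h)
    linarith only [ht2, this]
  have hpt : p ≤ t2 := by
    have : μ * p ≤ μ * t2 := by linarith only [ht2, hpμ]
    exact le_of_mul_le_mul_left this hμ0
  -- `t1 ≤ p`
  have ht1p : t1 ≤ p := by
    have h1 : t1 * μ ≤ 1 := by
      rcases le_total t1 0 with h | h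
      · have := mul_nonpos_of_nonpos_of_nonneg h hμ0.le
        linarith only [this]
      · have := mul_le_mul_of_nonneg_left hH (by positivity : 0 ≤ t1 * μ)
        linarith only [ht1, this]
    have : t1 * μ ≤ p * μ := by linarith only [hpμ, h1]
    exact le_of_mul_le_mul_right this hμ0
  -- `κ' ≤ (1 + p) t2`
  have hκt : κ' ≤ (1 + p) * t2 := by
    have : μ * κ' ≤ μ * ((1 + p) * t2) := by
      have e1 : μ * ((1 + p) * t2) = (μ + p * μ) * t2 := by ring
      rw [e1, hpμ]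
      exact hκ
    exact le_of_mul_le_mul_left this hμ0
  have hp1 : p ≤ 5 / 8 := by
    have : p * (8 / 5) ≤ p * μ := mul_le_mul_of_nonneg_left hμ1 hp0.le
    linarith only [hpμ, this]
  obtain ⟨c, hc⟩ : ∃ c, c = b - 1 := ⟨_, rfl⟩
  obtain ⟨d, hd⟩ : ∃ d, d = H - 1 := ⟨_, rfl⟩
  have hb' : b = 1 + c := by linarith only [hc]
  have hH' : H = 1 + d := by linarith only [hd]
  have hc0 : 0 ≤ c := by linarith only [hb, hb']
  have hd0 : 0 ≤ d := by linarith
  -- the core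
  have core : (μ + 1) * κ' ≤ (1 - p + t2) * (μ + 1 / 2 + t2) := by
    have k1 : (μ + 1) * κ' ≤ (μ + 1) * ((1 + p) * t2) := mul_le_mul_of_nonneg_left hκt (by linarith only [hμ0])
    have k2 : (μ + 1) * ((1 + p) * t2) ≤ (1 - p + t2) * (μ + 1 / 2 + t2) := by
      -- times `μ`
      have k3 : μ * ((μ + 1) * ((1 + p) * t2)) ≤ μ * ((1 - p + t2) * (μ + 1 / 2 + t2)) := by
        have e1 : μ * ((μ + 1) * ((1 + p) * t2)) = (μ + 1) ^ 2 * t2 := by
          linear_combination ((μ + 1) * t2) * hpμ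
        have e2 : μ * ((1 - p + t2) * (μ + 1 / 2 + t2)) = (μ - 1 + μ * t2) * (μ + 1 / 2 + t2) := by
          linear_combination (-(μ + 1 / 2 + t2)) * hpμ
        rw [e1, e2]
        have k4 : 0 ≤ 4 * μ * ((μ - 1) * (μ + 1 / 2)) - (μ / 2 + 2) ^ 2 := by
          nlinarith only [hμ, hμ1]
        have k5 : 0 ≤ (2 * μ * t2 - (μ / 2 + 2)) ^ 2 := sq_nonneg _
        have k6 : 0 ≤ 4 * μ * ((μ - 1 + μ * t2) * (μ + 1 / 2 + t2) - (μ + 1) ^ 2 * t2) := by
          linarith only [k4, k5]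
        have k7 : 0 ≤ (μ - 1 + μ * t2) * (μ + 1 / 2 + t2) - (μ + 1) ^ 2 * t2 :=
          (mul_nonneg_iff_of_pos_left (by positivity)).1 k6
        linarith only [k7]
      exact le_of_mul_le_mul_left k3 hμ0
    linarith only [k1, k2]
  have hκ2 : κ' ≤ 13 / 8 := by
    have : (1 + p) * t2 ≤ (1 + 5 / 8) * 1 := mul_le_mul (by linarith only [hp1]) ht21 ht20.le (by norm_num)
    linarith
  -- increments
  have A0 : 0 ≤ 1 - p + t2 := by linarith only [hpt]
  have hA : 1 - p + t2 + c + d * t2 ≤ b - t1 + H * t2 := by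
    rw [hb', hH']
    linarith only [ht1p]
  have hB : b + μ - 1 / 2 + H * t2 = μ + 1 / 2 + t2 + c + d * t2 := by
    rw [hb', hH']
    ring
  rw [hB]
  have hdt : 0 ≤ d * t2 := mul_nonneg hd0 ht20.le
  have h1 : (1 - p + t2 + c + d * t2) * (μ + 1 / 2 + t2 + c + d * t2) ≤
      (b - t1 + H * t2) * (μ + 1 / 2 + t2 + c + d * t2) :=
    mul_le_mul_of_nonneg_right hA (by linarith only [hμ0, ht20, hc0, hdt])
  refine le_trans ?_ h1
  have e1 : (1 - p + t2 + c + d * t2) * (μ + 1 / 2 + t2 + c + d * t2) =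
      (1 - p + t2) * (μ + 1 / 2 + t2) + (c + d * t2) * (μ + 3 / 2 - p + 2 * t2) + (c + d * t2) ^ 2 := by
    ring
  rw [e1, hb', hH']
  have h2 : c * κ' ≤ c * (μ + 3 / 2 - p + 2 * t2) := mul_le_mul_of_nonneg_left (by linarith only [hμ1, ht20, hκ2, A0]) hc0
  have h3 : μ * κ' - 1 ≤ t2 * (μ + 3 / 2 - p + 2 * t2) := by
    have k1 : (μ + 1) * t2 ≤ t2 * (μ + 3 / 2 - p + 2 * t2) + 1 := by
      nlinarith only [ht20, hpt]
    linarith only [hκ, k1]
  have h4 := mul_le_mul_of_nonneg_left h3 hd0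
  have h5 := sq_nonneg (c + d * t2)
  linarith only [core, h2, h4, h5]

/-- `m = 0`, `y ≥ t1 g` -/
theorem g4z {g η ζ y T t1 t2 μ κ κ' b H β : ℝ} (hg : 1 ≤ g) (hT : T = b + μ * H) (hb : 1 ≤ b)
    (hH : 1 ≤ H) (hμ : μ + 1 ≤ μ ^ 2) (hμ1 : 8 / 5 ≤ μ) (ht10 : 0 < t1) (ht1κ : t1 ≤ κ)
    (hκT : 1 ≤ κ * T) (hκT1 : κ * (T - 1) ≤ 1) (ht2μ : 1 ≤ μ * t2) (ht2κ : t2 ≤ κ') (ht21 : t2 ≤ 1)
    (hμt : 1 + t2 ≤ μ) (hκ : μ * κ' ≤ (μ + 1) * t2) (hκt : 1 ≤ κ' * (μ - t2))
    (hF1 : κ * η + κ' * ζ ≤ g) (hη : 1 ≤ η) (hζ : 1 ≤ ζ) (hy1 : 1 ≤ y) (hyt : t1 * g ≤ y)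
    (hβ1 : 1 ≤ β) (hβ : β = μ * g - ζ) (hN : g ^ 2 - 1 = η * y + ζ * β)
    (hS : η + y = b * g + H * β) : 1 ≤ g - t1 * η - t2 * ζ := by
  have hμ0 : 0 < μ := by linarith only [hμ1]
  have hκ0 : 0 < κ := by linarith only [ht10, ht1κ]
  have ht20 : 0 < t2 := by
    by_contra h
    have := mul_nonpos_of_nonneg_of_nonpos hμ0.le (not_lt.1 h)
    linarith only [ht2μ, this]
  have hκ'0 : 0 < κ' := by linarith only [ht2κ, ht20]
  have hκμH : κ * (μ * H) ≤ 1 := by
    have : κ * (μ * H) ≤ κ * (T - 1) := mul_le_mul_of_nonneg_left (by rw [hT]; linarith only [hb]) hκ0.le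
    linarith only [hκT1, this]
  have hμH0 : 0 < μ * H := mul_pos hμ0 (by linarith only [hH])
  have ht1μH : t1 * (μ * H) ≤ 1 := by
    have := mul_le_mul_of_nonneg_right ht1κ hμH0.le
    linarith only [hκμH, this]
  have hb' : κ * η ≤ κ' * (β - t2 * g) := by
    rw [hβ]
    have := mul_le_mul_of_nonneg_right hκt (by linarith only [hg] : 0 ≤ g)
    linarith only [hF1, this]
  have hβt : t2 * g ≤ β := by
    have h1 : 0 ≤ κ * η := mul_nonneg hκ0.le (by linarith only [hη])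
    have h2 : 0 ≤ β - t2 * g := (mul_nonneg_iff_of_pos_left hκ'0).1 (by linarith only [hb', h1])
    linarith only [h2]
  rcases le_or_gt 1 (β - t2 * g) with h1 | h1
  · exact P2 hg hN hβ (by linarith only [hη]) hyt hζ h1 hμt
  rcases le_or_gt 1 (y - t1 * g) with h2 | h2
  · refine P1 (b := b) (H1 := 1) (H2 := H) (m := 0) hg hN (by linarith only [hS]) (by linarith only [hη]) (by linarith only [h2]) hβt
      (by linarith only [hζ]) le_rfl ?_
    have k1 : t1 * H ≤ t2 := by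
      have : μ * (t1 * H) ≤ μ * t2 := by linarith only [ht2μ, ht1μH]
      exact le_of_mul_le_mul_left this hμ0
    have k2 : t1 ≤ H * t2 := by
      have k3 : t1 ≤ t1 * H := by nlinarith only [hH, ht10]
      have k4 : t2 ≤ H * t2 := by nlinarith only [hH, hμ1, ht2μ]
      linarith only [k1, k3, k4]
    have k3 : t1 * g ≤ H * t2 * g := mul_le_mul_of_nonneg_right k2 (by linarith only [hg])
    have k4 : H * (t2 * g) ≤ H * β := mul_le_mul_of_nonneg_left hβt (by linarith only [hH])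
    have k5 : 1 * g ≤ b * g := mul_le_mul_of_nonneg_right hb (by linarith only [hg])
    linarith only [k3, k4, k5]
  exfalso
  obtain ⟨A, hA⟩ : ∃ A, A = b - t1 + H * t2 := ⟨_, rfl⟩
  have hκH : 0 ≤ κ' - H * κ := by
    have k1 : 1 ≤ μ * κ' := by
      have := mul_le_mul_of_nonneg_left ht2κ hμ0.le
      linarith only [ht2μ, this]
    have : μ * (H * κ) ≤ μ * κ' := by linarith only [hκμH, k1]
    have := le_of_mul_le_mul_left this hμ0
    linarith only [this]
  have hA0 : 0 < A := by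
    rw [hA]
    have k1 : 0 ≤ H * t2 - t2 := by nlinarith only [hH, hμ1, ht2μ]
    have k2 : t1 * μ ≤ 1 := by
      have : t1 * μ ≤ t1 * (μ * H) := by
        have := mul_le_mul_of_nonneg_left hH (by positivity : 0 ≤ t1 * μ)
        linarith only [this]
      linarith only [ht1μH, this]
    have k3 : t1 ≤ 1 := by nlinarith only [hμt, ht20, k2]
    linarith
  -- `κ (A g + H - 1) < κ'`
  have h3 : κ * (A * g + H - 1) < κ' := by
    have k1 : κ' * (b * g + H * β - t1 * g) < κ' * (1 + η) := mul_lt_mul_of_pos_left (by linarith only [hS, h2]) hκ'0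
    have k2 : H * (κ * η) ≤ H * (κ' * (β - t2 * g)) := mul_le_mul_of_nonneg_left hb' (by linarith only [hH])
    have k3 : κ' * A * g < κ' + (κ' - H * κ) * η := by
      rw [hA]
      linarith only [k1, k2]
    have k4 : κ * η < κ' := by
      have := mul_lt_mul_of_pos_left h1 hκ'0
      linarith only [hb', this]
    have k5 : (κ' - H * κ) * (κ * η) ≤ (κ' - H * κ) * κ' := mul_le_mul_of_nonneg_left k4.le hκH
    have k6 := mul_lt_mul_of_pos_left k3 hκ0
    have k7 : κ' * (κ * (A * g + H - 1)) < κ' * κ' := by linarith only [k5, k6]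
    exact lt_of_mul_lt_mul_left k7 hκ'0.le
  have h4 : A * g < 1 + b * κ' + H * (μ * κ' - 1) := by
    have k0 : 0 ≤ A * g + H - 1 := by
      have := mul_pos hA0 (by linarith only [hg] : 0 < g)
      linarith only [hH, this]
    have k1 := mul_le_mul_of_nonneg_right hκT k0
    have k2 : T * (κ * (A * g + H - 1)) < T * κ' := mul_lt_mul_of_pos_left h3 (by rw [hT]; linarith only [hb, hμH0])
    rw [hT] at k1 k2
    linarith only [k1, k2]
  have h5 := ineqI (b := b) (H := H) (t1 := t1) hb hH hμ hμ1 ht1μH ht2μ ht21 hκ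
  rw [← hA] at h5
  -- `g ≥ b + μ - 1 / 2 + H t2`
  have h6 : b + μ - 1 / 2 + H * t2 ≤ g := by
    obtain ⟨c, hc⟩ : ∃ c, c = b + μ + H * t2 := ⟨_, rfl⟩
    have hHt : 0 < H * t2 := mul_pos (by linarith only [hH]) ht20
    have hc5 : 5 / 2 ≤ c := by linarith only [hb, hμ1, hc, hHt]
    have k1 : c * g ≤ g ^ 2 + 1 := by
      have k2 := mul_nonneg (sub_nonneg.2 hη) (sub_nonneg.2 hy1)
      have k3 := mul_nonneg (sub_nonneg.2 hζ) (sub_nonneg.2 hβ1)
      have k4 : H * (t2 * g) ≤ H * β := mul_le_mul_of_nonneg_left hβt (by linarith only [hH])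
      rw [hc]
      linarith only [hβ, hN, hS, k2, k3, k4]
    by_contra h
    rw [not_le] at h
    have k2 : 0 ≤ (g - 1) * (c - 1 / 2 - g) := mul_nonneg (by linarith only [hg]) (by linarith only [hc, h])
    linarith only [hc, hc5, k1, h, k2]
  have h7 : A * (b + μ - 1 / 2 + H * t2) ≤ A * g := mul_le_mul_of_nonneg_left h6 hA0.le
  linarith only [h4, h5, h7]

end Pool.Agent.Helper18.DY
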