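import Pool.Agent.Helper18.DY.NGiA
import Pool.Agent.Helper18.DY.NGiB
import Pool.Agent.Helper18.DY.NGiC
import Pool.Agent.Helper57.DY.NGs

/-!
# NG, index `k ≥ 2` at `h`: the `RT` form (MP_d13a5e_al)

`m = 2 bO H1 - H2`, `y = T g - η - (H2 - m) ζ`, `β = μ g - ζ`, `K = y - m ζ`.
-/

set_option autoImplicit false

namespace Pool.Agent.Helper18.DY

open _root_.DY (Z1 sq sq_zero sq_one sq_two sq_succ)
open Pool.Agent.Helper62.DY (RT)
open Pool.Agent.Helper57.DY (HD hd_of rt_b1s rt_b2s single3)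

/-- the data at `h` of index `i` : `t1 = τ_i`, `κ = κ_(i-1)` -/
structure HS (T t1 κ : ℝ) : Prop where
  t0 : 0 < t1
  tκ : t1 ≤ κ
  κT : 1 ≤ κ * T
  κT1 : κ * (T - 1) ≤ 1
  alt : (κ * T = 1 ∧ t1 * (T + 1) = 1) ∨ 1 ≤ κ * (T - t1)
  hw : ∀ w : ℝ, 1 ≤ w → w ^ 2 + 1 ≤ T * w → t1 * w ≤ 1

/-- the data of NGi, `b1, b2 ≥ 1 / 2` -/
structure GD (R : ℝ → ℝ → ℝ → Prop) (b1 b2 bO H1 H2 g x1 x2 η ζ T m t1 κ : ℝ) : Prop where
  hR : RT b1 b2 bO R
  hb1 : 1 ≤ 2 * b1
  hb2 : 1 ≤ 2 * b2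
  hT : T = 2 * b1 * H1 + 2 * b2 * H2
  hm : m = 2 * bO * H1 - H2
  hh : R 0 H1 H2
  hH1 : 1 ≤ H1
  hH2 : 1 ≤ H2
  hx : R g x1 x2
  hg : 1 ≤ g
  hx1 : 1 ≤ x1
  e1 : x1 = H1 * η
  e2 : x2 = ζ + H2 * η
  hζ : 0 < ζ
  hη : 0 < η
  S : HS T t1 κ
  hF2 : κ * (η + H2 * ζ) < g
  hvζ : 1 ≤ H1 * ζ
  hvβ : 0 < 2 * b2 * g - ζ → 1 ≤ H1 * (2 * b2 * g - ζ)
  hvK : 0 < T * g - η - H2 * ζ → 1 ≤ T * g - η - H2 * ζ
  hr : R g (H1 * (T * g - η - (H2 - m) * ζ)) (H2 * (T * g - η - (H2 - m) * ζ) + ζ)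

variable {R : ℝ → ℝ → ℝ → Prop} {b1 b2 bO H1 H2 g x1 x2 η ζ T m t1 κ : ℝ}

/-- everything which follows from the root `h` -/
theorem GD.h_facts (D : GD R b1 b2 bO H1 H2 g x1 x2 η ζ T m t1 κ) :
    (m = 0 ∨ 1 ≤ m) ∧ H1 ^ 2 = 1 + H2 * m ∧ 2 ≤ T ∧ (H1 = 1 ∨ (1 ≤ H1 ∧ 2 ≤ H1 ^ 2)) ∧
      (H2 = 1 ∨ (1 ≤ H2 ∧ 2 ≤ H2 ^ 2)) ∧ (m = 0 → H1 = 1) ∧ 2 * b1 * H1 ≤ T - 1 ∧
      2 * b2 * H2 ≤ T - 1 := by
  have hT2 : 2 ≤ T ∧ 2 * b1 * H1 ≤ T - 1 ∧ 2 * b2 * H2 ≤ T - 1 := by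
    have h1 : 1 ≤ 2 * b1 * H1 := one_le_mul_of_one_le_of_one_le D.hb1 D.hH1
    have h2 : 1 ≤ 2 * b2 * H2 := one_le_mul_of_one_le_of_one_le D.hb2 D.hH2
    rw [D.hT]
    exact ⟨by linarith only [h1, h2], by linarith only [h2], by linarith only [h1]⟩
  have hc : 1 ≤ T / 2 := by linarith only [hT2.1]
  have h0 : 0 ≤ (T / 2) ^ 2 - 1 := by nlinarith only [hc]
  have h1 := Real.sq_sqrt h0
  have h2 := Real.sqrt_nonneg ((T / 2) ^ 2 - 1)
  obtain ⟨e, he0, he1, hee⟩ : ∃ e : ℝ, 0 < e ∧ e ≤ 1 ∧ e ^ 2 - 2 * (T / 2) * e + 1 = 0 := by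
    refine ⟨T / 2 - Real.sqrt ((T / 2) ^ 2 - 1), ?_, ?_, ?_⟩ <;> nlinarith
  have H := hd_of D.hR D.hh D.hH1 D.hH2 he0 he1 (by rw [← D.hT]; linarith only [hee])
  rw [← D.hm] at H
  refine ⟨H.hs, H.nh, hT2.1, H.h1s, H.h2s, ?_, hT2.2.1, hT2.2.2⟩
  intro hm
  have h3 := H.nh
  rw [hm] at h3
  have := D.hH1
  nlinarith only [h3, this]

/-- the norm -/
theorem GD.norm (D : GD R b1 b2 bO H1 H2 g x1 x2 η ζ T m t1 κ) :
    g ^ 2 - 1 = η * (T * g - η - (H2 - m) * ζ) + ζ * (2 * b2 * g - ζ) := by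
  have n := D.hR.n _ _ _ D.hx
  have nh := D.h_facts.2.1
  rw [D.e1, D.e2] at n
  rw [D.hT]
  have hm := D.hm
  rw [hm] at nh ⊢
  linear_combination n - η ^ 2 * nh

/-- the reflection `r_2 x` -/
theorem GD.e2z (D : GD R b1 b2 bO H1 H2 g x1 x2 η ζ T m t1 κ) :
    (2 * b2 * g - ζ + m * η = 0 ∨ 1 ≤ 2 * b2 * g - ζ + m * η) ∧ R g x1 (2 * b2 * g - ζ + m * η) := by
  have r2 := D.hR.r2 _ _ _ D.hx
  have e : 2 * b2 * g + 2 * bO * x1 - x2 = 2 * b2 * g - ζ + m * η := by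
    rw [D.e1, D.e2, D.hm]
    ring
  rw [e] at r2
  exact ⟨(D.hR.z1 r2 (by linarith only [D.hx1])).2.2, r2⟩

/-- **NGi, `j = 2`** -/
theorem GD.two (D : GD R b1 b2 bO H1 H2 g x1 x2 η ζ T m t1 κ) :
    1 ≤ g - t1 * η ∨ (2 * b2 = 1 ∧ H1 = 1 ∧ H2 = 1 ∧ g = 2 * b1 ∧ x1 = (2 * b1) ^ 2 - 1 ∧
      2 * b2 * g + 2 * bO * x1 - x2 = 0) := by
  obtain ⟨ms, nh, hT2, h1s, h2s, mH, hTb, hTμ⟩ := D.h_facts
  have hN := D.norm
  have hg := D.hg
  have hη := D.hη
  have hζ := D.hζ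
  have hH1 := D.hH1
  have hH2 := D.hH2
  have S := D.S
  have hb1 := D.hb1
  have hb2 := D.hb2
  have t0 := S.t0
  have hm0 : 0 ≤ m := by rcases ms with h | h <;> linarith only [h]
  have hκ0 : 0 < κ := by linarith only [t0, S.tκ]
  obtain ⟨K, hK⟩ : ∃ K, K = T * g - η - H2 * ζ := ⟨_, rfl⟩
  obtain ⟨β, hβ⟩ : ∃ β, β = 2 * b2 * g - ζ := ⟨_, rfl⟩
  obtain ⟨e2, he2⟩ : ∃ e2, e2 = β + m * η := ⟨_, rfl⟩
  obtain ⟨z2, r2⟩ := D.e2z
  have e2d : 2 * b2 * g - ζ + m * η = e2 := by rw [he2, hβ]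
  rw [e2d] at z2 r2
  have hNK : η * K = g ^ 2 - 1 - ζ * e2 := by
    rw [hK, he2, hβ]
    linear_combination (-1) * hN
  rcases S.alt with ⟨hi1, hi2⟩ | hi
  · -- `i = 3`
    left
    have hK1 : 1 ≤ K := by
      rw [hK]
      apply D.hvK
      have h1 := D.hF2
      have h2 : T * (κ * (η + H2 * ζ)) < T * g := mul_lt_mul_of_pos_left h1 (by linarith only [hT2])
      have h3 : T * (κ * (η + H2 * ζ)) = η + H2 * ζ := by linear_combination (η + H2 * ζ) * hi1
      linarith only [h2, h3]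
    exact j2i3 (H2 := H2) hg hi2 (by linarith only [hT2]) hK hNK (by rcases z2 with h | h <;> linarith only [h]) hK1 hζ.le
      (by linarith only [hH2])
  · -- `i ≥ 4`
    have hKt : t1 * g ≤ K := by
      have h1 := D.hF2
      have h2 : κ * (t1 * g) ≤ κ * K := by
        rw [hK]
        have := mul_le_mul_of_nonneg_right hi (by linarith only [hg] : 0 ≤ g)
        linarith only [h1, this]
      exact le_of_mul_le_mul_left h2 hκ0
    rcases z2 with h0 | h1
    · -- `e_2 = 0`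
      rw [h0] at r2 hNK
      have r1 := D.hR.r1 _ _ _ r2
      obtain ⟨x1', hx1'⟩ : ∃ x1', x1' = 2 * b1 * g - x1 := ⟨_, rfl⟩
      have f1 : 2 * b1 * g + 2 * bO * 0 - x1 = x1' := by rw [hx1']; ring
      rw [f1] at r1
      have n1 := D.hR.n _ _ _ r1
      have n2 := D.hR.n _ _ _ r2
      have hxx : x1 * x1' = g ^ 2 - 1 := by
        rw [hx1']
        linear_combination (-1) * n2
      have hKx : K = H1 * x1' := by
        have : η * K = η * (H1 * x1') := by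
          have e3 : η * (H1 * x1') = x1 * x1' := by rw [D.e1]; ring
          rw [e3, hxx, hNK]
          ring
        exact mul_left_cancel₀ hη.ne' this
      have hx1'0 : 0 < x1' := by
        have hK0 : 0 < H1 * x1' := by
          rw [← hKx]
          exact lt_of_lt_of_le (mul_pos t0 (by linarith only [hg])) hKt
        exact (mul_pos_iff_of_pos_left (by linarith only [hH1])).1 hK0
      have hx1'1 := (D.hR.z1 r1 hx1'0).2.1
      have r0 := D.hR.r0 _ _ _ r1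
      have z0 := (D.hR.z1 r0 hx1'0).1
      have f2 : 2 * b1 * x1' + 2 * b2 * 0 - g = 2 * b1 * x1' - g := by ring
      rw [f2] at z0
      have hlb1 : 2 * b1 = 1 ∨ (1 ≤ 2 * b1 ∧ 2 ≤ (2 * b1) ^ 2) := by
        rcases rt_b1s D.hR with h | h | h
        · linarith only [hb1, h]
        · exact Or.inl h
        · exact Or.inr h
      have hlb2 : 2 * b2 = 1 ∨ (1 ≤ 2 * b2 ∧ 2 ≤ (2 * b2) ^ 2) := by
        rcases rt_b2s D.hR with h | h | h
        · linarith only [hb2, h]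
        · exact Or.inl h
        · exact Or.inr h
      have ht1 : t1 * (T - 1) ≤ 1 := by
        have := mul_le_mul_of_nonneg_right S.tκ (by linarith only [hT2] : 0 ≤ T - 1)
        linarith only [this, S.κT1]
      rcases j2c (K := K) (x1 := x1) (x1' := x1') (b := 2 * b1) (μ := 2 * b2) (H1 := H1) (H2 := H2) hg
        D.hx1 hx1'1 hxx hKx D.e1 (by rw [hx1']; ring) z0 D.hT hlb1 hlb2 h1s h2s t0 ht1 S.hw with
        h3 | ⟨h3, h4, h5, h6, h7⟩
      · exact Or.inl h3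
      · right
        refine ⟨h3, h4, h5, h6, h7, ?_⟩
        have : 2 * b2 * g + 2 * bO * x1 - x2 = e2 := by
          rw [← e2d, D.e1, D.e2, D.hm]
          ring
        rw [this]
        exact h0
    · left
      rcases le_or_gt 1 ζ with hζ1 | hζ1
      · exact j2a (K := K) (e2 := e2) (β := β) hg hNK hζ1 h1 (by rw [he2]; have := mul_nonneg hm0 hη.le; linarith only [this])
          hβ hb2 t0 hKt
      · -- `ζ < 1`, so `m ≥ 1`
        have hm1 : 1 ≤ m := by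
          rcases ms with h | h
          · exfalso
            have h2 := mH h
            have h3 := D.hvζ
            rw [h2] at h3
            linarith only [hζ1, h3]
          · exact h
        have hβ0 : 0 < β := by
          rw [hβ]
          have : g ≤ 2 * b2 * g := by nlinarith only [hg, hb2]
          linarith only [hg, hζ1, this]
        have ht11 : t1 ≤ 1 := by
          have h2 := S.κT1
          have h3 : κ * 1 ≤ κ * (T - 1) := mul_le_mul_of_nonneg_left (by linarith only [hT2]) hκ0.le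
          linarith only [h2, h3, S.tκ]
        have key := P1 (g := g) (η := η) (ζ := ζ) (y := K + m * ζ) (β := β) (t1 := t1) (t2 := 0)
          (b := 2 * b1) (H1 := H1) (H2 := H2) (m := m) hg (by
            rw [hK, hβ]
            linear_combination hN) (by
            rw [hK, hβ, D.hT]
            ring) (by rw [← D.e1]; exact D.hx1) (by
            have h2 : H1 * (m * ζ) ≤ H1 * (K + m * ζ - t1 * g) :=
              mul_le_mul_of_nonneg_left (by linarith only [hKt]) (by linarith only [hH1])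
            have h3 : 1 * (H1 * ζ) ≤ m * (H1 * ζ) :=
              mul_le_mul_of_nonneg_right hm1 (by linarith only [D.hvζ])
            linarith only [h2, h3, D.hvζ]) (by linarith only [hβ0]) hζ.le hH1 (by
            have h2 : H1 * g ≤ H1 * (2 * b1) * g := by
              have : H1 * g * 1 ≤ H1 * g * (2 * b1) := mul_le_mul_of_nonneg_left hb1 (by positivity)
              linarith only [this]
            have h3 : β ≤ H2 * β := by nlinarith only [hH2, hβ0]
            have h4 : ζ ≤ m * ζ := by nlinarith only [hζ, hm1]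
            have h5 : t1 * g ≤ 1 * g := mul_le_mul_of_nonneg_right ht11 (by linarith only [hg])
            have h6 : g ≤ 2 * b2 * g := by nlinarith only [hg, hb2]
            linarith only [hβ, h2, h3, h4, h5, h6])
        linarith only [key]

/-- **NGi, `j = 3`** -/
theorem GD.three (D : GD R b1 b2 bO H1 H2 g x1 x2 η ζ T m t1 κ) {t2 : ℝ} (hμ : 2 ≤ (2 * b2) ^ 2)
    (ht2 : t2 * (2 * b2 + 1) = 1) (hF1 : 2 * b2 * κ * η ≤ 2 * b2 * g - ζ)
    (hBu : 2 * b2 * (2 * b2 * g - ζ + m * η) + 2 * b1 * x1 - g < g) :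
    1 ≤ g - t1 * η - t2 * ζ ∨ (2 * b1 = 1 ∧ H1 = 1 ∧ H2 = 1 ∧ x1 = 1 ∧
      g = 2 * b1 * x1 + 2 * b2 ∧ 2 * b2 * g + 2 * bO * x1 - x2 = 1) := by
  obtain ⟨ms, nh, hT2, h1s, h2s, mH, hTb, hTμ⟩ := D.h_facts
  have hN := D.norm
  have hg := D.hg
  have hη := D.hη
  have hζ := D.hζ
  have hH1 := D.hH1
  have hH2 := D.hH2
  have S := D.S
  have hb1 := D.hb1
  have hb2 := D.hb2
  have t0 := S.t0
  have hm0 : 0 ≤ m := by rcases ms with h | h <;> linarith only [h]
  have hκ0 : 0 < κ := by linarith only [t0, S.tκ]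
  obtain ⟨μ, hμd⟩ : ∃ μ, μ = 2 * b2 := ⟨_, rfl⟩
  have hc : 1 ≤ T / 2 := by linarith only [hT2]
  have h0 : 0 ≤ (T / 2) ^ 2 - 1 := by nlinarith only [hc]
  have h1 := Real.sq_sqrt h0
  have h2 := Real.sqrt_nonneg ((T / 2) ^ 2 - 1)
  obtain ⟨e, he0, he1, hee⟩ : ∃ e : ℝ, 0 < e ∧ e ≤ 1 ∧ e ^ 2 - 2 * (T / 2) * e + 1 = 0 := by
    refine ⟨T / 2 - Real.sqrt ((T / 2) ^ 2 - 1), ?_, ?_, ?_⟩ <;> nlinarith
  clear h0 h1 h2
  -- `e (T - 1) ≤ 1`
  have heT : e * (T - 1) ≤ 1 := by nlinarith only [he0, he1, hee]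
  have heμ : e * (2 * b2 * H2) ≤ 1 := by
    have := mul_le_mul_of_nonneg_left hTμ he0.le
    linarith
  -- `t1 ≤ e`
  have ht1e : t1 ≤ e := by
    have h := S.hw (1 / e) (by rw [le_div_iff₀ he0]; linarith only [he1]) (by
      have : (1 / e) ^ 2 + 1 = T * (1 / e) := by
        field_simp
        linarith only [hee]
      exact this.le)
    rw [mul_one_div, div_le_one he0] at h
    exact h
  obtain ⟨β, hβ⟩ : ∃ β, β = 2 * b2 * g - ζ := ⟨_, rfl⟩
  -- the claim
  have claim : (2 * b2 + 1) * (1 + t1 * η) ≤ g + β → 1 ≤ g - t1 * η - t2 * ζ := by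
    intro h
    have h3 : (2 * b2 + 1) * 1 ≤ (2 * b2 + 1) * (g - t1 * η - t2 * ζ) := by
      have e3 : (2 * b2 + 1) * (g - t1 * η - t2 * ζ) = g + β - (2 * b2 + 1) * (t1 * η) := by
        rw [hβ]
        linear_combination (-ζ) * ht2
      rw [e3]
      linarith only [h]
    exact le_of_mul_le_mul_left h3 (by linarith only [hb2])
  have hβκ : 2 * b2 * κ * η ≤ β := by
    rw [hβ]
    exact hF1
  have hβ0 : 0 < β := lt_of_lt_of_le (by positivity) hβκ
  rcases le_or_gt (e * (2 * b2 * η)) β with hs | hs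
  · -- outside the strip
    have h3 : ζ ≤ 2 * b2 * (g - e * η) := by
      rw [hβ] at hs
      linarith only [hs]
    have h4 : H2 * e * ζ ≤ g - e * η := by
      have h5 : 2 * b2 * (H2 * e * ζ) ≤ 2 * b2 * (g - e * η) := by
        have := mul_le_mul_of_nonneg_right heμ hζ.le
        linarith only [h3, this]
      exact le_of_mul_le_mul_left h5 (by linarith only [hb2])
    rcases single3 D.hR D.hh hH1 hH2 he0 he1 (by rw [← D.hT]; linarith only [hee]) D.hx D.hx1 D.e1 D.e2 hζ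
      (by linarith only [hb2]) hμ h3 h4 with h5 | h5
    · left
      apply claim
      have h6 : t1 * η ≤ e * η := mul_le_mul_of_nonneg_right ht1e hη.le
      have h7 : (2 * b2 + 1) * (t1 * η) ≤ (2 * b2 + 1) * (e * η) :=
        mul_le_mul_of_nonneg_left h6 (by linarith only [hb2])
      rw [hβ]
      linarith only [h5, h7]
    · exact Or.inr h5
  · left
    apply claim
    have hx1 : H1 ^ 2 = 1 + H2 * m := nh
    obtain ⟨e3, he3⟩ : ∃ e3, e3 = 2 * b2 * (2 * b2 * g - ζ + m * η) + 2 * b1 * x1 - g := ⟨_, rfl⟩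
    obtain ⟨U, hU⟩ : ∃ U, U = 2 * b1 * H1 + m * (2 * b2) := ⟨_, rfl⟩
    have he3' : e3 = 2 * b2 * β + U * η - g := by
      rw [he3, hβ, hU, D.e1]
      ring
    have hN3 : g * e3 = β ^ 2 + η ^ 2 - (H2 - m) * β * η - 1 := by
      have hζβ : ζ = 2 * b2 * g - β := by linarith only [hβ]
      rw [hζβ, D.hT] at hN
      rw [he3', hU]
      linear_combination (-1) * hN
    -- `e_3 > 0`
    have hX := D.hvβ (by rw [← hβ]; exact hβ0)
    rw [← hβ] at hX
    have hz : 0 < η - H2 * β := by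
      have h3 : H2 * β < H2 * (e * (2 * b2 * η)) := mul_lt_mul_of_pos_left hs (by linarith only [hH2])
      have h4 := mul_le_mul_of_nonneg_right heμ hη.le
      linarith only [h3, h4]
    have hge3 : 0 < g * e3 := by
      have e4 : g * e3 = (H1 * β) ^ 2 + (η - H2 * β) ^ 2 + (η - H2 * β) * β * (H2 + m) - 1 := by
        rw [hN3]
        linear_combination (-(β ^ 2)) * nh
      rw [e4]
      have h3 : 1 ≤ (H1 * β) ^ 2 := one_le_pow₀ hX
      have h4 : 0 < (η - H2 * β) ^ 2 := by positivity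
      have h5 : 0 ≤ (η - H2 * β) * β * (H2 + m) := by
        have := mul_pos hz hβ0
        exact mul_nonneg this.le (by linarith only [hH2, hm0])
      linarith only [h3, h4, h5]
    have he30 : 0 < e3 := (mul_pos_iff_of_pos_left (by linarith only [hg])).1 hge3
    have r20 := D.hR.r0 _ _ _ D.e2z.2
    have f1 : 2 * b1 * x1 + 2 * b2 * (2 * b2 * g - ζ + m * η) - g = e3 := by
      rw [he3]
      ring
    rw [f1] at r20
    have he31 := (D.hR.z0 r20 he30).1
    have hU1 : 1 ≤ U := by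
      rw [hU]
      have h3 : 1 ≤ 2 * b1 * H1 := one_le_mul_of_one_le_of_one_le hb1 hH1
      have h4 : 0 ≤ m * (2 * b2) := mul_nonneg hm0 (by linarith only [hb2])
      linarith only [h3, h4]
    exact j3strip (e := e) (T := T) (U := U) (κ := κ) (c2 := H2 - m) (H2 := H2) (e3 := e3) (by linarith only [hb2]) hμ
      hU1 (by rw [D.hT, hU]; ring) (by linarith only [hTμ]) hH2 hη hβκ hs he0 he1 (by linarith only [hee]) S.tκ S.κT he3' hN3
      he31 (by rw [he3]; exact hBu.le)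

/-- the data at `V_2`, index `j ≥ 4` : `t2 = τ'_j`, `κ' = κ'_(j-1)`, `μ = 2 b2` -/
structure VS (μ t2 κ' : ℝ) : Prop where
  hμ : μ + 1 ≤ μ ^ 2
  hμ1 : 8 / 5 ≤ μ
  tμ : 1 ≤ μ * t2
  tκ : t2 ≤ κ'
  t1 : t2 ≤ 1
  tμ1 : 1 + t2 ≤ μ
  hκ : μ * κ' ≤ (μ + 1) * t2
  κt : 1 ≤ κ' * (μ - t2)

/-- **NGi, `j ≥ 4`** -/
theorem GD.four (D : GD R b1 b2 bO H1 H2 g x1 x2 η ζ T m t1 κ) {t2 κ' : ℝ} (V : VS (2 * b2) t2 κ')
    (hF1 : κ * η + κ' * ζ ≤ g) : 1 ≤ g - t1 * η - t2 * ζ := by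
  obtain ⟨ms, nh, hT2, h1s, h2s, mH, hTb, hTμ⟩ := D.h_facts
  have hN := D.norm
  have hg := D.hg
  have hη := D.hη
  have hζ := D.hζ
  have hH1 := D.hH1
  have hH2 := D.hH2
  have S := D.S
  have hb1 := D.hb1
  have hb2 := D.hb2
  have t0 := S.t0
  have hm0 : 0 ≤ m := by rcases ms with h | h <;> linarith only [h]
  have hκ0 : 0 < κ := by linarith only [t0, S.tκ]
  have ht20 : 0 < t2 := by
    have h1 := V.tμ
    by_contra h
    have := mul_nonpos_of_nonneg_of_nonpos (by linarith only [hb2] : 0 ≤ 2 * b2) (not_lt.1 h)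
    linarith only [h1, this]
  have hκ'0 : 0 < κ' := lt_of_lt_of_le ht20 V.tκ
  obtain ⟨K, hK⟩ : ∃ K, K = T * g - η - H2 * ζ := ⟨_, rfl⟩
  obtain ⟨β, hβ⟩ : ∃ β, β = 2 * b2 * g - ζ := ⟨_, rfl⟩
  have hb' : κ * η ≤ κ' * (β - t2 * g) := by
    rw [hβ]
    have := mul_le_mul_of_nonneg_right V.κt (by linarith only [hg] : 0 ≤ g)
    linarith only [hF1, this]
  have hβt : t2 * g < β := by
    have h1 : 0 < κ * η := mul_pos hκ0 hη
    have h2 : 0 < β - t2 * g := (mul_pos_iff_of_pos_left hκ'0).1 (by linarith only [hb', h1])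
    linarith only [h2]
  have hβ0 : 0 < β := lt_trans (mul_pos ht20 (by linarith only [hg])) hβt
  have hX := D.hvβ (by rw [← hβ]; exact hβ0)
  rw [← hβ] at hX
  have hκμ : 1 ≤ 2 * b2 * κ' := by
    have := mul_le_mul_of_nonneg_left V.tκ (by linarith only [hb2] : 0 ≤ 2 * b2)
    linarith only [this, V.tμ]
  -- `K > 0`
  have hKκ : κ * K = κ * T * g - κ * (η + H2 * ζ) := by
    rw [hK]
    ring
  have hK0 : 0 < K := by
    have h1 := mul_le_mul_of_nonneg_right S.κT (by linarith only [hg] : 0 ≤ g)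
    have h2 := D.hF2
    exact (mul_pos_iff_of_pos_left hκ0).1 (by rw [hKκ]; linarith only [h1, h2])
  have hK1 : 1 ≤ K := by
    rw [hK]
    exact D.hvK (by rw [← hK]; exact hK0)
  have ht1T : t1 * (T - 1) ≤ 1 := by
    have := mul_le_mul_of_nonneg_right S.tκ (by linarith only [hT2] : 0 ≤ T - 1)
    linarith only [this, S.κT1]
  have ht11 : t1 ≤ 1 := by
    have : t1 * 1 ≤ t1 * (T - 1) := mul_le_mul_of_nonneg_left (by linarith only [hT2]) t0.le
    linarith
  -- (P1) for `m ≥ 1`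
  have hP1 : 1 ≤ m → t1 * g ≤ K → 1 ≤ g - t1 * η - t2 * ζ := by
    intro hm1 hKt
    refine P1 (g := g) (η := η) (ζ := ζ) (y := K + m * ζ) (β := β) (t1 := t1) (t2 := t2)
      (b := 2 * b1) (H1 := H1) (H2 := H2) (m := m) hg (by
        rw [hK, hβ]
        linear_combination hN) (by
        rw [hK, hβ, D.hT]
        ring) (by rw [← D.e1]; exact D.hx1) (by
        have h2 : H1 * (m * ζ) ≤ H1 * (K + m * ζ - t1 * g) :=
          mul_le_mul_of_nonneg_left (by linarith only [hKt]) (by linarith only [hH1])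
        have h3 : 1 * (H1 * ζ) ≤ m * (H1 * ζ) :=
          mul_le_mul_of_nonneg_right hm1 (by linarith only [D.hvζ])
        linarith only [h2, h3, D.hvζ]) hβt.le hζ.le hH1 (by
        have h2 : H1 * g ≤ H1 * (2 * b1) * g := by
          have : H1 * g * 1 ≤ H1 * g * (2 * b1) := mul_le_mul_of_nonneg_left hb1 (by positivity)
          linarith only [this]
        have h3 : β ≤ H2 * β := by nlinarith only [hH1, hH2, hX]
        have h4 : ζ ≤ m * ζ := by nlinarith only [hζ, hm1]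
        have h5 : t1 * g ≤ 1 * g := mul_le_mul_of_nonneg_right ht11 (by linarith only [hg])
        have h6 : g ≤ 2 * b2 * g := by nlinarith only [hg, hb2]
        linarith only [hβ, h2, h3, h4, h5, h6])
  have hTF : κ * T = 1 → η ≤ T * (g - κ' * ζ) := by
    intro h
    have h1 : T * (κ * η + κ' * ζ) ≤ T * g := mul_le_mul_of_nonneg_left hF1 (by linarith only [hT2])
    have h2 : T * (κ * η + κ' * ζ) = η + T * (κ' * ζ) := by linear_combination η * h
    linarith only [h1, h2]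
  have hKi : 1 ≤ κ * (T - t1) → t1 * g ≤ K := by
    intro hi
    have h1 := D.hF2
    have h2 : κ * (t1 * g) ≤ κ * K := by
      rw [hK]
      have := mul_le_mul_of_nonneg_right hi (by linarith only [hg] : 0 ≤ g)
      linarith only [h1, this]
    exact le_of_mul_le_mul_left h2 hκ0
  rcases ms with hm | hm
  · -- `m = 0`, `H1 = 1`
    have hH := mH hm
    have hyK : T * g - η - (H2 - m) * ζ = K := by
      rw [hK, hm]
      ring
    rw [hyK, ← hβ] at hN
    have hTe : T = 2 * b1 + 2 * b2 * H2 := by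
      rw [D.hT, hH]
      ring
    have hζ1 : 1 ≤ ζ := by
      have := D.hvζ
      rw [hH] at this
      linarith only [this]
    have hη1 : 1 ≤ η := by
      have h1 := D.hx1
      rw [D.e1, hH] at h1
      linarith only [h1]
    have hβ1 : 1 ≤ β := by
      rw [hH] at hX
      linarith only [hX]
    have hz : t1 * g ≤ K → 1 ≤ g - t1 * η - t2 * ζ := by
      intro hKt
      refine g4z (y := K) (T := T) (μ := 2 * b2) (κ := κ) (κ' := κ') (b := 2 * b1) (H := H2) (β := β) hg hTe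
        hb1 hH2 V.hμ V.hμ1 t0 S.tκ S.κT S.κT1 V.tμ V.tκ V.t1 V.tμ1 V.hκ V.κt hF1 hη1 hζ1 hK1 hKt hβ1 hβ hN ?_
      rw [hK, hβ, hTe]
      ring
    rcases S.alt with ⟨hi1, hi2⟩ | hi
    · rcases le_or_gt (t1 * g) K with h | h
      · exact hz h
      · -- `y < t1 g`
        have h3 : (T + 1) * K < g := by
          have h4 : (T + 1) * K < (T + 1) * (t1 * g) := mul_lt_mul_of_pos_left h (by linarith only [hT2])
          have h5 : (T + 1) * (t1 * g) = g := by linear_combination g * hi2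
          linarith only [h4, h5]
        have r0 := D.hR.r0 _ _ _ D.hr
        obtain ⟨G, hG⟩ : ∃ G, G = T * K + 2 * b2 * ζ - g := ⟨_, rfl⟩
        have f1 : 2 * b1 * (H1 * (T * g - η - (H2 - m) * ζ)) + 2 * b2 * (H2 * (T * g - η - (H2 - m) * ζ) + ζ) - g =
            G := by
          rw [hyK, hG, hTe, hH]
          ring
        rw [f1, hyK, hH, one_mul] at r0
        have hGz := (D.hR.z1 r0 hK0).1
        exact g4s (y := K) (T := T) (μ := 2 * b2) (κ' := κ') (b := 2 * b1) (H2 := H2) (β := β) (G := G) hg hTe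
          hb1 hH2 hb2 ht20.le V.tκ V.tμ V.κt hK (hTF hi1) hζ1 hK1 h3 hG hGz hN hβ hi2
    · exact hz (hKi hi)
  · -- `m ≥ 1`
    rcases S.alt with ⟨hi1, hi2⟩ | hi
    · rcases le_or_gt (t1 * g) K with h | h
      · exact hP1 hm h
      · have h3 : T * K ≤ g := by
          have h4 : (T + 1) * K < (T + 1) * (t1 * g) := mul_lt_mul_of_pos_left h (by linarith only [hT2])
          have h5 : (T + 1) * (t1 * g) = g := by linear_combination g * hi2
          linarith only [hK1, h4, h5]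
        exact g4m (K := K) (T := T) (μ := 2 * b2) (κ' := κ') (b := 2 * b1) (H1 := H1) (H2 := H2) (m := m)
          (y := T * g - η - (H2 - m) * ζ) (β := β) hg D.hT hb1 hH1 hH2 hm nh V.hμ hb2 V.t1 hκμ hK (hTF hi1) hζ
          hK1 h3 (by rw [hβ]; exact hN) (by rw [hK]; ring) hβ hi2
    · exact hP1 hm (hKi hi)

end Pool.Agent.Helper18.DY
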