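import Pool.Agent.Helper18.DY.NGi
import Pool.Agent.Helper9.DY.NG2

/-!
# NGiO from its class `b1 = 0` (MP_d13a5e_al)
-/

set_option autoImplicit false

namespace Pool.Agent.Helper18.DY

open _root_.DY (Tri Xs OFA Good NGiO sq sq_two)

variable {E : Type*} [AddCommGroup E] [Module ℝ E]

/-- the class `b1 = 0` of `NGiO` -/
def NGi0 (Ψ : Set E) (B : E →ₗ[ℝ] E →ₗ[ℝ] ℝ) : Prop :=
  ∀ (ρ φ : E →ₗ[ℝ] ℝ) (t d1 d2 x x' : E) (g x1 x2 g' x1' x2' al1 al2 be1 be2 : ℝ),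
    Xs Ψ B ρ φ t d1 d2 x x' g x1 x2 g' x1' x2' →
    OFA Ψ B φ d1 d2 al1 al2 be1 be2 → 1 ≤ be1 → x1 * be2 ≤ x2 * be1 → 1 ≤ g' →
    B t d1 = 0 → 1 / 2 ≤ -B t d2 → (∃ k2, Good (-B t d2) (φ d2) k2) →
    (∃ k, 2 ≤ k ∧ Good (be1 * -B t d1 + be2 * -B t d2) (be1 * φ d1 + be2 * φ d2) k) → False

/-- **NGiO** from the class `b1 = 0` -/
theorem ngiO_of {Ψ : Set E} {B : E →ₗ[ℝ] E →ₗ[ℝ] ℝ} (h0 : NGi0 Ψ B) : NGiO Ψ B := by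
  intro ρ φ t d1 d2 x x' g x1 x2 g' x1' x2' al1 al2 be1 be2 X O hbe hu hg' hP
  obtain ⟨⟨k2, hk2⟩, k, hk, hkh⟩ := hP
  have hb2 : 1 / 2 ≤ -B t d2 := by
    rcases X.L.tri.cp'.b_cases with h | h
    · exfalso
      have h1 := hk2.hs 1 (hk2.pos X.h2)
      have h2 : sq (-B t d2) (1 + 1) = 2 * -B t d2 := sq_two
      rw [h2, h] at h1
      norm_num at h1
    · exact h
  rcases X.L.tri.cp.b_cases with h | h
  · exact h0 _ _ _ _ _ _ _ _ _ _ _ _ _ _ _ _ _ X O hbe hu hg' (by linarith) hb2 ⟨k2, hk2⟩ ⟨k, hk, hkh⟩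
  · exact ngi_half X O hbe hu hg' h hb2 hk2 hk hkh

end Pool.Agent.Helper18.DY
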