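import Mathlib

/-!
# NG, `b1 = 0`, `T = 2 c_h ≥ 2`, indices `i, j ≥ 4`: real inequalities (MP_d13a5e_al)

`κ = P2 / P`, `τ = P2 / (P + 1)`, `κ' = S2 / S`, `y = S2 / (S + 1)`; the region `L < 1`, `κ η + κ' ζ ≤ g` is a triangle
in the coordinates `a = η / P`, `b = ζ / S`; the norm gives `a ^ 2 + b ^ 2 - Γ a b ≥ 1`, a function which is
convex along the third side.
-/

set_option autoImplicit false

namespace Pool.Agent.Helper18.DY

/-- the value of an indefinite form in a triangle -/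
theorem tri_form {a0 b0 p q Γ β γ : ℝ} (hp : 0 ≤ p) (hq : 0 ≤ q) (hΓ : 0 ≤ Γ) (hβ : 0 ≤ β) (hγ : 0 ≤ γ)
    (hs : β + γ < 1) (hA : a0 ^ 2 + b0 ^ 2 - Γ * a0 * b0 < 1)
    (hB : (a0 + p) ^ 2 + b0 ^ 2 - Γ * (a0 + p) * b0 ≤ 1)
    (hC : a0 ^ 2 + (b0 + q) ^ 2 - Γ * a0 * (b0 + q) ≤ 1) :
    (a0 + β * p) ^ 2 + (b0 + γ * q) ^ 2 - Γ * (a0 + β * p) * (b0 + γ * q) < 1 := by
  have e : (a0 + β * p) ^ 2 + (b0 + γ * q) ^ 2 - Γ * (a0 + β * p) * (b0 + γ * q) =
      (1 - β - γ) * (a0 ^ 2 + b0 ^ 2 - Γ * a0 * b0) +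
      β * ((a0 + p) ^ 2 + b0 ^ 2 - Γ * (a0 + p) * b0) +
      γ * (a0 ^ 2 + (b0 + q) ^ 2 - Γ * a0 * (b0 + q)) -
      ((1 - β - γ) * β * p ^ 2 + (1 - β - γ) * γ * q ^ 2 + β * γ * (p ^ 2 + q ^ 2 + Γ * (p * q))) := by
    ring
  have hα : 0 < 1 - β - γ := by linarith
  have h1 := mul_lt_mul_of_pos_left hA hα
  have h2 := mul_le_mul_of_nonneg_left hB hβ
  have h3 := mul_le_mul_of_nonneg_left hC hγ
  have h4 : 0 ≤ (1 - β - γ) * β * p ^ 2 := by positivity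
  have h5 : 0 ≤ (1 - β - γ) * γ * q ^ 2 := by positivity
  have h6 : 0 ≤ β * γ * (p ^ 2 + q ^ 2 + Γ * (p * q)) := by positivity
  rw [e]
  linarith

/-- **the vertex method** -/
theorem vmethod {g η ζ T μ c2 κ κ' τ y P S H1 W : ℝ}
    (hN : g ^ 2 + η ^ 2 + ζ ^ 2 - T * g * η - μ * g * ζ + c2 * η * ζ = 1) (hobt : 2 * g ≤ T * η + μ * ζ)
    (hF : κ * η + κ' * ζ ≤ g) (hP3 : 3 ≤ P) (hS3 : 8 / 5 ≤ S) (hκ : (κ ^ 2 - T * κ + 1) * P ^ 2 = 1)
    (hκ' : (κ' ^ 2 - μ * κ' + 1) * S ^ 2 = 1) (hτ : τ * (P + 1) = κ * P) (hy : y * (S + 1) = κ' * S)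
    (hτ0 : 0 < τ) (hy0 : 0 < y) (hτ1 : τ ≤ 1) (hy1 : y ≤ 1) (hH : 1 ≤ H1) (hη : 1 ≤ H1 * η)
    (hζ : 1 ≤ H1 * ζ) (hW : W = T * κ' + μ * κ - 2 * κ * κ' - c2) (V2 : H1 ≤ τ * P * W)
    (V1 : H1 * (1 - y ^ 2 * (1 - (1 / (H1 * P)) ^ 2)) ≤ y * S * W) : 1 ≤ g - τ * η - y * ζ := by
  by_contra hcon
  rw [not_le] at hcon
  have hP0 : 0 < P := by linarith
  have hS0 : 0 < S := by linarith
  have hH0 : 0 < H1 := by linarith
  have hηp : 0 < η := by
    by_contra h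
    have := mul_nonpos_of_nonneg_of_nonpos hH0.le (not_lt.1 h)
    linarith
  have hζp : 0 < ζ := by
    by_contra h
    have := mul_nonpos_of_nonneg_of_nonpos hH0.le (not_lt.1 h)
    linarith
  have hW0 : 0 < W := by
    by_contra h
    have := mul_nonpos_of_nonneg_of_nonpos (by positivity : 0 ≤ τ * P) (not_lt.1 h)
    linarith
  obtain ⟨a, ha⟩ : ∃ a, a = η / P := ⟨_, rfl⟩
  obtain ⟨b, hb⟩ : ∃ b, b = ζ / S := ⟨_, rfl⟩
  have hηa : η = a * P := by rw [ha]; field_simp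
  have hζb : ζ = b * S := by rw [hb]; field_simp
  have ha0 : 0 < a := by rw [ha]; positivity
  have hb0 : 0 < b := by rw [hb]; positivity
  obtain ⟨Γ, hΓ⟩ : ∃ Γ, Γ = P * S * W := ⟨_, rfl⟩
  have hΓ0 : 0 < Γ := by rw [hΓ]; positivity
  -- `F(a, b) ≥ 1`
  have hF1 : 1 ≤ a ^ 2 + b ^ 2 - Γ * a * b := by
    obtain ⟨g0, hg0⟩ : ∃ g0, g0 = κ * η + κ' * ζ := ⟨_, rfl⟩
    have h1 : 0 ≤ (g - g0) * (T * η + μ * ζ - g - g0) :=
      mul_nonneg (by linarith) (by linarith)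
    have h2 : 1 ≤ g0 ^ 2 + η ^ 2 + ζ ^ 2 - T * g0 * η - μ * g0 * ζ + c2 * η * ζ := by
      linarith
    have e1 : g0 ^ 2 + η ^ 2 + ζ ^ 2 - T * g0 * η - μ * g0 * ζ + c2 * η * ζ =
        a ^ 2 + b ^ 2 - Γ * a * b := by
      rw [hg0, hΓ, hW, hηa, hζb]
      linear_combination a ^ 2 * hκ + b ^ 2 * hκ'
    linarith
  -- `τ a + y b < 1`
  have hL : τ * a + y * b < 1 := by
    have e1 : (κ - τ) * η = τ * a := by
      rw [hηa]
      linear_combination (-a) * hτ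
    have e2 : (κ' - y) * ζ = y * b := by
      rw [hζb]
      linear_combination (-b) * hy
    linarith
  obtain ⟨a0, hA0⟩ : ∃ a0, a0 = 1 / (H1 * P) := ⟨_, rfl⟩
  obtain ⟨b0, hB0⟩ : ∃ b0, b0 = 1 / (H1 * S) := ⟨_, rfl⟩
  have ea0 : a0 * (H1 * P) = 1 := by rw [hA0]; field_simp
  have eb0 : b0 * (H1 * S) = 1 := by rw [hB0]; field_simp
  have a0p : 0 < a0 := by rw [hA0]; positivity
  have b0p : 0 < b0 := by rw [hB0]; positivity
  have a0le : a0 ≤ 1 / 3 := by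
    have h1 : 3 ≤ H1 * P := le_trans hP3 (le_mul_of_one_le_left hP0.le hH)
    have h2 : a0 * 3 ≤ a0 * (H1 * P) := mul_le_mul_of_nonneg_left h1 a0p.le
    linarith
  have b0le : b0 ≤ 5 / 8 := by
    have h1 : 8 / 5 ≤ H1 * S := le_trans hS3 (le_mul_of_one_le_left hS0.le hH)
    have h2 : b0 * (8 / 5) ≤ b0 * (H1 * S) := mul_le_mul_of_nonneg_left h1 b0p.le
    linarith
  have haa : a0 ≤ a := by
    have : (H1 * P) * a0 ≤ (H1 * P) * a := by
      have e1 : (H1 * P) * a = H1 * η := by rw [hηa]; ring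
      rw [e1]
      linarith
    exact le_of_mul_le_mul_left this (by positivity)
  have hbb : b0 ≤ b := by
    have : (H1 * S) * b0 ≤ (H1 * S) * b := by
      have e1 : (H1 * S) * b = H1 * ζ := by rw [hζb]; ring
      rw [e1]
      linarith
    exact le_of_mul_le_mul_left this (by positivity)
  obtain ⟨p, hp⟩ : ∃ p, p = 1 / τ - a0 := ⟨_, rfl⟩
  obtain ⟨q, hq⟩ : ∃ q, q = 1 / y - b0 := ⟨_, rfl⟩
  have ep : τ * (a0 + p) = 1 := by rw [hp]; field_simp; ring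
  have eq : y * (b0 + q) = 1 := by rw [hq]; field_simp; ring
  have p0 : 0 < p := by
    by_contra h
    have h1 : τ * (a0 + p) ≤ 1 * a0 := mul_le_mul hτ1 (by linarith) (by
      by_contra h2
      have := mul_neg_of_pos_of_neg hτ0 (not_le.1 h2)
      linarith) (by norm_num)
    linarith
  have q0 : 0 < q := by
    by_contra h
    have h1 : y * (b0 + q) ≤ 1 * b0 := mul_le_mul hy1 (by linarith) (by
      by_contra h2
      have := mul_neg_of_pos_of_neg hy0 (not_le.1 h2)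
      linarith) (by norm_num)
    linarith
  obtain ⟨β, hβ⟩ : ∃ β, β = (a - a0) / p := ⟨_, rfl⟩
  obtain ⟨γ, hγ⟩ : ∃ γ, γ = (b - b0) / q := ⟨_, rfl⟩
  have eβ : a0 + β * p = a := by rw [hβ]; field_simp; ring
  have eγ : b0 + γ * q = b := by rw [hγ]; field_simp; ring
  have hβ0 : 0 ≤ β := by rw [hβ]; exact div_nonneg (by linarith) p0.le
  have hγ0 : 0 ≤ γ := by rw [hγ]; exact div_nonneg (by linarith) q0.le
  have hβ1 : β < 1 := by
    by_contra h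
    have h1 : τ * (a0 + p) ≤ τ * a := by
      rw [← eβ]
      refine mul_le_mul_of_nonneg_left ?_ hτ0.le
      have : 1 * p ≤ β * p := mul_le_mul_of_nonneg_right (not_lt.1 h) p0.le
      linarith
    have h2 := mul_pos hy0 hb0
    linarith
  have hγ1 : γ < 1 := by
    by_contra h
    have h1 : y * (b0 + q) ≤ y * b := by
      rw [← eγ]
      refine mul_le_mul_of_nonneg_left ?_ hy0.le
      have : 1 * q ≤ γ * q := mul_le_mul_of_nonneg_right (not_lt.1 h) q0.le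
      linarith
    have h2 := mul_pos hτ0 ha0
    linarith
  have hs : β + γ < 1 := by
    have e1 : τ * a + y * b = β + γ + τ * a0 * (1 - β) + y * b0 * (1 - γ) := by
      rw [← eβ, ← eγ]
      linear_combination β * ep + γ * eq
    have h1 : 0 ≤ τ * a0 * (1 - β) := mul_nonneg (mul_pos hτ0 a0p).le (by linarith)
    have h2 : 0 ≤ y * b0 * (1 - γ) := mul_nonneg (mul_pos hy0 b0p).le (by linarith)
    linarith
  have key := tri_form (a0 := a0) (b0 := b0) (p := p) (q := q) (Γ := Γ) (β := β) (γ := γ) p0.le q0.le hΓ0.le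
    hβ0 hγ0 hs ?_ ?_ ?_
  · rw [eβ, eγ] at key
    linarith
  · have h1 : 0 ≤ Γ * a0 * b0 := by positivity
    have h2 := pow_le_pow_left₀ a0p.le a0le 2
    have h3 := pow_le_pow_left₀ b0p.le b0le 2
    linarith
  · -- vertex `(1 / τ, b0)`
    have h1 : Γ * b0 * H1 = P * W := by
      rw [hΓ]
      linear_combination (P * W) * eb0
    have h2 : 1 ≤ Γ * b0 * τ := by
      have h3 : H1 * 1 ≤ H1 * (Γ * b0 * τ) := by
        have e1 : H1 * (Γ * b0 * τ) = τ * P * W := by linear_combination τ * h1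
        rw [e1]
        linarith
      exact le_of_mul_le_mul_left h3 hH0
    have h3 : (a0 + p) ^ 2 ≤ Γ * (a0 + p) * b0 := by
      have h4 : (a0 + p) ^ 2 * 1 ≤ (a0 + p) ^ 2 * (Γ * b0 * τ) :=
        mul_le_mul_of_nonneg_left h2 (sq_nonneg _)
      have e1 : (a0 + p) ^ 2 * (Γ * b0 * τ) = Γ * (a0 + p) * b0 := by
        linear_combination (Γ * (a0 + p) * b0) * ep
      linarith
    have h5 := pow_le_pow_left₀ b0p.le b0le 2
    linarith
  · -- vertex `(a0, 1 / y)`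
    rw [← hA0] at V1
    have h1 : Γ * a0 * H1 = S * W := by
      rw [hΓ]
      linear_combination (S * W) * ea0
    have h2 : 1 - y ^ 2 * (1 - a0 ^ 2) ≤ y * (Γ * a0) := by
      have h3 : H1 * (1 - y ^ 2 * (1 - a0 ^ 2)) ≤ H1 * (y * (Γ * a0)) := by
        have e1 : H1 * (y * (Γ * a0)) = y * S * W := by linear_combination y * h1
        rw [e1]
        exact V1
      exact le_of_mul_le_mul_left h3 hH0
    have h3 := mul_le_mul_of_nonneg_left h2 (sq_nonneg (b0 + q))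
    have e1 : (b0 + q) ^ 2 * (1 - y ^ 2 * (1 - a0 ^ 2)) = (b0 + q) ^ 2 - (1 - a0 ^ 2) := by
      linear_combination (-(1 - a0 ^ 2) * (y * (b0 + q) + 1)) * eq
    have e2 : (b0 + q) ^ 2 * (y * (Γ * a0)) = Γ * a0 * (b0 + q) := by
      linear_combination (Γ * a0 * (b0 + q)) * eq
    linarith

end Pool.Agent.Helper18.DY
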