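import Mathlib

/-!
# NG, `b1 = 0`, `T ≥ 2`, indices `i, j ≥ 4`: the vertex inequalities (MP_d13a5e_al)
-/

set_option autoImplicit false

namespace Pool.Agent.Helper18.DY

/-- small facts, to keep the big proof fast -/
theorem sq_lb2 {a c : ℝ} (hc : 0 ≤ c) (h : c ≤ a) : c ^ 2 ≤ a ^ 2 := pow_le_pow_left₀ hc h 2

theorem sq_lt_of2 {a c : ℝ} (hc : 0 ≤ c) (h : c < a) : c ^ 2 < a ^ 2 := pow_lt_pow_left₀ h hc (by norm_num)

theorem eq_one_of_sq12 {a b : ℝ} (h : a ^ 2 = 1 + b * 0) (h1 : 1 ≤ a) : a = 1 := by nlinarith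

theorem golden_ub2 {μ : ℝ} (h : μ ^ 2 = μ + 1) (h1 : 8 / 5 ≤ μ) : μ ≤ 81 / 50 := by nlinarith

theorem lb_of_sq2 {a c : ℝ} (ha : 0 ≤ a) (h : c ^ 2 ≤ a ^ 2) : c ≤ a := by
  by_contra h1
  have := sq_lt_of2 ha (not_le.1 h1)
  linarith

theorem QT_lb {T Q : ℝ} (hT2 : 2 ≤ T) (hQ : T ^ 2 - 1 ≤ Q * T) : 3 / 4 * T ≤ Q := by
  have h0 := sq_lb2 (by norm_num) hT2
  have h1 : T * (3 / 4 * T) ≤ T * Q := by linarith
  exact le_of_mul_le_mul_left h1 (by linarith)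

/-- `m ≥ 1`: `H1 ≤ Q m` -/
theorem H1_le_Qm {T μ H1 H2 m Q : ℝ} (hT : T = μ * H2) (hT2 : 2 ≤ T) (hH2 : 1 ≤ H2) (hm : 1 ≤ m)
    (nh : H1 ^ 2 = 1 + H2 * m) (hH1 : 1 ≤ H1) (hμ : 8 / 5 ≤ μ) (hQ : T ^ 2 - 1 ≤ Q * T) : H1 ≤ Q * m := by
  have hQT : 3 / 4 * T ≤ Q := QT_lb hT2 hQ
  obtain ⟨z, hz⟩ : ∃ z, z = H2 * m := ⟨_, rfl⟩
  have hz1 : 1 ≤ z := by rw [hz]; exact one_le_mul_of_one_le_of_one_le hH2 hm
  have h1 : 3 / 2 ≤ Q * m := by
    have := mul_le_mul (by linarith : 3 / 2 ≤ Q) hm (by norm_num) (by linarith)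
    linarith
  have h2 : 6 / 5 * z ≤ Q * m := by
    have h3 : 3 / 4 * T * m ≤ Q * m := mul_le_mul_of_nonneg_right hQT (by linarith)
    have h4 : 8 / 5 * z ≤ μ * z := mul_le_mul_of_nonneg_right hμ (by linarith)
    have e1 : T * m = μ * z := by rw [hT, hz]; ring
    linarith
  rw [← hz] at nh
  rcases le_total z (5 / 4) with h | h
  · have h3 : H1 ≤ 3 / 2 := by
      by_contra h4
      have h5 := sq_lt_of2 (by norm_num) (not_le.1 h4)
      linarith
    linarith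
  · by_contra h4
    have h5 : 6 / 5 * z < H1 := by linarith
    have h6 : (6 / 5 * z) ^ 2 < H1 ^ 2 := sq_lt_of2 (by linarith) h5
    have h7 : 0 ≤ (z - 5 / 4) * z := mul_nonneg (by linarith) (by linarith)
    linarith

/-- vertex `(1 / τ, b0)` -/
theorem V2r {T μ H1 H2 m κ κ' Q W : ℝ} (hT : T = μ * H2) (hT2 : 2 ≤ T) (hH2 : 1 ≤ H2)
    (h2s : H2 = 1 ∨ 2 ≤ H2 ^ 2) (hms : m = 0 ∨ 1 ≤ m) (nh : H1 ^ 2 = 1 + H2 * m) (hH1 : 1 ≤ H1)
    (hμ : μ ^ 2 = μ + 1 ∨ 3 ≤ μ ^ 2) (hμ8 : 8 / 5 ≤ μ) (hκ0 : 0 < κ) (hκ1 : κ ≤ 1)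
    (hκT : κ * (T - 1) ≤ 1)
    (hκ'3 : μ ≤ κ' * (μ ^ 2 - 1)) (hW : W = κ' * (T - 2 * κ) + κ * μ - H2 + m)
    (hQ : T ^ 2 - 1 ≤ Q * T) (hQκ : 1 ≤ Q * κ) : H1 ≤ Q * W := by
  have hμ2 : 1 < μ ^ 2 := by
    have := sq_lb2 (by norm_num) hμ8
    linarith
  have hQT : 3 / 4 * T ≤ Q := QT_lb hT2 hQ
  have hQ0 : 3 / 2 ≤ Q := by linarith
  -- `(μ ^ 2 - 1) W ≥ Z`
  obtain ⟨Z, hZ⟩ : ∃ Z, Z = H2 + (μ ^ 2 - 1) * m + κ * (μ * (μ ^ 2 - 3)) := ⟨_, rfl⟩
  have hZW : Z ≤ (μ ^ 2 - 1) * W := by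
    have h1 : μ * (T - 2 * κ) ≤ κ' * (μ ^ 2 - 1) * (T - 2 * κ) :=
      mul_le_mul_of_nonneg_right hκ'3 (by linarith)
    rw [hZ, hW]
    rw [hT] at h1 ⊢
    linarith
  suffices hh : H1 * (μ ^ 2 - 1) ≤ Q * Z by
    have h1 : Q * Z ≤ Q * ((μ ^ 2 - 1) * W) := mul_le_mul_of_nonneg_left hZW (by linarith)
    have h2 : (μ ^ 2 - 1) * H1 ≤ (μ ^ 2 - 1) * (Q * W) := by linarith
    exact le_of_mul_le_mul_left h2 (by linarith)
  -- `Q H2 μ ≥ T ^ 2 - 1`
  have hQH : T ^ 2 - 1 ≤ Q * H2 * μ := by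
    rw [hT] at hQ ⊢
    linarith
  rcases hμ with hμφ | hμ3
  · -- `μ` golden
    have hμ1 : μ ≤ 81 / 50 := golden_ub2 hμφ hμ8
    have e1 : μ * (μ ^ 2 - 3) = -(μ - 1) := by
      linear_combination (μ + 1) * hμφ
    rw [hZ, e1]
    rcases hms with hm | hm
    · have hH : H1 = 1 := by
        rw [hm] at nh
        exact eq_one_of_sq12 nh hH1
      have hH22 : 2 ≤ H2 ^ 2 := by
        rcases h2s with h | h
        · exfalso
          rw [h] at hT
          linarith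
        · exact h
      have hH2' : 141 / 100 ≤ H2 := lb_of_sq2 (by linarith) (by linarith)
      have hT' : 9 / 4 ≤ T := by
        rw [hT]
        have := mul_le_mul hμ8 hH2' (by norm_num) (by linarith)
        linarith
      have hκ8 : κ ≤ 4 / 5 := by
        have h3 : κ * (5 / 4) ≤ κ * (T - 1) := mul_le_mul_of_nonneg_left (by linarith) hκ0.le
        linarith
      have hQ' : 9 / 5 ≤ Q := by
        by_contra h
        have h3 : Q * T ≤ 9 / 5 * T := mul_le_mul_of_nonneg_right (not_le.1 h).le (by linarith)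
        have h4 : 0 ≤ (T - 9 / 4) * T := mul_nonneg (by linarith) (by linarith)
        linarith
      rw [hH, hm]
      have h1 : 9 / 10 ≤ H2 - κ * (μ - 1) := by
        have := mul_le_mul hκ8 (by linarith : μ - 1 ≤ 62 / 100) (by linarith) (by norm_num)
        linarith
      have h2 : 9 / 5 * (9 / 10) ≤ Q * (H2 - κ * (μ - 1)) := mul_le_mul hQ' h1 (by norm_num) (by linarith)
      linarith
    · have h1 := H1_le_Qm hT hT2 hH2 hm nh hH1 hμ8 hQ
      have h2 : 0 ≤ Q * (H2 - κ * (μ - 1)) := by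
        refine mul_nonneg (by linarith) ?_
        have := mul_le_mul hκ1 (by linarith : μ - 1 ≤ 62 / 100) (by linarith) (by norm_num)
        linarith
      have h3 := mul_le_mul_of_nonneg_right h1 (by linarith : 0 ≤ μ ^ 2 - 1)
      linarith
  · have h0 : 0 ≤ μ * (μ ^ 2 - 3) := mul_nonneg (by linarith) (by linarith)
    have h1 := mul_le_mul_of_nonneg_right hQκ h0
    rcases hms with hm | hm
    · have hH : H1 = 1 := by
        rw [hm] at nh
        exact eq_one_of_sq12 nh hH1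
      rw [hZ, hm, hH]
      -- `μ (μ ^ 2 - 1) ≤ T ^ 2 - 1 + μ ^ 2 (μ ^ 2 - 3)`
      have h2 : μ * (μ ^ 2 - 1) ≤ T ^ 2 - 1 + μ * (μ * (μ ^ 2 - 3)) := by
        rcases le_total 2 μ with h3 | h3
        · have h4 : μ ^ 2 ≤ T ^ 2 := by
            rw [hT, mul_pow]
            have : 1 ≤ H2 ^ 2 := one_le_pow₀ hH2
            exact le_mul_of_one_le_right (sq_nonneg μ) this
          have h5 : 0 ≤ μ ^ 2 * ((μ - 2) * (μ + 1)) := by
            have := mul_nonneg (by linarith : 0 ≤ μ - 2) (by linarith : 0 ≤ μ + 1)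
            positivity
          have h6 := sq_lb2 (by norm_num) h3
          linarith
        · have h22 : 2 ≤ H2 ^ 2 ∨ μ = 2 := by
            rcases h2s with h | h
            · right
              rw [h] at hT
              linarith
            · exact Or.inl h
          rcases h22 with h22 | h22
          · have h4 : 2 * μ ^ 2 ≤ T ^ 2 := by
              rw [hT, mul_pow]
              have := mul_le_mul_of_nonneg_left h22 (sq_nonneg μ)
              linarith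
            have h5 : 0 ≤ μ ^ 2 * (μ ^ 2 - μ - 1) := by
              refine mul_nonneg (sq_nonneg _) ?_
              linarith
            linarith
          · rw [h22]
            have := sq_lb2 (by norm_num) hT2
            linarith
      have h3 : μ * (1 * (μ ^ 2 - 1)) ≤ μ * (Q * (H2 + (μ ^ 2 - 1) * 0 + κ * (μ * (μ ^ 2 - 3)))) := by
        have h4 := mul_le_mul_of_nonneg_left h1 (by linarith : 0 ≤ μ)
        linarith
      exact le_of_mul_le_mul_left h3 (by linarith)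
    · have h2 := H1_le_Qm hT hT2 hH2 hm nh hH1 hμ8 hQ
      have h3 := mul_le_mul_of_nonneg_right h2 (by linarith : 0 ≤ μ ^ 2 - 1)
      have h4 : 0 ≤ Q * H2 := by positivity
      rw [hZ]
      linarith

end Pool.Agent.Helper18.DY
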