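import Mathlib

/-!
# NG, `b1 = 0`, `T ≥ 2`, indices `i, j ≥ 4`: the vertex inequalities (MP_d13a5e_al)
-/

set_option autoImplicit false

namespace Pool.Agent.Helper18.DY

/-- small facts, to keep the big proof fast -/
theorem sq_lb3 {a c : ℝ} (hc : 0 ≤ c) (h : c ≤ a) : c ^ 2 ≤ a ^ 2 := pow_le_pow_left₀ hc h 2

theorem sq_lt_of3 {a c : ℝ} (hc : 0 ≤ c) (h : c < a) : c ^ 2 < a ^ 2 := pow_lt_pow_left₀ h hc (by norm_num)

theorem eq_one_of_sq13 {a b : ℝ} (h : a ^ 2 = 1 + b * 0) (h1 : 1 ≤ a) : a = 1 := by nlinarith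

theorem lb_of_sq3 {a c : ℝ} (ha : 0 ≤ a) (h : c ^ 2 ≤ a ^ 2) : c ≤ a := by
  by_contra h1
  have := sq_lt_of3 ha (not_le.1 h1)
  linarith

/-- vertex `(a0, 1 / y)`, `j ≥ 5`; `e = a0 ^ 2` -/
theorem V1r5 {T μ H1 H2 m κ κ' y S W e : ℝ} (hT : T = μ * H2) (hT2 : 2 ≤ T) (hH2 : 1 ≤ H2)
    (h2s : H2 = 1 ∨ 2 ≤ H2 ^ 2) (hms : m = 0 ∨ 1 ≤ m) (nh : H1 ^ 2 = 1 + H2 * m) (hH1 : 1 ≤ H1)
    (hμ3 : 3 ≤ μ ^ 2) (hμ0 : 0 < μ) (hκ0 : 0 < κ) (hκ1 : κ ≤ 1) (hκT : κ * (T - κ) ≤ 1)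
    (hy0 : 0 < y) (_hy1 : y ≤ 1) (hyμ : 1 ≤ μ * y) (hS0 : 0 < S)
    (hyS3 : 1 ≤ y * (S * (μ * κ' - 1))) (hyS : 1 ≤ y * S)
    (hD : 0 ≤ μ - 2 * κ' ∨ (μ < 2 ∧ 0 ≤ μ - 2 * κ' + (μ * κ' - 1)))
    (hW : W = κ' * (T - 2 * κ) + κ * μ - H2 + m) (_he0 : 0 ≤ e) (he1 : e ≤ 1 / 9) :
    H1 * (1 - y ^ 2 * (1 - e)) ≤ y * S * W := by
  have eW : y * S * W = H2 * (y * (S * (μ * κ' - 1))) + m * (y * S) + κ * (y * S) * (μ - 2 * κ') := by
    rw [hW, hT]
    ring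
  have hHm : H1 ≤ H2 + m := by
    have hm0 : 0 ≤ m := by rcases hms with h | h <;> linarith
    by_contra h
    have h1 : (H2 + m) ^ 2 < H1 ^ 2 := sq_lt_of3 (by linarith) (not_le.1 h)
    have h2 : 0 ≤ H2 * m := mul_nonneg (by linarith) hm0
    have h3 := sq_lb3 (by norm_num) hH2
    have h4 := sq_nonneg m
    linarith
  have hm0 : 0 ≤ m := by rcases hms with h | h <;> linarith
  have k1 : H2 * 1 ≤ H2 * (y * (S * (μ * κ' - 1))) := mul_le_mul_of_nonneg_left hyS3 (by linarith)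
  have k2 : m * 1 ≤ m * (y * S) := mul_le_mul_of_nonneg_left hyS hm0
  have hye : 0 ≤ y ^ 2 * (1 - e) := mul_nonneg (sq_nonneg _) (by linarith)
  rcases hD with hD | ⟨hμ2, hD⟩
  · have k3 : 0 ≤ κ * (y * S) * (μ - 2 * κ') := by positivity
    have k4 : 0 ≤ H1 * (y ^ 2 * (1 - e)) := mul_nonneg (by linarith) hye
    rw [eW]
    linarith
  · have hH22 : 2 ≤ H2 ^ 2 := by
      rcases h2s with h | h
      · exfalso
        rw [h] at hT
        linarith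
      · exact h
    have hT6 : 6 ≤ T ^ 2 := by
      rw [hT, mul_pow]
      have := mul_le_mul hμ3 hH22 (by norm_num) (by positivity)
      linarith
    have hT' : 244 / 100 ≤ T := lb_of_sq3 (by linarith) (by linarith)
    have hκ57 : κ ≤ 57 / 100 := by
      by_contra h
      rw [not_le] at h
      have h1 : 0 ≤ (κ - 57 / 100) * (T - κ - 57 / 100) := mul_nonneg (by linarith) (by linarith)
      linarith
    have hH2' : 141 / 100 ≤ H2 := lb_of_sq3 (by linarith) (by linarith)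
    have hy2 : 1 / 2 ≤ y := by
      by_contra h
      rw [not_le] at h
      have h1 : μ * y ≤ 2 * y := mul_le_mul_of_nonneg_right hμ2.le hy0.le
      linarith
    have hyy : 2 / 9 ≤ y ^ 2 * (1 - e) := by
      have h1 : 1 / 4 ≤ y ^ 2 := by
        have := sq_lb3 (by norm_num) hy2
        linarith
      have h2 := mul_le_mul h1 (by linarith : 8 / 9 ≤ 1 - e) (by norm_num) (sq_nonneg y)
      linarith
    -- `κ y S (μ - 2 κ') ≥ - κ y S3`
    have k3 : -(κ * (y * (S * (μ * κ' - 1)))) ≤ κ * (y * S) * (μ - 2 * κ') := by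
      have : 0 ≤ κ * (y * S) * (μ - 2 * κ' + (μ * κ' - 1)) := by positivity
      linarith
    have k4 : (H2 - κ) * 1 ≤ (H2 - κ) * (y * (S * (μ * κ' - 1))) :=
      mul_le_mul_of_nonneg_left hyS3 (by linarith)
    have k5 : H1 * (1 - y ^ 2 * (1 - e)) ≤ H1 * (7 / 9) := mul_le_mul_of_nonneg_left (by linarith) (by linarith)
    have k6 : H1 * (7 / 9) ≤ H2 - κ + m := by
      rcases hms with hm | hm
      · have hH : H1 = 1 := by
          rw [hm] at nh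
          exact eq_one_of_sq13 nh hH1
        rw [hH, hm]
        linarith
      · have h1 : H1 ≤ H2 + m - 57 / 100 := by
          by_contra h
          rw [not_le] at h
          have h2 : (H2 + m - 57 / 100) ^ 2 < H1 ^ 2 := sq_lt_of3 (by linarith) h
          have h3 : 0 ≤ (H2 - 141 / 100) * (m - 1) := mul_nonneg (by linarith) (by linarith)
          clear h hW hT hT2 eW hT6 hT' hκT hD hyS3 hyS k1 k2 k3 k4 k5 hye hyy hyμ hκ57 hκ0 hκ1 hμ3 hμ0 hμ2 hS0 hy0 hy2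
          nlinarith
        linarith
    rw [eW]
    linarith

end Pool.Agent.Helper18.DY
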