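import Mathlib

/-!
# NG, `b1 = 0`, `T ≥ 2`, indices `i, j ≥ 4`: the vertex inequalities (MP_d13a5e_al)
-/

set_option autoImplicit false

namespace Pool.Agent.Helper18.DY

/-- small facts, to keep the big proof fast -/
theorem sq_lb {a c : ℝ} (hc : 0 ≤ c) (h : c ≤ a) : c ^ 2 ≤ a ^ 2 := pow_le_pow_left₀ hc h 2

theorem eq_one_of_sq1 {a b : ℝ} (h : a ^ 2 = 1 + b * 0) (h1 : 1 ≤ a) : a = 1 := by nlinarith only [h, h1]

theorem golden_ub {μ : ℝ} (h : μ ^ 2 = μ + 1) (h1 : 8 / 5 ≤ μ) : μ ≤ 81 / 50 := by nlinarith only [h]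

theorem golden_lb {μ : ℝ} (h : μ ^ 2 = μ + 1) (h1 : 8 / 5 ≤ μ) : 1618 / 1000 ≤ μ := by nlinarith only [h, h1]

theorem sq_lt_of {a c : ℝ} (hc : 0 ≤ c) (h : c < a) : c ^ 2 < a ^ 2 := pow_lt_pow_left₀ h hc (by norm_num)

theorem lb_of_sq {a c : ℝ} (ha : 0 ≤ a) (h : c ^ 2 ≤ a ^ 2) : c ≤ a := by
  by_contra h1
  have := sq_lt_of ha (not_le.1 h1)
  linarith only [h, this]

/-- vertex `(a0, 1 / y)`, `j = 4`; `e = a0 ^ 2`, `ε = 1 / P ^ 2` -/
theorem V1r4 {T μ H1 H2 m κ κ' y S W e ε : ℝ} (hT : T = μ * H2) (hT2 : 2 ≤ T) (hH2 : 1 ≤ H2)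
    (h2s : H2 = 1 ∨ 2 ≤ H2 ^ 2) (hms : m = 0 ∨ 1 ≤ m) (nh : H1 ^ 2 = 1 + H2 * m) (hH1 : 1 ≤ H1)
    (hμ : μ ^ 2 = μ + 1 ∨ 3 ≤ μ ^ 2) (hμ8 : 8 / 5 ≤ μ) (hκ0 : 0 < κ) (hκ1 : κ ≤ 1)
    (hκT : κ * T ≥ 1) (hκT1 : κ * (T - 1) ≤ 1) (hε : ε = κ ^ 2 - T * κ + 1) (hε0 : 0 ≤ ε)
    (hε1 : ε * (T ^ 2 - 1) ^ 2 ≤ 1)
    (hy : y * μ = 1) (hS : S = μ ^ 2 - 1) (hκ' : κ' * (μ ^ 2 - 1) = μ)
    (hW : W = κ' * (T - 2 * κ) + κ * μ - H2 + m) (he : e * H1 ^ 2 = ε) :
    H1 * (1 - y ^ 2 * (1 - e)) ≤ y * S * W := by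
  have hμ0 : 0 < μ := by linarith only [hμ8]
  have hμ2 : 1 < μ ^ 2 := by
    have := sq_lb (by norm_num) hμ8
    linarith only [this]
  have hH12 : 1 ≤ H1 ^ 2 := one_le_pow₀ hH1
  have hε9 : ε ≤ 1 / 9 := by
    have h1 : 3 ≤ T ^ 2 - 1 := by
      have := sq_lb (by norm_num) hT2
      linarith only [this]
    have h2 : 9 ≤ (T ^ 2 - 1) ^ 2 := by
      have := sq_lb (by norm_num) h1
      linarith only [this]
    have h3 : ε * 9 ≤ ε * (T ^ 2 - 1) ^ 2 := mul_le_mul_of_nonneg_left h2 hε0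
    linarith only [hε1, h3]
  have he0 : 0 ≤ e := by
    by_contra h
    have := mul_neg_of_neg_of_pos (not_le.1 h) (by linarith only [hH12] : 0 < H1 ^ 2)
    linarith only [hε0, he, this]
  have heH : H1 * e ≤ ε := by
    rw [← he]
    have : H1 * e * 1 ≤ H1 * e * H1 := mul_le_mul_of_nonneg_left hH1 (by positivity)
    linarith
  -- multiply by `μ ^ 2`
  obtain ⟨Z, hZ⟩ : ∃ Z, Z = H2 + (μ ^ 2 - 1) * m + κ * (μ * (μ ^ 2 - 3)) := ⟨_, rfl⟩
  have eSW : S * W = Z := by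
    rw [hS, hW, hZ, hT]
    linear_combination (μ * H2 - 2 * κ) * hκ'
  suffices hh : H1 * (μ ^ 2 - 1) + H1 * e ≤ μ * Z by
    have e1 : μ ^ 2 * (H1 * (1 - y ^ 2 * (1 - e))) = H1 * (μ ^ 2 - 1) + H1 * e := by
      linear_combination (-H1 * (1 - e) * (y * μ + 1)) * hy
    have e2 : μ ^ 2 * (y * S * W) = μ * Z := by
      have : μ ^ 2 * (y * S * W) = μ * (y * μ) * (S * W) := by ring
      rw [this, hy, eSW]
      ring
    have h1 : μ ^ 2 * (H1 * (1 - y ^ 2 * (1 - e))) ≤ μ ^ 2 * (y * S * W) := by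
      rw [e1, e2]
      exact hh
    exact le_of_mul_le_mul_left h1 (by positivity)
  have hz : 0 ≤ H2 * m := by
    rcases hms with h | h
    · rw [h]; simp
    · positivity
  rcases hms with hm | hm
  · have hH : H1 = 1 := by
      rw [hm] at nh
      exact eq_one_of_sq1 nh hH1
    rw [hH] at heH ⊢
    rw [hZ, hm]
    rcases hμ with hμφ | hμ3
    · -- golden
      have hμ1 : μ ≤ 81 / 50 := golden_ub hμφ hμ8
      have hμ1' : 1618 / 1000 ≤ μ := golden_lb hμφ hμ8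
      have hH22 : 2 ≤ H2 ^ 2 := by
        rcases h2s with h | h
        · exfalso
          rw [h] at hT
          linarith only [hT, hT2, hμ1]
        · exact h
      have hH2' : 1414 / 1000 ≤ H2 := lb_of_sq (by linarith only [hH2]) (by linarith only [hH22])
      have hT' : 2287 / 1000 ≤ T := by
        rw [hT]
        have := mul_le_mul hμ1' hH2' (by norm_num) hμ0.le
        linarith only [this]
      have hκ6 : κ ≤ 3 / 5 := by
        by_contra h
        rw [not_le] at h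
        have h1 : κ ≤ 4 / 5 := by
          have h3 : κ * (1287 / 1000) ≤ κ * (T - 1) := mul_le_mul_of_nonneg_left (by linarith only [hT']) hκ0.le
          linarith only [hκT1, h3]
        have h2 : 0 ≤ (κ - 3 / 5) * (T - κ - 3 / 5) := mul_nonneg (by linarith only [h]) (by linarith only [hT', h1])
        linarith only [hε, hε0, hT', h2]
      have hε6 : ε ≤ 6 / 100 := by
        have h1 : 42 / 10 ≤ T ^ 2 - 1 := by
          have := sq_lb (by norm_num) hT'
          linarith only [this]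
        have h2 : 1764 / 100 ≤ (T ^ 2 - 1) ^ 2 := by
          have := sq_lb (by norm_num) h1
          linarith only [this]
        have h3 : ε * (1764 / 100) ≤ ε * (T ^ 2 - 1) ^ 2 := mul_le_mul_of_nonneg_left h2 hε0
        linarith only [hε1, h3]
      have hTμ : 669 / 1000 ≤ T - μ := by
        rw [hT]
        have := mul_le_mul hμ1' (by linarith only [hH2'] : 414 / 1000 ≤ H2 - 1) (by norm_num) hμ0.le
        linarith only [this]
      have e1 : μ * (H2 + (μ ^ 2 - 1) * 0 + κ * (μ * (μ ^ 2 - 3))) = T - κ := by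
        rw [hT]
        linear_combination (κ * (μ ^ 2 + μ - 1)) * hμφ
      rw [e1]
      linarith only [heH, hμφ, hκ6, hε6, hTμ]
    · -- `μ ^ 2 ≥ 3`
      have hκl : μ * (μ ^ 2 - 3) ≤ κ * (μ * (μ ^ 2 - 3)) * T := by
        have h1 : 0 ≤ μ * (μ ^ 2 - 3) := mul_nonneg hμ0.le (by linarith only [hμ3])
        have := mul_le_mul_of_nonneg_right hκT h1
        linarith only [this]
      have hmain : (μ ^ 2 - 1 + ε) * H2 ≤ μ * H2 ^ 2 + μ * (μ ^ 2 - 3) := by
        rcases le_total 2 μ with h3 | h3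
        · have h4 : (μ ^ 2 - 1 + 1 / 9) * H2 ≤ μ * H2 ^ 2 + μ * (μ ^ 2 - 3) := by
            -- discriminant
            have h5 : 0 ≤ 4 * μ * (μ * (μ ^ 2 - 3)) - (μ ^ 2 - 8 / 9) ^ 2 := by
              have h60 : 2 ^ 2 ≤ μ ^ 2 := pow_le_pow_left₀ (by norm_num) h3 2
              have h6 : 0 ≤ (μ ^ 2 - 4) * (3 * μ ^ 2 + 1) := mul_nonneg (by linarith only [h60]) (by positivity)
              linarith only [h60, h6]
            have h6 : 0 ≤ (2 * μ * H2 - (μ ^ 2 - 8 / 9)) ^ 2 := sq_nonneg _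
            have h7 : 0 ≤ 4 * μ * (μ * H2 ^ 2 + μ * (μ ^ 2 - 3) - (μ ^ 2 - 8 / 9) * H2) := by linarith only [h5, h6]
            have h8 := (mul_nonneg_iff_of_pos_left (by positivity : 0 < 4 * μ)).1 h7
            linarith only [h8]
          have h5 : ε * H2 ≤ 1 / 9 * H2 := mul_le_mul_of_nonneg_right hε9 (by linarith only [hH2])
          linarith only [h4, h5]
        · have h22 : 2 ≤ H2 ^ 2 ∨ μ = 2 := by
            rcases h2s with h | h
            · right
              rw [h] at hT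
              linarith only [hT, hT2, h3]
            · exact Or.inl h
          have h5 : ε * H2 ≤ 1 / 9 * H2 := mul_le_mul_of_nonneg_right hε9 (by linarith only [hH2])
          rcases h22 with h22 | h22
          · have hH2' : 7 / 5 ≤ H2 := lb_of_sq (by linarith only [hH2]) (by linarith only [h22])
            have hμ17 : 17 / 10 ≤ μ := lb_of_sq hμ0.le (by linarith only [hμ3])
            -- `μ H2 ^ 2 ≥ 7/5 μ H2`, `f` increasing
            have h6 : 0 ≤ (H2 - 7 / 5) * (μ * (H2 + 7 / 5) - (μ ^ 2 - 8 / 9)) := by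
              refine mul_nonneg (by linarith only [hH2']) ?_
              have h8 : 0 ≤ μ * (H2 - 7 / 5) := mul_nonneg hμ0.le (by linarith only [hH2'])
              have h9 : 0 ≤ μ * (2 - μ) := mul_nonneg hμ0.le (by linarith only [h3])
              linarith only [hμ17, h8, h9]
            have h7 : (μ ^ 2 - 8 / 9) * (7 / 5) ≤ μ * (7 / 5) ^ 2 + μ * (μ ^ 2 - 3) := by
              have h8 : 0 ≤ (μ - 17 / 10) * (μ * (μ - 17 / 10)) :=
                mul_nonneg (by linarith only [hμ17]) (mul_nonneg hμ0.le (by linarith only [hμ17]))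
              have h9 : 0 ≤ (μ - 17 / 10) * (2 - μ) := mul_nonneg (by linarith only [hμ17]) (by linarith only [h3])
              nlinarith only [h8, h9]
            linarith only [h5, h6, h7]
          · rw [h22]
            have h6 := sq_nonneg (H2 - 1)
            linarith only [hH2, h5, h6]
      have h4 : H2 * (1 * (μ ^ 2 - 1) + 1 * e) ≤ H2 * (μ * (H2 + (μ ^ 2 - 1) * 0 + κ * (μ * (μ ^ 2 - 3)))) := by
        have h5 : H2 * (1 * e) ≤ H2 * ε := mul_le_mul_of_nonneg_left heH (by linarith only [hH2])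
        rw [hT] at hκl
        linarith only [hκl, hmain, h5]
      exact le_of_mul_le_mul_left h4 (by linarith only [hH2])
  · -- `m ≥ 1`
    have hκ00 : κ ≤ 1 := hκ1
    obtain ⟨z, hzd⟩ : ∃ z, z = H2 * m := ⟨_, rfl⟩
    have hz1 : 1 ≤ z := by rw [hzd]; exact one_le_mul_of_one_le_of_one_le hH2 hm
    rcases hμ with hμφ | hμ3
    · have hμ1 : μ ≤ 81 / 50 := golden_ub hμφ hμ8
      have e1 : μ * Z = μ * H2 + μ ^ 2 * m - κ := by
        rw [hZ]
        linear_combination (κ * (μ ^ 2 + μ - 1) + μ * m) * hμφ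
      have e2 : μ ^ 2 - 1 = μ := by linarith only [hμφ]
      rw [e1, e2]
      -- `μ (H2 + μ m) - 1 - 1/9 ≥ μ H1`
      have h1 : H1 ≤ H2 + μ * m - 7 / 10 := by
        by_contra h
        rw [not_le] at h
        have h2 : (H2 + μ * m - 7 / 10) ^ 2 < H1 ^ 2 := by
          have : 0 ≤ H2 + μ * m - 7 / 10 := by
            have h5 : 0 ≤ μ * m := by positivity
            linarith only [hH2, h5]
          exact sq_lt_of this h
        have h3 : 0 ≤ (H2 - 1) * (m - 1) := mul_nonneg (by linarith only [hH2]) (by linarith only [hm])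
        have h4 : 0 ≤ (μ - 8 / 5) * m := mul_nonneg (by linarith only [hμ8]) (by linarith only [hm])
        have h5 : 0 ≤ (H2 - 1) * ((μ - 8 / 5) * m) := mul_nonneg (by linarith only [hH2]) h4
        clear h hZ hW eSW hκ' hy hε1 hε9 heH hκT hκT1 he hε hz hz1 hzd hS hμ2 hε0 he0 hκ1 hκ00 hH12 hT2 hκ0 h2s
        nlinarith only [hH2, nh, hμ8, hm, e2, h2, sq_nonneg (H2 - 1), sq_nonneg (μ * m - 1)]
      have h2 : μ * H1 ≤ μ * (H2 + μ * m - 7 / 10) := mul_le_mul_of_nonneg_left h1 hμ0.le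
      linarith only [hμ8, hκ1, hε9, heH, h2]
    · have h0 : 0 ≤ κ * (μ * (μ ^ 2 - 3)) := mul_nonneg hκ0.le (mul_nonneg hμ0.le (by linarith only [hμ3]))
      have h1 : μ * (H2 + (μ ^ 2 - 1) * m) ≤ μ * Z := mul_le_mul_of_nonneg_left (by rw [hZ]; linarith only [h0]) hμ0.le
      refine le_trans ?_ h1
      -- squares
      have h2 : H1 * (μ ^ 2 - 1) + H1 * e ≤ H1 * (μ ^ 2 - 8 / 9) := by
        have : H1 * e ≤ H1 * (1 / 9) := by linarith only [hH1, hε9, heH]
        linarith only [this]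
      refine le_trans h2 ?_
      by_contra h
      rw [not_le] at h
      have h3 : (μ * (H2 + (μ ^ 2 - 1) * m)) ^ 2 < (H1 * (μ ^ 2 - 8 / 9)) ^ 2 := by
        have h4 : 0 ≤ μ * (H2 + (μ ^ 2 - 1) * m) := by
          have : 0 ≤ (μ ^ 2 - 1) * m := mul_nonneg (by linarith only [hμ3]) (by linarith only [hm])
          positivity
        exact pow_lt_pow_left₀ h h4 (by norm_num)
      have h4 : 4 * μ ^ 2 * (μ ^ 2 - 1) * z ≤ (μ * (H2 + (μ ^ 2 - 1) * m)) ^ 2 := by
        have h5 : 0 ≤ μ ^ 2 * (H2 - (μ ^ 2 - 1) * m) ^ 2 := by positivity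
        rw [hzd]
        linarith only [h5]
      have h5 : (H1 * (μ ^ 2 - 8 / 9)) ^ 2 = (1 + z) * (μ ^ 2 - 8 / 9) ^ 2 := by
        rw [mul_pow, nh, hzd]
      rw [h5] at h3
      have h6 : (1 + z) * (μ ^ 2 - 8 / 9) ^ 2 ≤ 2 * z * (μ ^ 2 - 8 / 9) ^ 2 :=
        mul_le_mul_of_nonneg_right (by linarith only [hz1]) (sq_nonneg _)
      have h7 : 2 * (μ ^ 2 - 8 / 9) ^ 2 ≤ 4 * μ ^ 2 * (μ ^ 2 - 1) := by
        have h8 : 0 ≤ (μ ^ 2 - 3) ^ 2 := sq_nonneg _
        linarith only [hμ3, h8]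
      have h8 := mul_le_mul_of_nonneg_right h7 (by linarith only [hz1] : 0 ≤ z)
      linarith only [h3, h4, h6, h8]

end Pool.Agent.Helper18.DY
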