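import Pool.Agent.Helper18.DY.NGi

/-!
# NG, `b1 = 0`, `T < 2`: the sign change in a finite pencil (MP_d13a5e_al)

`E n = s_(n+1) g - s_n K0`; at the first `n ≥ k` with `E n ≤ 0` one has `g = s_n p + s_(n-1) q`,
`2 c g - K0 = s_(n-1) p + s_(n-2) q` with `p = E (n-1)`, `q = - E n`.
-/

set_option autoImplicit false

namespace Pool.Agent.Helper18.DY

open _root_.DY (sq sq_zero sq_one sq_two sq_succ sq_cassini sq_norm sq_le_succ sq_docagne)
open Pool.Agent.Helper57.DY (sq_ge_l)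

/-- `τ (s_(n+1) + 1) ≤ s_n` is inherited -/
theorem fstep {c τ : ℝ} {n : ℕ} (h0 : 0 ≤ sq c n) (h1 : 0 ≤ sq c (n + 1)) (h2 : 0 ≤ sq c (n + 2))
    (hf : τ * (sq c (n + 1) + 1) ≤ sq c n) : τ * (sq c (n + 2) + 1) ≤ sq c (n + 1) := by
  have ca := sq_cassini c n
  have hl := sq_le_succ h0 h1
  have h3 : (sq c (n + 2) + 1) * (τ * (sq c (n + 1) + 1)) ≤ (sq c (n + 2) + 1) * sq c n :=
    mul_le_mul_of_nonneg_left hf (by linarith)
  have h4 : (sq c (n + 1) + 1) * (τ * (sq c (n + 2) + 1)) ≤ (sq c (n + 1) + 1) * sq c (n + 1) := by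
    nlinarith
  exact le_of_mul_le_mul_left h4 (by linarith)

/-- **sign change** -/
theorem sgn_ch {c g K0 τ w : ℝ} {l M : ℕ} (hc : 0 ≤ c) (hM : sq c (M + 2) = 0)
    (h1 : ∀ i ≤ M, 1 ≤ sq c (i + 1)) (hlM : l + 3 ≤ M) (hK0 : 0 < K0) (hw : 0 ≤ w)
    (hd : ∀ n, 0 < sq c (n + 1) * g - sq c n * K0 → w ≤ sq c (n + 1) * g - sq c n * K0)
    (h0 : 0 < sq c (l + 3) * g - sq c (l + 2) * K0) (hτ : τ = (sq c (l + 3) - 1) / sq c (l + 4)) :
    τ * w ≤ (2 * c * g - K0) - τ * g := by
  classical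
  have hnn : ∀ i ≤ M + 2, 0 ≤ sq c i := by
    intro i hi
    rcases Nat.eq_zero_or_pos i with h | h
    · rw [h, sq_zero]
    · obtain ⟨j, rfl⟩ : ∃ j, i = j + 1 := ⟨i - 1, by omega⟩
      rcases Nat.lt_or_ge j (M + 1) with h2 | h2
      · linarith [h1 j (by omega)]
      · have : j = M + 1 := by omega
        rw [this]
        exact hM.ge
  have s3 : 1 ≤ sq c (l + 3) := h1 (l + 2) (by omega)
  have s4 : 1 ≤ sq c (l + 4) := h1 (l + 3) (by omega)
  have s2 : 1 ≤ sq c (l + 2) := h1 (l + 1) (by omega)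
  have hτ0 : 0 ≤ τ := by
    rw [hτ]
    exact div_nonneg (by linarith) (by linarith)
  have ca3 := sq_cassini c (l + 2)
  have i1 : l + 2 + 1 = l + 3 := rfl
  have i2 : l + 2 + 2 = l + 4 := rfl
  rw [i1, i2] at ca3
  have f0 : τ * (sq c (l + 3) + 1) = sq c (l + 2) := by
    rw [hτ]
    field_simp
    linear_combination ca3
  -- `f`
  have hf : ∀ r, l + 3 + r ≤ M + 1 → τ * (sq c (l + 3 + r) + 1) ≤ sq c (l + 2 + r) := by
    intro r
    induction r with
    | zero =>
      intro _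
      exact f0.le
    | succ r ih =>
      intro hr
      have h2 := ih (by omega)
      have h3 := fstep (c := c) (τ := τ) (n := l + 2 + r) (hnn _ (by omega)) (hnn _ (by omega)) (hnn _ (by omega))
        (by
          have e : l + 2 + r + 1 = l + 3 + r := by omega
          rw [e]
          exact h2)
      have e1 : l + 2 + r + 2 = l + 3 + (r + 1) := by omega
      have e2 : l + 2 + r + 1 = l + 2 + (r + 1) := by omega
      rw [e1, e2] at h3
      exact h3
  -- the first nonpositive value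
  have hex : ∃ r, sq c (l + 3 + r + 1) * g - sq c (l + 3 + r) * K0 ≤ 0 := by
    refine ⟨M - (l + 2), ?_⟩
    have e1 : l + 3 + (M - (l + 2)) + 1 = M + 2 := by omega
    have e2 : l + 3 + (M - (l + 2)) = M + 1 := by omega
    rw [e1, e2, hM]
    have := mul_nonneg (hnn (M + 1) (by omega)) hK0.le
    linarith
  have hspec := Nat.find_spec hex
  have hmin := fun k hk => Nat.find_min hex (m := k) hk
  obtain ⟨r, hr⟩ : ∃ r, r = Nat.find hex := ⟨_, rfl⟩
  have hrM : l + 3 + r ≤ M + 1 := by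
    by_contra hcon
    rw [not_le] at hcon
    have h2 : M - (l + 2) < Nat.find hex := by omega
    refine hmin _ h2 ?_
    have e1 : l + 3 + (M - (l + 2)) + 1 = M + 2 := by omega
    have e2 : l + 3 + (M - (l + 2)) = M + 1 := by omega
    rw [e1, e2, hM]
    have := mul_nonneg (hnn (M + 1) (by omega)) hK0.le
    linarith
  rw [← hr] at hspec hmin
  -- `p = E (n - 1) ≥ w`
  obtain ⟨p, hp⟩ : ∃ p, p = sq c (l + 3 + r) * g - sq c (l + 2 + r) * K0 := ⟨_, rfl⟩
  obtain ⟨q, hq⟩ : ∃ q, q = -(sq c (l + 4 + r) * g - sq c (l + 3 + r) * K0) := ⟨_, rfl⟩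
  have hp0 : 0 < p := by
    rw [hp]
    rcases Nat.eq_zero_or_pos r with h | h
    · rw [h]
      exact h0
    · have h2 := hmin (r - 1) (by omega)
      rw [not_le] at h2
      have e1 : l + 3 + (r - 1) + 1 = l + 3 + r := by omega
      have e2 : l + 3 + (r - 1) = l + 2 + r := by omega
      rw [e1, e2] at h2
      exact h2
  have hpw : w ≤ p := by
    rw [hp]
    have h2 := hd (l + 2 + r)
    have e1 : l + 2 + r + 1 = l + 3 + r := by omega
    rw [e1] at h2
    refine h2 ?_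
    rw [← hp]
    exact hp0
  have hq0 : 0 ≤ q := by
    rw [hq]
    have e1 : l + 3 + r + 1 = l + 4 + r := by omega
    rw [e1] at hspec
    linarith
  -- recurrences
  have j4 : sq c (l + 4 + r) = 2 * c * sq c (l + 3 + r) - sq c (l + 2 + r) := by
    have h2 := sq_succ c (l + 2 + r)
    have e1 : l + 2 + r + 2 = l + 4 + r := by omega
    have e2 : l + 2 + r + 1 = l + 3 + r := by omega
    rw [e1, e2] at h2
    exact h2
  have j3 : sq c (l + 3 + r) = 2 * c * sq c (l + 2 + r) - sq c (l + 1 + r) := by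
    have h2 := sq_succ c (l + 1 + r)
    have e1 : l + 1 + r + 2 = l + 3 + r := by omega
    have e2 : l + 1 + r + 1 = l + 2 + r := by omega
    rw [e1, e2] at h2
    exact h2
  have ca : sq c (l + 3 + r) ^ 2 - sq c (l + 2 + r) * sq c (l + 4 + r) = 1 := by
    have h2 := sq_cassini c (l + 2 + r)
    have e1 : l + 2 + r + 2 = l + 4 + r := by omega
    have e2 : l + 2 + r + 1 = l + 3 + r := by omega
    rw [e1, e2] at h2
    exact h2
  have eg : g = sq c (l + 3 + r) * p + sq c (l + 2 + r) * q := by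
    rw [hp, hq]
    linear_combination (-g) * ca
  have eK : 2 * c * g - K0 = sq c (l + 2 + r) * p + sq c (l + 1 + r) * q := by
    have e0 : K0 = sq c (l + 4 + r) * p + sq c (l + 3 + r) * q := by
      rw [hp, hq]
      linear_combination (-K0) * ca
    rw [e0]
    have e1 := eg
    have e2 : 2 * c * g = 2 * c * (sq c (l + 3 + r) * p + sq c (l + 2 + r) * q) := by rw [← e1]
    rw [e2, j4, j3]
    ring
  -- coefficient of `q`
  have hcq : 0 ≤ sq c (l + 1 + r) - τ * sq c (l + 2 + r) := by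
    rcases Nat.eq_zero_or_pos r with h | h
    · rw [h]
      have e1 : l + 1 + 0 = l + 1 := rfl
      have e2 : l + 2 + 0 = l + 2 := rfl
      rw [e1, e2]
      -- `s_(k-2) s_(k+1) - s_(k-1) s_k + s_(k-1) = s_(k-1) - 2 c`
      have hd2 := sq_docagne c (l + 1) 1
      have e3 : l + 1 + 1 + 1 = l + 3 := rfl
      have e4 : l + 1 + 1 = l + 2 := rfl
      have e5 : l + 1 + 2 + 1 = l + 4 := rfl
      have e6 : 1 + 1 = 2 := rfl
      rw [e3, e4, e5, e6, sq_two] at hd2
      have hge : 2 * c ≤ sq c (l + 2) := by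
        exact sq_ge_l hc (hnn l (by omega)) (by linarith) (by linarith)
      have h2 : sq c (l + 4) * (sq c (l + 1) - τ * sq c (l + 2)) = sq c (l + 2) - 2 * c := by
        have h3 : τ * sq c (l + 4) = sq c (l + 3) - 1 := by
          rw [hτ]
          field_simp
        linear_combination (-sq c (l + 2)) * h3 - hd2
      by_contra hcon
      have := mul_neg_of_pos_of_neg (by linarith : 0 < sq c (l + 4)) (not_le.1 hcon)
      linarith
    · have h2 := hf (r - 1) (by omega)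
      have e1 : l + 3 + (r - 1) = l + 2 + r := by omega
      have e2 : l + 2 + (r - 1) = l + 1 + r := by omega
      rw [e1, e2] at h2
      linarith
  have hcp : τ ≤ sq c (l + 2 + r) - τ * sq c (l + 3 + r) := by
    have h2 := hf r hrM
    linarith
  have h5 : τ * w ≤ (sq c (l + 2 + r) - τ * sq c (l + 3 + r)) * p :=
    mul_le_mul hcp hpw hw (by linarith)
  have h6 := mul_nonneg hcq hq0
  have e7 : (2 * c * g - K0) - τ * g = (sq c (l + 2 + r) - τ * sq c (l + 3 + r)) * p +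
      (sq c (l + 1 + r) - τ * sq c (l + 2 + r)) * q := by
    rw [eK]
    have : τ * g = τ * (sq c (l + 3 + r) * p + sq c (l + 2 + r) * q) := by rw [← eg]
    rw [this]
    ring
  rw [e7]
  linarith

/-- the value at `x_R` -/
theorem value_B {g η ζ μ τ y H1 : ℝ} (hg : 0 < g) (hη : 0 < η) (hζ : 0 < ζ) (hH : 1 ≤ H1)
    (hy1 : y ≤ 1) (hH1η : 1 ≤ H1 * η)
    (hN : g ^ 2 - 1 = η * (μ * g - (η + ζ)) + ζ * (μ * g - ζ) + (H1 ^ 2 - 1) * η * ζ)
    (h1 : τ * 1 ≤ (μ * g - (η + ζ)) - τ * g) (h2 : y * (1 / H1) ≤ (μ * g - ζ) - y * g) :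
    1 ≤ g - τ * η - y * ζ := by
  have hH0 : 0 < H1 := by linarith
  have e1 : (g + 1) * (g - τ * η - y * ζ - 1) = η * ((μ * g - (η + ζ)) - τ * g - τ) +
      ζ * ((μ * g - ζ) - y * g - y * (1 / H1)) + ζ * ((H1 ^ 2 - 1) * η - y * (1 - 1 / H1)) := by
    linear_combination hN
  have h3 : 0 ≤ η * ((μ * g - (η + ζ)) - τ * g - τ) := mul_nonneg hη.le (by linarith)
  have h4 : 0 ≤ ζ * ((μ * g - ζ) - y * g - y * (1 / H1)) := mul_nonneg hζ.le (by linarith)
  have h5 : 0 ≤ ζ * ((H1 ^ 2 - 1) * η - y * (1 - 1 / H1)) := by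
    refine mul_nonneg hζ.le ?_
    have h6 : H1 * ((H1 ^ 2 - 1) * η - y * (1 - 1 / H1)) =
        (H1 - 1) * ((H1 + 1) * (H1 * η) - y) := by
      field_simp
      ring
    have h7 : 0 ≤ (H1 - 1) * ((H1 + 1) * (H1 * η) - y) := by
      refine mul_nonneg (by linarith) ?_
      have : (H1 + 1) * 1 ≤ (H1 + 1) * (H1 * η) := mul_le_mul_of_nonneg_left hH1η (by linarith)
      linarith
    rw [← h6] at h7
    by_contra hcon
    have := mul_neg_of_pos_of_neg hH0 (not_le.1 hcon)
    linarith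
  have h8 : 0 ≤ (g + 1) * (g - τ * η - y * ζ - 1) := by
    rw [e1]
    linarith
  by_contra hcon
  have := mul_neg_of_pos_of_neg (by linarith : 0 < g + 1) (by linarith [not_le.1 hcon] : g - τ * η - y * ζ - 1 < 0)
  linarith

end Pool.Agent.Helper18.DY
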