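import Pool.Agent.Helper18.DY.NGk1
import Pool.Agent.Helper18.DY.NGk2
import Pool.Agent.Helper18.DY.NGiO

/-!
# NG, `b1 = 0`, indices `i, j ≥ 4` (MP_d13a5e_al)
-/

set_option autoImplicit false

namespace Pool.Agent.Helper18.DY

open _root_.DY (Z1 C01 Tri Str Loc Xs ORt OFA Good Canon sq sq_zero sq_one sq_two sq_succ sq_incr sq_mono
  sq_cassini sq_le_succ exists_form3 vol vol_comb det_ge)
open Pool.Agent.Helper62.DY (RT rt_of_tri refl_O)
open Pool.Agent.Helper57.DY (sq_ge_l eq_one_of_sq)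

/-- everything which follows from the root `h` -/
theorem h_facts0 {b1 b2 bO H1 H2 m : ℝ} {R : ℝ → ℝ → ℝ → Prop} (hR : RT b1 b2 bO R) (hh : R 0 H1 H2)
    (hh1 : 1 ≤ H1) (hh2 : 1 ≤ H2) (hm : m = 2 * bO * H1 - H2) :
    (m = 0 ∨ 1 ≤ m) ∧ H1 ^ 2 = 1 + H2 * m ∧ (H2 = 1 ∨ 2 ≤ H2 ^ 2) := by
  have n0 := hR.n _ _ _ hh
  have r2 := (hR.z1 (hR.r2 _ _ _ hh) (by linarith only [hh1])).2.2
  have r1 := (hR.z2 (hR.r1 _ _ _ hh) (by linarith only [hh2])).2.1
  have e2 : 2 * b2 * 0 + 2 * bO * H1 - H2 = 2 * bO * H1 - H2 := by ring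
  have e1 : 2 * b1 * 0 + 2 * bO * H2 - H1 = 2 * bO * H2 - H1 := by ring
  rw [e2] at r2
  rw [e1] at r1
  refine ⟨?_, ?_, ?_⟩
  · rw [hm]
    exact r2
  · rw [hm]
    linarith only [n0]
  · have nh' : H2 ^ 2 = 1 + H1 * (2 * bO * H2 - H1) := by linarith only [n0]
    rcases r1 with h | h
    · left
      exact eq_one_of_sq hh2 (by rw [nh', h]; ring)
    · right
      have := mul_le_mul hh1 h (by norm_num) (by linarith only [hh1])
      linarith only [nh', this]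

section

variable {E : Type*} [AddCommGroup E] [Module ℝ E] {Ψ : Set E} {B : E →ₗ[ℝ] E →ₗ[ℝ] ℝ}
  {ρ φ : E →ₗ[ℝ] ℝ} {t d1 d2 x x' : E} {g x1 x2 g' x1' x2' : ℝ}

/-- **NGi0**, indices `i ≥ 4` (`k ≥ 3`) and `j ≥ 4` (`k2 ≥ 3`) -/
theorem ngi0_44 {al1 al2 be1 be2 : ℝ} (X : Xs Ψ B ρ φ t d1 d2 x x' g x1 x2 g' x1' x2')
    (O : OFA Ψ B φ d1 d2 al1 al2 be1 be2) (hbe : 1 ≤ be1) (hu : x1 * be2 ≤ x2 * be1) (hg' : 1 ≤ g')
    (hb1 : B t d1 = 0) (hb2 : 1 / 2 ≤ -B t d2) {k2 : ℕ} (hk23 : 3 ≤ k2) (hk2 : Good (-B t d2) (φ d2) k2)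
    {k : ℕ} (hk : 3 ≤ k) (hkh : Good (be1 * -B t d1 + be2 * -B t d2) (be1 * φ d1 + be2 * φ d2) k) :
    False := by
  have rh := O.rh
  have fh := O.fh
  have L := X.L
  have hT := L.tri
  have h := rt_of_tri hT
  have hal : be2 = al1 := by
    linear_combination (al1 + B d1 d2 * al2) * O.det + al2 * O.adj - be2 * O.ra.nrm
  have hbe2 : 1 ≤ be2 := by
    rcases rh.z2 with h1 | h1
    · exfalso
      rw [h1] at fh
      have := mul_nonneg (by linarith only [hbe] : 0 ≤ be1) X.h1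
      linarith only [fh, this]
    · exact h1
  have hR : (0 : ℝ) • t + be1 • d1 + be2 • d2 ∈ Ψ := by
    have e : (0 : ℝ) • t + be1 • d1 + be2 • d2 = be1 • d1 + be2 • d2 := by module
    rw [e]
    exact rh.mem
  have hRa : (0 : ℝ) • t + al1 • d1 + al2 • d2 ∈ Ψ := by
    have e : (0 : ℝ) • t + al1 • d1 + al2 • d2 = al1 • d1 + al2 • d2 := by module
    rw [e]
    exact O.ra.mem
  have hx : g • t + x1 • d1 + x2 • d2 ∈ Ψ := by
    rw [← X.e]
    exact L.xm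
  have hSh := L.str_h rh
  have hS2 := L.str_2
  have hκ := X.h2
  have hfz := X.c.fz
  obtain ⟨η, hη⟩ : ∃ η, η = x1 / be1 := ⟨_, rfl⟩
  obtain ⟨ζ, hζd⟩ : ∃ ζ, ζ = x2 - be2 * η := ⟨_, rfl⟩
  have p1 := X.p1
  have hx1 : x1 = be1 * η := by
    rw [hη]
    field_simp
  have hx2 : x2 = ζ + be2 * η := by linarith only [hζd]
  have hη0 : 0 < η := by
    rw [hη]
    positivity
  have hgφ : g = η * -(be1 * φ d1 + be2 * φ d2) + -φ d2 * ζ := by
    rw [hfz, hx1, hx2]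
    ring
  have hζ0 : 0 ≤ ζ := by
    have e1 : be1 * ζ = x2 * be1 - x1 * be2 := by
      rw [hζd]
      rw [hη]
      field_simp
    have e2 : 0 ≤ be1 * ζ := by linarith only [hu, e1]
    by_contra hcon
    have := mul_neg_of_pos_of_neg (by linarith only [hbe] : 0 < be1) (not_le.1 hcon)
    linarith only [e2, this]
  have hηq := mul_pos hη0 (by linarith only [fh] : 0 < -(be1 * φ d1 + be2 * φ d2))
  have hκζ := mul_nonneg (by linarith only [hκ] : 0 ≤ -φ d2) hζ0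
  have hg0 : 0 < g := by linarith only [hgφ, hηq, hκζ]
  have hg1 := (h.z0 hx hg0).1
  have hζ : 0 < ζ := by
    rcases hζ0.lt_or_eq with h1 | h1
    · exact h1
    · exfalso
      have e1 : be1 • d1 + be2 • d2 = (1 / η) • x + (-(g / η)) • t := by
        rw [X.e, hx1, hx2, ← h1]
        match_scalars <;> field_simp <;> ring
      exact Pool.Agent.Helper62.DY.canon_neg L.cxt rh.mem e1 (by positivity) (by
        have : 0 < g / η := by positivity
        linarith only [this])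
  -- `φ a > 0`
  have hfa : 0 < al1 * φ d1 + al2 * φ d2 := by
    rcases O.fa.lt_or_eq with h1 | h1
    · exact h1
    · exact absurd h1.symm (Xs.phi_ne X hg1 hg' O.ra.mem)
  have hκe : be2 * -(be1 * φ d1 + be2 * φ d2) < -φ d2 := by
    have e1 : -φ d2 = be2 * -(be1 * φ d1 + be2 * φ d2) + be1 * (al1 * φ d1 + al2 * φ d2) := by
      have h1 := O.det
      rw [← hal] at h1 ⊢
      linear_combination (φ d2) * h1
    have h2 := mul_pos (by linarith only [hbe] : 0 < be1) hfa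
    linarith
  -- determinants
  have hsym : B t (be1 • d1 + be2 • d2) = -(be1 * -B t d1 + be2 * -B t d2) := by
    simp only [map_add, map_smul, smul_eq_mul]
    ring
  have dE : ∀ n, 0 < sq (be1 * -B t d1 + be2 * -B t d2) (n + 1) * g -
      sq (be1 * -B t d1 + be2 * -B t d2) n * (η + be2 * ζ) →
      1 ≤ sq (be1 * -B t d1 + be2 * -B t d2) (n + 1) * g -
      sq (be1 * -B t d1 + be2 * -B t d2) n * (η + be2 * ζ) := by
    intro n h0
    have h1 := (_root_.DY.pu_mem hT.sys hT.ha rh.mem hsym n).1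
    unfold _root_.DY.pu at h1
    obtain ⟨s0, hs0⟩ : ∃ s0, s0 = sq (be1 * -B t d1 + be2 * -B t d2) n := ⟨_, rfl⟩
    obtain ⟨s1, hs1⟩ : ∃ s1, s1 = sq (be1 * -B t d1 + be2 * -B t d2) (n + 1) := ⟨_, rfl⟩
    rw [← hs0, ← hs1] at h0 h1 ⊢
    have h2 : s0 • t + (s1 * be1) • d1 + (s1 * be2) • d2 ∈ Ψ := by
      have e : s0 • t + (s1 * be1) • d1 + (s1 * be2) • d2 = s0 • t + s1 • (be1 • d1 + be2 • d2) := by module
      rw [e]
      exact h1
    have dK := det_tri (D := -(s1 * g - s0 * (η + be2 * ζ))) hT hx h2 hRa (by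
      rw [hx1, hx2, ← hal]
      have h1 := O.det
      rw [← hal] at h1
      linear_combination (s1 * g - s0 * η) * h1)
    rcases dK with h3 | h3
    · linarith only [h0, h3]
    · rw [abs_neg, abs_of_pos h0] at h3
      exact h3
  have dP : ∀ n, 0 < sq (-B t d2) (n + 1) * g - sq (-B t d2) n * ζ →
      1 / be1 ≤ sq (-B t d2) (n + 1) * g - sq (-B t d2) n * ζ := by
    intro n h0
    have h1 := (h.pencil n).1
    have dK := det_tri (D := -(be1 * (sq (-B t d2) (n + 1) * g - sq (-B t d2) n * ζ))) hT hx h1 hR (by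
      rw [hx1, hx2]
      ring)
    have h2 := mul_pos (by linarith only [hbe] : 0 < be1) h0
    rcases dK with h3 | h3
    · linarith only [h2, h3]
    · rw [abs_neg, abs_of_pos h2] at h3
      rw [div_le_iff₀ (by linarith only [hbe])]
      linarith only [h3]
  have dζ := det_tri (D := be1 * ζ) hT hx h.e0 hR (by rw [hx1, hx2]; ring)
  have hvζ : 1 ≤ be1 * ζ := by
    have h1 : 0 < be1 * ζ := mul_pos (by linarith only [hbe]) hζ
    rcases dζ with h2 | h2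
    · linarith only [h1, h2]
    · rw [abs_of_pos h1] at h2
      exact h2
  have hcR := X.cR_nonneg
  rw [X.Bxt] at hcR
  have hdich := hT.cp'.sq_dich
  obtain ⟨bO, hbO⟩ : ∃ bO, bO = -B d1 d2 := ⟨_, rfl⟩
  obtain ⟨b2, hb2d⟩ : ∃ b2, b2 = -B t d2 := ⟨_, rfl⟩
  obtain ⟨fH, hfH⟩ : ∃ fH, fH = be1 * φ d1 + be2 * φ d2 := ⟨_, rfl⟩
  obtain ⟨T, hTd⟩ : ∃ T, T = 2 * b2 * be2 := ⟨_, rfl⟩
  obtain ⟨m, hm⟩ : ∃ m, m = 2 * bO * be1 - be2 := ⟨_, rfl⟩
  have hb10 : -B t d1 = 0 := by rw [hb1, neg_zero]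
  have hRT := h
  rw [hb10, ← hb2d, ← hbO] at hRT
  have hnx := hRT.n _ _ _ hx
  obtain ⟨hms, nh, h2s⟩ := h_facts0 hRT hR hbe hbe2 hm
  rw [hb10, ← hb2d, mul_zero, zero_add] at dE hkh hSh
  rw [← hb2d] at dP hb2 hk2 hS2 hdich hcR
  rw [hb10] at hcR
  rw [← hfH] at hgφ hκe fh hkh hSh
  obtain ⟨rH, hrH⟩ : ∃ rH, rH = be1 * ρ d1 + be2 * ρ d2 := ⟨_, rfl⟩
  rw [← hrH] at hSh
  have hN : g ^ 2 + η ^ 2 + ζ ^ 2 - T * g * η - 2 * b2 * g * ζ + (be2 - m) * η * ζ = 1 := by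
    rw [hx1, hx2] at hnx
    rw [hTd]
    rw [hm] at nh ⊢
    linear_combination hnx - η ^ 2 * nh
  obtain ⟨l, rfl⟩ : ∃ l, k = l + 3 := ⟨k - 3, by omega⟩
  obtain ⟨r, rfl⟩ : ∃ r, k2 = r + 3 := ⟨k2 - 3, by omega⟩
  have V := vk_of hRT (by linarith only [hb2]) r hk2.hs
  -- `ρ d2 > - y`
  have p4 : 0 < sq b2 (r + 4) := hk2.hs (r + 3) (by omega)
  have p3 : 0 < sq b2 (r + 3) := hk2.hs (r + 2) (by omega)
  obtain ⟨y, hy⟩ : ∃ y, y = (sq b2 (r + 3) - 1) / sq b2 (r + 4) := ⟨_, rfl⟩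
  obtain ⟨κ', hκ'⟩ : ∃ κ', κ' = sq b2 (r + 2) / sq b2 (r + 3) := ⟨_, rfl⟩
  rw [← hy, ← hκ'] at V
  have hr2 : -y < ρ d2 := by
    have h1 := hk2.nk hS2 hκ
    have i1 : r + 3 + 1 = r + 4 := rfl
    rw [i1] at h1
    rw [hy, neg_lt, lt_div_iff₀ p4]
    linarith only [h1]
  have hκ'f : κ' ≤ -φ d2 := by
    have h1 := hk2.hm (r + 2) (by omega)
    have i1 : r + 2 + 1 = r + 3 := rfl
    rw [i1] at h1
    rw [hκ', div_le_iff₀ p3]
    linarith only [h1]
  have hρ := X.le_one.1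
  have hρx : g + x1 * ρ d1 + x2 * ρ d2 = g + η * rH + ζ * ρ d2 := by
    rw [hx1, hx2, hrH]
    ring
  rw [hρx] at hρ
  have hζρ := mul_lt_mul_of_pos_left hr2 hζ
  have hη1 : 1 ≤ be1 * η := by
    rw [← hx1]
    exact p1
  -- `ρ h > - τ`
  obtain ⟨c, hc⟩ : ∃ c, c = be2 * b2 := ⟨_, rfl⟩
  have hTc : T = 2 * c := by rw [hTd, hc]; ring
  rw [← hc] at dE hkh hSh
  have q4 : 0 < sq c (l + 4) := hkh.hs (l + 3) (by omega)
  have q3 : 0 < sq c (l + 3) := hkh.hs (l + 2) (by omega)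
  obtain ⟨τ, hτ⟩ : ∃ τ, τ = (sq c (l + 3) - 1) / sq c (l + 4) := ⟨_, rfl⟩
  obtain ⟨κ, hκd⟩ : ∃ κ, κ = sq c (l + 2) / sq c (l + 3) := ⟨_, rfl⟩
  have hrh : -τ < rH := by
    have h1 := hkh.nk hSh fh
    have i1 : l + 3 + 1 = l + 4 := rfl
    rw [i1] at h1
    rw [hτ, neg_lt, lt_div_iff₀ q4]
    linarith only [h1]
  have hκf : κ ≤ -fH := by
    have h1 := hkh.hm (l + 2) (by omega)
    have i1 : l + 2 + 1 = l + 3 := rfl
    rw [i1] at h1
    rw [hκd, div_le_iff₀ q3]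
    linarith only [h1]
  have hηρ := mul_lt_mul_of_pos_left hrh hη0
  suffices hmain : 1 ≤ g - τ * η - y * ζ by linarith only [hρ, hζρ, hηρ, hmain]
  rcases le_or_gt 2 T with hT2 | hT2
  · -- (A)
    have hc1 : 1 ≤ c := by linarith only [hTc, hT2]
    have H := hk_of hc1 l
    rw [← hTc, ← hκd, ← hτ] at H
    obtain ⟨P, hP⟩ : ∃ P, P = sq c (l + 3) := ⟨_, rfl⟩
    obtain ⟨S, hS⟩ : ∃ S, S = sq b2 (r + 3) := ⟨_, rfl⟩
    rw [← hP] at H
    rw [← hS] at V
    obtain ⟨μ, hμ⟩ : ∃ μ, μ = 2 * b2 := ⟨_, rfl⟩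
    rw [← hμ] at V hN hTd
    obtain ⟨W, hW⟩ : ∃ W, W = κ' * (T - 2 * κ) + κ * μ - be2 + m := ⟨_, rfl⟩
    have hF : κ * η + κ' * ζ ≤ g := by
      rw [hgφ]
      have h1 := mul_le_mul_of_nonneg_left hκf hη0.le
      have h2 := mul_le_mul_of_nonneg_left hκ'f hζ.le
      linarith only [h1, h2]
    have hobt : 2 * g ≤ T * η + μ * ζ := by
      rw [hx2] at hcR
      rw [hTd, hμ]
      linarith only [hcR]
    have h2s' := h2s
    have V2 : be1 ≤ τ * P * W :=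
      V2r hTd hT2 hbe2 h2s hms nh hbe V.hμ V.hμ8 H.κ0 H.κ1 H.κT1 V.κ'3 hW H.hQ H.hQκ
    have hP3 := H.P3
    have hH0 : 0 < be1 := by linarith only [hbe]
    have V1 : be1 * (1 - y ^ 2 * (1 - (1 / (be1 * P)) ^ 2)) ≤ y * S * W := by
      rcases V.alt with ⟨k1, k2, k3⟩ | ⟨k1, k2, k3, k4, k5⟩
      · refine V1r4 hTd hT2 hbe2 h2s hms nh hbe V.hμ V.hμ8 H.κ0 H.κ1 H.κT H.κT1 rfl H.ε0 H.ε1 k1 k2 k3 hW ?_
        have e1 : κ ^ 2 - T * κ + 1 = 1 / P ^ 2 := by
          rw [eq_div_iff (by positivity)]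
          exact H.hκ
        rw [e1]
        field_simp
      · refine V1r5 hTd hT2 hbe2 h2s hms nh hbe k1 (by linarith only [V.hμ8]) H.κ0 H.κ1 H.κκ V.y0 V.y1 k2
          (by linarith only [V.S8]) k3 k4 k5 hW (by positivity) ?_
        have h1 : 3 ≤ be1 * P := by
          have : 1 * P ≤ be1 * P := mul_le_mul_of_nonneg_right hbe (by linarith only [hP3])
          linarith only [hP3, this]
        have h2 : 1 / (be1 * P) ≤ 1 / 3 := one_div_le_one_div_of_le (by norm_num) h1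
        have h3 : (1 / (be1 * P)) ^ 2 ≤ (1 / 3) ^ 2 := pow_le_pow_left₀ (by positivity) h2 2
        linarith only [h3]
    exact vmethod hN hobt hF hP3 V.S8 H.hκ V.hκ' H.hτ V.hy H.τ0 V.y0 H.τ1 V.y1 hbe hη1 hvζ
      (by rw [hW]; ring) V2 V1
  · -- (B)
    have hμ8 := V.hμ8
    have hH2 : be2 = 1 := by
      rcases h2s with h1 | h1
      · exact h1
      · exfalso
        have h2 : 7 / 5 ≤ be2 := by nlinarith only [hbe2, h1]
        have h3 : 8 / 5 * (7 / 5) ≤ 2 * b2 * be2 := mul_le_mul hμ8 h2 (by norm_num) (by linarith only [hμ8])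
        linarith only [hc, hTc, hT2, h3]
    have hcb : c = b2 := by rw [hc, hH2]; ring
    have hb21 : b2 < 1 := by linarith only [hTc, hT2, hcb]
    rcases hdich with ⟨h1, -⟩ | ⟨M, hM, -, -, h1⟩
    · linarith only [hb21, h1]
    · have hM0 : ∀ k, (∀ i ≤ k, 0 < sq b2 (i + 1)) → k ≤ M := by
        intro k hk
        by_contra hcon
        have h2 := hk (M + 1) (by omega)
        have e : sq b2 (M + 1 + 1) = sq b2 (M + 2) := rfl
        rw [e, hM] at h2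
        exact lt_irrefl _ h2
      rw [hcb] at dE hkh hτ hκd q3
      rw [hH2] at dE
      have h2 : τ * 1 ≤ (2 * b2 * g - (η + 1 * ζ)) - τ * g := by
        refine sgn_ch (by linarith only [hμ8]) hM h1 (hM0 _ hkh.hs) (by linarith only [hη0, hζ0]) zero_le_one dE ?_ hτ
        -- `κ (η + ζ) < g`
        have h3 : κ * (η + ζ) < g := by
          rw [hgφ]
          have a1 := mul_le_mul_of_nonneg_left hκf hη0.le
          have a2 := mul_le_mul_of_nonneg_left hκf hζ.le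
          rw [hH2, one_mul] at hκe
          have a3 := mul_lt_mul_of_pos_left hκe hζ
          linarith only [a1, a2, a3]
        have h4 : sq b2 (l + 3) * (κ * (η + ζ)) < sq b2 (l + 3) * g := mul_lt_mul_of_pos_left h3 q3
        have h5 : sq b2 (l + 3) * κ = sq b2 (l + 2) := by
          rw [hκd]
          field_simp
        have h6 : sq b2 (l + 3) * (κ * (η + ζ)) = sq b2 (l + 2) * (η + ζ) := by
          rw [← mul_assoc, h5]
        rw [h6] at h4
        linarith only [h4]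
      have h3 : y * (1 / be1) ≤ (2 * b2 * g - ζ) - y * g := by
        refine sgn_ch (by linarith only [hμ8]) hM h1 (hM0 _ hk2.hs) hζ (by positivity) dP ?_ hy
        have h3 : κ' * ζ < g := by
          rw [hgφ]
          have a1 := mul_pos hη0 (by linarith only [fh] : 0 < -fH)
          have a2 := mul_le_mul_of_nonneg_left hκ'f hζ.le
          linarith only [a1, a2]
        have h4 : sq b2 (r + 3) * (κ' * ζ) < sq b2 (r + 3) * g := mul_lt_mul_of_pos_left h3 p3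
        have h5 : sq b2 (r + 3) * κ' = sq b2 (r + 2) := by
          rw [hκ']
          field_simp
        have h6 : sq b2 (r + 3) * (κ' * ζ) = sq b2 (r + 2) * ζ := by
          rw [← mul_assoc, h5]
        rw [h6] at h4
        linarith only [h4]
      refine value_B (μ := 2 * b2) hg0 hη0 hζ hbe V.y1 hη1 ?_ (by linarith only [h2]) h3
      rw [hTd, hH2] at hN
      rw [hH2] at nh
      have hm1 : be1 ^ 2 - 1 = m := by linarith only [nh]
      rw [hm1]
      linear_combination hN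

end

end Pool.Agent.Helper18.DY
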