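import Pool.Agent.Helper18.DY.NGi
import Pool.Agent.Helper18.DY.NGj
import Pool.Agent.Helper18.DY.NGj2
import Pool.Agent.Helper18.DY.NGj3
import Pool.Agent.Helper18.DY.NGj4

/-!
# NG, `b1 = 0`, indices `i, j ≥ 4`: the sequences (MP_d13a5e_al)
-/

set_option autoImplicit false

namespace Pool.Agent.Helper18.DY

open _root_.DY (Z1 C01 Tri Str Loc Xs ORt OFA Good Canon sq sq_zero sq_one sq_two sq_succ sq_incr sq_mono
  sq_cassini sq_norm sq_le_succ sq_docagne)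
open Pool.Agent.Helper62.DY (RT rt_of_tri refl_O)
open Pool.Agent.Helper57.DY (sq_ge_l p5_ge p5_zero)

/-- the data at `h`, `T ≥ 2`, index `i ≥ 4` -/
structure HK (T κ τ P : ℝ) : Prop where
  P3 : 3 ≤ P
  hκ : (κ ^ 2 - T * κ + 1) * P ^ 2 = 1
  hτ : τ * (P + 1) = κ * P
  τ0 : 0 < τ
  τ1 : τ ≤ 1
  κ0 : 0 < κ
  κ1 : κ ≤ 1
  κT1 : κ * (T - 1) ≤ 1
  κT : κ * T ≥ 1
  κκ : κ * (T - κ) ≤ 1
  hQ : T ^ 2 - 1 ≤ τ * P * T
  hQκ : 1 ≤ τ * P * κ
  ε0 : 0 ≤ κ ^ 2 - T * κ + 1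
  ε1 : (κ ^ 2 - T * κ + 1) * (T ^ 2 - 1) ^ 2 ≤ 1

theorem hk_real {T s1 s2 s3 s4 : ℝ} (hT : 2 ≤ T) (h1 : 1 ≤ s1) (h2 : T ≤ s2) (h12 : s1 + 1 ≤ s2)
    (h23 : s2 + 1 ≤ s3) (h3 : T ^ 2 - 1 ≤ s3) (h4 : 1 ≤ s4) (r3 : s3 = T * s2 - s1)
    (ca2 : s2 ^ 2 - s1 * s3 = 1) (ca3 : s3 ^ 2 - s2 * s4 = 1) :
    HK T (s2 / s3) ((s3 - 1) / s4) s3 := by
  have hs2 : 0 < s2 := by linarith
  have hs3 : 0 < s3 := by linarith
  have hs4 : 0 < s4 := by linarith
  have eτ : (s3 - 1) / s4 = s2 / (s3 + 1) := by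
    rw [div_eq_div_iff hs4.ne' (by linarith)]
    linear_combination ca3
  have eε : (s2 / s3) ^ 2 - T * (s2 / s3) + 1 = 1 / s3 ^ 2 := by
    field_simp
    rw [r3] at ca2 ⊢
    linear_combination ca2
  have eκP : s2 / s3 * s3 = s2 := by field_simp
  have eQ : s2 / (s3 + 1) * s3 = s2 * s3 / (s3 + 1) := by ring
  refine ⟨by nlinarith, ?_, ?_, ?_, ?_, ?_, ?_, ?_, ?_, ?_, ?_, ?_, ?_, ?_⟩
  · rw [eε]
    field_simp
  · rw [eτ, eκP]
    field_simp
  · rw [eτ]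
    exact div_pos hs2 (by linarith)
  · rw [eτ, div_le_one (by linarith)]
    linarith
  · exact div_pos hs2 hs3
  · rw [div_le_one hs3]
    linarith
  · rw [div_mul_eq_mul_div, div_le_one hs3]
    linarith
  · rw [ge_iff_le, div_mul_eq_mul_div, le_div_iff₀ hs3]
    linarith
  · have h5 : 0 ≤ 1 / s3 ^ 2 := by positivity
    rw [← eε] at h5
    linarith
  · rw [eτ, eQ, div_mul_eq_mul_div, le_div_iff₀ (by linarith)]
    have h5 : s2 * s3 * T = s3 * (s3 + s1) := by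
      rw [r3]
      ring
    rw [h5]
    have h6 : (T ^ 2 - 1) * (s3 + 1) ≤ s3 * (s3 + 1) := mul_le_mul_of_nonneg_right h3 (by linarith)
    have h7 : s3 * (s3 + 1) ≤ s3 * (s3 + s1) := mul_le_mul_of_nonneg_left (by linarith) hs3.le
    linarith
  · have h5 : s2 / (s3 + 1) * s3 * (s2 / s3) = s2 ^ 2 / (s3 + 1) := by
      field_simp
    rw [eτ, h5, le_div_iff₀ (by linarith)]
    have h6 : 1 * s3 ≤ s1 * s3 := mul_le_mul_of_nonneg_right h1 hs3.le
    linarith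
  · rw [eε]
    positivity
  · rw [eε, div_mul_eq_mul_div, div_le_one (by positivity), one_mul]
    have h5 : 0 ≤ T ^ 2 - 1 := by nlinarith
    exact pow_le_pow_left₀ h5 h3 2

theorem hk_of {c : ℝ} (hc : 1 ≤ c) (l : ℕ) :
    HK (2 * c) (sq c (l + 2) / sq c (l + 3)) ((sq c (l + 3) - 1) / sq c (l + 4)) (sq c (l + 3)) := by
  have i0 := sq_incr hc l
  have i1 := sq_incr hc (l + 1)
  have i2 := sq_incr hc (l + 2)
  have i3 := sq_incr hc (l + 3)
  have m2 := sq_mono hc (show 2 ≤ l + 2 by omega)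
  have m3 := sq_mono hc (show 3 ≤ l + 3 by omega)
  rw [sq_two] at m2
  have e3 : sq c 3 = (2 * c) ^ 2 - 1 := by
    have : sq c 3 = 2 * c * sq c 2 - sq c 1 := sq_succ c 1
    rw [this, sq_two, sq_one]
    ring
  rw [e3] at m3
  exact hk_real (s1 := sq c (l + 1)) (by linarith) (by linarith [i0.1, i0.2]) m2 i1.2 i2.2 m3
    (by linarith [i3.2, i2.1, i3.1]) (sq_succ c (l + 1)) (sq_cassini c (l + 1)) (sq_cassini c (l + 2))

/-- the data at `V_2`, index `j ≥ 4` -/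
structure VK (μ κ' y S : ℝ) : Prop where
  hμ : μ ^ 2 = μ + 1 ∨ 3 ≤ μ ^ 2
  hμ8 : 8 / 5 ≤ μ
  S8 : 8 / 5 ≤ S
  hκ' : (κ' ^ 2 - μ * κ' + 1) * S ^ 2 = 1
  hy : y * (S + 1) = κ' * S
  y0 : 0 < y
  y1 : y ≤ 1
  κ'3 : μ ≤ κ' * (μ ^ 2 - 1)
  alt : (y * μ = 1 ∧ S = μ ^ 2 - 1 ∧ κ' * (μ ^ 2 - 1) = μ) ∨
    (3 ≤ μ ^ 2 ∧ 1 ≤ μ * y ∧ 1 ≤ y * (S * (μ * κ' - 1)) ∧ 1 ≤ y * S ∧
      (0 ≤ μ - 2 * κ' ∨ (μ < 2 ∧ 0 ≤ μ - 2 * κ' + (μ * κ' - 1))))

theorem vk_of {b1 b2 bO : ℝ} {R : ℝ → ℝ → ℝ → Prop} (hR : RT b1 b2 bO R) (h1 : 1 ≤ 2 * b2) (l : ℕ)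
    (hs : ∀ i ≤ l + 3, 0 < sq b2 (i + 1)) :
    VK (2 * b2) (sq b2 (l + 2) / sq b2 (l + 3)) ((sq b2 (l + 3) - 1) / sq b2 (l + 4)) (sq b2 (l + 3)) := by
  have V := vs_of hR h1 l hs
  have p : ∀ i ≤ l + 3, 1 ≤ sq b2 (i + 1) := fun i hi => hR.pge i (hs i hi)
  have p1 : 1 ≤ sq b2 (l + 1) := p l (by omega)
  have p2 : 1 ≤ sq b2 (l + 2) := p (l + 1) (by omega)
  have p3 : 1 ≤ sq b2 (l + 3) := p (l + 2) (by omega)
  have p4 : 1 ≤ sq b2 (l + 4) := p (l + 3) (by omega)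
  have p5 : 0 ≤ sq b2 (l + 5) := hR.pnn (l + 3) (hs (l + 3) le_rfl)
  have p0 : 0 ≤ sq b2 l := by
    rcases Nat.eq_zero_or_pos l with h | h
    · rw [h, sq_zero]
    · obtain ⟨r, rfl⟩ : ∃ r, l = r + 1 := ⟨l - 1, by omega⟩
      linarith [p r (by omega)]
  have hb0 : 0 ≤ b2 := by linarith
  have hμ8 := V.hμ1
  have hμ2 := V.hμ
  have e3 : sq b2 3 = (2 * b2) ^ 2 - 1 := by
    have : sq b2 3 = 2 * b2 * sq b2 2 - sq b2 1 := sq_succ b2 1
    rw [this, sq_two, sq_one]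
    ring
  have e5 : sq b2 5 = (2 * b2) ^ 4 - 3 * (2 * b2) ^ 2 + 1 := by
    have a1 : sq b2 5 = 2 * b2 * sq b2 4 - sq b2 3 := sq_succ b2 3
    have a2 : sq b2 4 = 2 * b2 * sq b2 3 - sq b2 2 := sq_succ b2 2
    rw [a1, a2, e3, sq_two]
    ring
  have s2μ : 2 * b2 ≤ sq b2 (l + 2) := sq_ge_l hb0 p0 (by linarith) (by linarith)
  have s3μ : 2 * b2 ≤ sq b2 (l + 3) :=
    sq_ge_l hb0 (n := l + 1) (by linarith) (by linarith : 0 ≤ sq b2 (l + 3)) p5
  obtain ⟨μ, hμ⟩ : ∃ μ, μ = 2 * b2 := ⟨_, rfl⟩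
  obtain ⟨s0, hs0⟩ : ∃ s0, s0 = sq b2 l := ⟨_, rfl⟩
  obtain ⟨s1, hs1⟩ : ∃ s1, s1 = sq b2 (l + 1) := ⟨_, rfl⟩
  obtain ⟨s2, hs2⟩ : ∃ s2, s2 = sq b2 (l + 2) := ⟨_, rfl⟩
  obtain ⟨s3, hs3⟩ : ∃ s3, s3 = sq b2 (l + 3) := ⟨_, rfl⟩
  obtain ⟨s4, hs4⟩ : ∃ s4, s4 = sq b2 (l + 4) := ⟨_, rfl⟩
  have r2 : s2 = μ * s1 - s0 := by rw [hμ, hs0, hs1, hs2]; exact sq_succ b2 l
  have r3 : s3 = μ * s2 - s1 := by rw [hμ, hs1, hs2, hs3]; exact sq_succ b2 (l + 1)
  have r4 : s4 = μ * s3 - s2 := by rw [hμ, hs2, hs3, hs4]; exact sq_succ b2 (l + 2)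
  have ca2 : s2 ^ 2 - s1 * s3 = 1 := by rw [hs1, hs2, hs3]; exact sq_cassini b2 (l + 1)
  have ca3 : s3 ^ 2 - s2 * s4 = 1 := by rw [hs2, hs3, hs4]; exact sq_cassini b2 (l + 2)
  have hle : s2 ≤ s1 + 1 ∨ 2 ≤ μ := by
    rcases le_or_gt b2 1 with hb1 | hb1
    · left
      have := (abs_le.1 (_root_.DY.sq_step_le hb1 (n := l + 1) (by linarith)
        (by linarith : 0 ≤ sq b2 (l + 1 + 1)))).2
      have e1 : sq b2 (l + 1 + 1) = sq b2 (l + 2) := rfl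
      rw [e1, ← hs1, ← hs2] at this
      linarith
    · right
      rw [hμ]
      linarith
  have hmono : 2 ≤ μ → s2 ≤ s4 := by
    intro h
    have h1 : 1 ≤ b2 := by rw [hμ] at h; linarith
    rw [hs2, hs4]
    exact sq_mono h1 (by omega)
  have h5 : (2 * b2) ^ 2 = 2 * b2 + 1 ∨ 3 ≤ (2 * b2) ^ 2 := by
    rcases Nat.eq_zero_or_pos l with h | h
    · subst h
      have q5 : sq b2 5 = 0 ∨ 1 ≤ sq b2 5 := by
        rcases (hR.z0 (hR.pencil (0 + 4)).1 (by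
          have := hs 3 (by omega)
          exact this)).2.2 with h1 | h1
        · exact Or.inl h1
        · exact Or.inr h1
      rw [e5] at q5
      rcases q5 with h1 | h1
      · exact Or.inl (p5_zero (by linarith) h1)
      · exact Or.inr (p5_ge (by linarith) h1)
    · right
      have q5 : 1 ≤ sq b2 5 := p 4 (by omega)
      rw [e5] at q5
      exact p5_ge (by linarith) q5
  have hs1μ : l = 0 ∨ μ ≤ s1 := by
    rcases Nat.eq_zero_or_pos l with h | h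
    · exact Or.inl h
    · right
      obtain ⟨r, rfl⟩ : ∃ r, l = r + 1 := ⟨l - 1, by omega⟩
      have q0 : 0 ≤ sq b2 r := by
        rcases Nat.eq_zero_or_pos r with h' | h'
        · rw [h', sq_zero]
        · obtain ⟨w, rfl⟩ : ∃ w, r = w + 1 := ⟨r - 1, by omega⟩
          linarith [p w (by omega)]
      rw [hμ, hs1]
      exact sq_ge_l hb0 (n := r) q0 (by
        have e : sq b2 (r + 2) = sq b2 (r + 1 + 1) := rfl
        rw [e]
        linarith) (by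
        have e : sq b2 (r + 4) = sq b2 (r + 1 + 3) := rfl
        rw [e]
        linarith)
  have h3lt : l ≠ 0 → 3 ≤ (2 * b2) ^ 2 := by
    intro h
    have q5 : 1 ≤ sq b2 5 := p 4 (by omega)
    rw [e5] at q5
    exact p5_ge (by linarith) q5
  have V1 := V.t1
  rw [← hμ] at h5 hμ8 hμ2 s2μ s3μ h3lt ⊢
  rw [← hs2] at p2 s2μ
  rw [← hs3] at p3 s3μ
  rw [← hs1] at p1
  rw [← hs4] at p4
  rw [← hs0] at p0
  rw [← hs3, ← hs4] at V1
  rw [← hs2, ← hs3, ← hs4]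
  have eκS : s2 / s3 * s3 = s2 := by field_simp
  have ey : (s3 - 1) / s4 = s2 / (s3 + 1) := by
    rw [div_eq_div_iff (by linarith) (by linarith)]
    linear_combination ca3
  refine ⟨h5, hμ8, by linarith, ?_, ?_, ?_, V1, ?_, ?_⟩
  · have e1 : (s2 / s3) ^ 2 - μ * (s2 / s3) + 1 = 1 / s3 ^ 2 := by
      field_simp
      rw [r3] at ca2 ⊢
      linear_combination ca2
    rw [e1]
    field_simp
  · rw [eκS, ey]
    field_simp
  · exact div_pos (by linarith) (by linarith)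
  · rw [div_mul_eq_mul_div, le_div_iff₀ (by linarith)]
    have : s2 * (μ ^ 2 - 1) - μ * s3 = s0 := by
      rw [r3, r2]
      ring
    linarith
  · rcases Nat.eq_zero_or_pos l with h | h
    · left
      have z0 : s0 = 0 := by rw [hs0, h, sq_zero]
      have z1 : s1 = 1 := by rw [hs1, h]; exact sq_one
      have z2 : s2 = μ := by rw [r2, z0, z1]; ring
      have z3 : s3 = μ ^ 2 - 1 := by rw [r3, z2, z1]; ring
      refine ⟨?_, z3, ?_⟩
      · rw [ey, z2, z3]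
        field_simp
        ring
      · rw [← z3, eκS, z2]
    · right
      have hl0 : l ≠ 0 := by omega
      have q1 : μ ≤ s1 := by
        rcases hs1μ with h' | h'
        · exact absurd h' hl0
        · exact h'
      refine ⟨h3lt hl0, ?_, ?_, ?_, ?_⟩
      · rw [ey, mul_div_assoc', le_div_iff₀ (by linarith)]
        linarith
      · have e1 : s3 * (μ * (s2 / s3) - 1) = s1 := by
          have : s3 * (μ * (s2 / s3) - 1) = μ * (s2 / s3 * s3) - s3 := by ring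
          rw [this, eκS]
          linarith
        rw [e1, ey, div_mul_eq_mul_div, le_div_iff₀ (by linarith)]
        have := mul_le_mul_of_nonneg_left q1 (by linarith : 0 ≤ s2)
        linarith
      · rw [ey, div_mul_eq_mul_div, le_div_iff₀ (by linarith)]
        have h6 : (μ - 1) * μ ≤ (s2 - 1) * s3 := mul_le_mul (by linarith) s3μ (by linarith) (by linarith)
        nlinarith
      · rcases le_or_gt 2 μ with h6 | h6
        · left
          have h7 := hmono h6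
          have e1 : μ - 2 * (s2 / s3) = (s4 - s2) / s3 := by
            rw [r4]
            field_simp
            ring
          rw [e1]
          exact div_nonneg (by linarith) (by linarith)
        · right
          refine ⟨h6, ?_⟩
          have h7 : s2 ≤ s1 + 1 := by
            rcases hle with h8 | h8
            · exact h8
            · linarith
          have e1 : μ - 2 * (s2 / s3) + (μ * (s2 / s3) - 1) = (s4 - s2 + s1) / s3 := by
            have : s1 = μ * s2 - s3 := by linarith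
            rw [r4, this]
            field_simp
            ring
          rw [e1]
          exact div_nonneg (by linarith) (by linarith)

end Pool.Agent.Helper18.DY
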